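import Pool.Agent.Q59.MC.Fin

/-!
# Characters with a bounded number of entries and modular characters
-/

namespace Pool.Agent.Q59.MC

open Finset Pool.Agent.H916R2 Pool.Agent.Q59.FS Pool.Agent.Q59.PL Pool.Agent.Q59.S6
  Pool.Agent.Y2.Cv

/-- the characters with four entries, the curve products and the modular characters -/
def BaseM (m : ℕ) (s : Multiset (ZMod m)) : Prop :=
  SurfaceOrCurveProduct m s ∨ ModularCharacter m s

/-- more generators -/
lemma gen_mono {m : ℕ} {b b' : Multiset (ZMod m) → Prop} (h : ∀ t, b t → b' t)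
    {s : Multiset (ZMod m)} (hs : Generated m b s) : Generated m b' s := by
  induction hs with
  | ofBase s hs => exact Generated.ofBase s (h s hs)
  | pair a ha => exact Generated.pair a ha
  | standard p hp hp2 hpm a ha => exact Generated.standard p hp hp2 hpm a ha
  | standardTwo hm a ha => exact Generated.standardTwo hm a ha
  | join s t _ _ ih1 ih2 => exact Generated.join s t ih1 ih2
  | cancel a s _ ih => exact Generated.cancel a s ih

section Level

/-- a prime congruent to three is not a factor of a level with another prime -/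
lemma no_three_even {k M q p0 : ℕ} (hM2 : 2 ∣ M)
    (hM : ∀ p : ℕ, p.Prime → p ∣ M → p ≤ max 10 (k + 1))
    (hbad : ∀ l, BadEven k l → One4 l → ¬ l ∣ M) (hq : q.Prime) (hq11 : 11 ≤ q) (hqM : q ∣ M)
    (hq1 : q % 4 ≠ 1) (hp0 : p0.Prime) (hp0M : p0 ∣ M) (hp01 : p0 % 4 = 1) : False := by
  have hne : p0 ≠ q := by rintro rfl; exact hq1 hp01
  have hqk : q ≤ k + 1 := by
    rcases le_max_iff.mp (hM q hq hqM) with h | h
    · omega
    · exact h
  have hp2 : 2 < p0 := by
    have := hp0.two_le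
    omega
  have h2p : (2 : ℕ).Coprime p0 := (Nat.coprime_primes Nat.prime_two hp0).mpr (by omega)
  have hpq' : p0.Coprime q := (Nat.coprime_primes hp0 hq).mpr hne
  have h2q' : (2 : ℕ).Coprime q := (Nat.coprime_primes Nat.prime_two hq).mpr (by omega)
  have h1 : 2 * p0 * q ∣ M := Nat.Coprime.mul_dvd_of_dvd_of_dvd
    (Nat.Coprime.mul_left h2q' hpq') (h2p.mul_dvd_of_dvd_of_dvd hM2 hp0M) hqM
  by_cases h5 : p0 = 5
  · subst h5
    exact hbad (10 * q) (Or.inr (Or.inr (Or.inr (Or.inl ⟨q, hq, hq11, by omega, rfl⟩))))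
      ⟨5, hp0, ⟨2 * q, by ring⟩, rfl⟩ h1
  have h9 : p0 ≠ 9 := by rintro rfl; exact absurd hp0 (by norm_num)
  rcases lt_or_gt_of_ne hne with h3 | h3
  · exact hbad _ (Or.inr (Or.inr (Or.inr (Or.inr ⟨p0, q, hp0, hq, by omega, h3, hqk, rfl⟩))))
      ⟨p0, hp0, ⟨2 * q, by ring⟩, hp01⟩ h1
  · have hpk : p0 ≤ k + 1 := by
      rcases le_max_iff.mp (hM p0 hp0 hp0M) with h | h
      · omega
      · exact h
    exact hbad (2 * q * p0) (Or.inr (Or.inr (Or.inr (Or.inr
      ⟨q, p0, hq, hp0, by omega, h3, hpk, rfl⟩)))) ⟨p0, hp0, ⟨2 * q, by ring⟩, hp01⟩ (by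
        rw [mul_assoc, mul_comm q p0, ← mul_assoc]; exact h1)

/-- the even level of the small primes -/
lemma good_or_even {k M : ℕ} (hM2 : 2 ∣ M) (hM0 : M ≠ 0)
    (hM : ∀ p : ℕ, p.Prime → p ∣ M → p ≤ max 10 (k + 1))
    (hbad : ∀ l, BadEven k l → One4 l → ¬ l ∣ M) :
    GoodDegree2 M ∨ ∀ p : ℕ, p.Prime → p ∣ M → p % 4 ≠ 1 := by
  by_cases h0 : ∀ p : ℕ, p.Prime → p ∣ M → p % 4 ≠ 1
  · exact Or.inr h0
  left
  push Not at h0
  obtain ⟨p0, hp0, hp0M, hp01⟩ := h0
  refine good_even hM2 hM0 hM fun l hl hlM => ?_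
  have key : ∀ q : ℕ, q.Prime → 11 ≤ q → q ∣ M → q % 4 = 1 := by
    intro q hq hq11 hqM
    by_contra hq1
    exact no_three_even hM2 hM hbad hq hq11 hqM hq1 hp0 hp0M hp01
  refine hbad l hl ?_ hlM
  rcases hl with rfl | ⟨q, hq, h1, h2, rfl⟩ | ⟨q, hq, h1, h2, rfl⟩ | ⟨q, hq, h1, h2, rfl⟩ |
      ⟨p, q, hp, hq, h1, h2, h3, rfl⟩
  · exact ⟨5, by norm_num, ⟨84, by norm_num⟩, rfl⟩
  · exact ⟨q, hq, dvd_mul_left _ _, key q hq (by omega) ((dvd_mul_left _ _).trans hlM)⟩
  · exact ⟨q, hq, dvd_mul_left _ _, key q hq (by omega) ((dvd_mul_left _ _).trans hlM)⟩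
  · exact ⟨q, hq, dvd_mul_left _ _, key q hq (by omega) ((dvd_mul_left _ _).trans hlM)⟩
  · have h8 : q ≠ 8 := by rintro rfl; exact absurd hq (by norm_num)
    have h9 : q ≠ 9 := by rintro rfl; exact absurd hq (by norm_num)
    have h10 : q ≠ 10 := by rintro rfl; exact absurd hq (by norm_num)
    exact ⟨q, hq, dvd_mul_left _ _, key q hq (by omega) ((dvd_mul_left _ _).trans hlM)⟩

/-- the odd level of the small primes -/
lemma good_or_odd {k M : ℕ} (hM2 : ¬ 2 ∣ M) (hM0 : M ≠ 0)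
    (hM : ∀ p : ℕ, p.Prime → p ∣ M → p ≤ max 10 (k + 1))
    (hbad : ∀ l, BadOdd k l → One4 l → ¬ l ∣ M) :
    GoodDegree2 M ∨ ∀ p : ℕ, p.Prime → p ∣ M → p % 4 ≠ 1 := by
  by_cases h0 : ∀ p : ℕ, p.Prime → p ∣ M → p % 4 ≠ 1
  · exact Or.inr h0
  left
  push Not at h0
  obtain ⟨p0, hp0, hp0M, hp01⟩ := h0
  have key : ∀ q : ℕ, q.Prime → 11 ≤ q → q ∣ M → q % 4 = 1 := by
    intro q hq hq11 hqM
    by_contra hq1
    have hne : p0 ≠ q := by rintro rfl; exact hq1 hp01
    have hqk : q ≤ k + 1 := by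
      rcases le_max_iff.mp (hM q hq hqM) with h | h
      · omega
      · exact h
    have hp2 := hp0.two_le
    have hpq' : p0.Coprime q := (Nat.coprime_primes hp0 hq).mpr hne
    have h1 : p0 * q ∣ M := hpq'.mul_dvd_of_dvd_of_dvd hp0M hqM
    rcases lt_or_gt_of_ne hne with h3 | h3
    · exact hbad _ (Or.inr ⟨p0, q, hp0, hq, by omega, h3, hq11, hqk, rfl⟩)
        ⟨p0, hp0, dvd_mul_right _ _, hp01⟩ h1
    · have hpk : p0 ≤ k + 1 := by
        rcases le_max_iff.mp (hM p0 hp0 hp0M) with h | h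
        · omega
        · exact h
      exact hbad (q * p0) (Or.inr ⟨q, p0, hq, hp0, by omega, h3, by omega, hpk, rfl⟩)
        ⟨p0, hp0, dvd_mul_left _ _, hp01⟩ (by rw [mul_comm]; exact h1)
  refine good_odd hM2 hM0 hM fun l hl hlM => ?_
  refine hbad l hl ?_ hlM
  rcases hl with ⟨q, hq, h1, h2, rfl⟩ | ⟨p, q, hp, hq, h1, h2, h3, h4, rfl⟩
  · exact ⟨q, hq, dvd_mul_left _ _, key q hq (by omega) ((dvd_mul_left _ _).trans hlM)⟩
  · exact ⟨q, hq, dvd_mul_left _ _, key q hq (by omega) ((dvd_mul_left _ _).trans hlM)⟩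

end Level

section Main

variable {m : ℕ} [NeZero m] {k : ℕ}

omit [NeZero m] in
lemma baseM_good (s : Multiset (ZMod m)) (h : BaseM m s) :
    (0 : ZMod m) ∉ s ∧ Even (Multiset.card s) := by
  rcases h with h | h
  · exact base_good s h
  · exact ⟨h.1.1, h.1.2.1⟩

lemma baseM_neg (s : Multiset (ZMod m)) (h : BaseM m s) : BaseM m (s.map Neg.neg) := by
  rcases h with h | h
  · exact Or.inl (base_neg s h)
  · exact Or.inr (modular_neg h)

/-- **Even degrees.** -/
theorem main_even_M (hm2 : 2 ∣ m) (hm : ∀ l, BadEven k l → One4 l → ¬ l ∣ m)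
    {s : Multiset (ZMod m)} (hs : IsHodge m s) (hne : s ≠ 0) (hcard : Multiset.card s ≤ k) :
    Generated m (BaseM m) s := by
  have hm0 := NeZero.ne m
  have hc : (Multiset.card s : ℤ) ≤ k := by exact_mod_cast hcard
  obtain ⟨m1, m2, h12, hp1, hp2⟩ := exists_split hm0 (max 10 (k + 1))
  have hm20 : m2 ≠ 0 := by rintro rfl; rw [mul_zero] at h12; exact hm0 h12.symm
  have hm10 : m1 ≠ 0 := by rintro rfl; rw [zero_mul] at h12; exact hm0 h12.symm
  have : NeZero m1 := ⟨hm10⟩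
  have h2m1 : 2 ∣ m1 := by
    have h1 : 2 ∣ m1 * m2 := by rw [h12]; exact hm2
    rcases Nat.prime_two.dvd_mul.mp h1 with h | h
    · exact h
    · have h3 := hp2 2 Nat.prime_two h
      have := (le_max_left 10 (k + 1)).trans_lt h3
      omega
  have hgood := good_or_even h2m1 hm10 hp1
    (fun l hl h1 h => hm l hl h1 (h.trans (Dvd.intro _ h12)))
  have hb : ∀ u, SurfaceOrCurveProduct m u → (u.map (cQ m (BaseM m))).sum = 0 :=
    fun u hu => cQ_sum_eq_zero (Generated.ofBase u (Or.inl hu))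
  have hbm : ∀ u, ModularCharacter m u → (u.map (cQ m (BaseM m))).sum = 0 :=
    fun u hu => cQ_sum_eq_zero (Generated.ofBase u (Or.inr hu))
  have hL : ∀ q ∈ m2.primeFactorsList, q.Prime ∧ 11 ≤ q ∧ k + 1 < q ∧ q ∣ m := by
    intro q hq
    have h1 := (Nat.mem_primeFactorsList hm20).mp hq
    have h3 := hp2 q h1.1 h1.2
    rw [max_lt_iff] at h3
    exact ⟨h1.1, by omega, h3.2, h1.2.trans (Dvd.intro_left _ h12)⟩
  obtain ⟨y, hy, hxy, hy0, -⟩ := peel_all_listM (k := k) hm2 hm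
    (cQ_oddDist (base := BaseM m)) hb hbm m2.primeFactorsList hL _ hs.rel
    (fun q => Or.inl ((ud_count_le q s).trans (by linarith)))
    (fun q => Or.inl ((nd_count_le q s).trans (by have := S6.wq_le_two q s; linarith)))
  have h1 : ∑ a, ((s.count a : ℕ) : ℤ) • cQ m (BaseM m) a = 0 := by
    rw [hxy]
    refine kill_small_od (M := m1) (k := m2) (by rw [mul_comm]; exact h12) h2m1 hgood cQ_oddDist hb
      hbm ?_ hy
    intro a ha
    have h1 : addOrderOf a ∣ m1 * m2 := by rw [h12]; exact order_dvd a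
    refine Nat.Coprime.dvd_of_dvd_mul_right ?_ h1
    refine Nat.coprime_of_dvd fun p hp hpa hp2 => ?_
    exact ha (hy0 p ((Nat.mem_primeFactorsList hm20).mpr ⟨hp, hp2⟩) a hpa)
  rw [sum_count] at h1
  rw [cQ_sum, QuotientAddGroup.eq_zero_iff] at h1
  exact generated_of_mem_LL baseM_good baseM_neg hs.1 hs.2.1 hne h1

end Main

section Odd

/-- **Odd degrees.** -/
theorem main_odd_M {m k : ℕ} (hodd : m % 2 = 1) (hm : ∀ l, BadOdd k l → One4 l → ¬ l ∣ m)
    {s : Multiset (ZMod m)} (hs : IsHodge m s) (hne : s ≠ 0) (hcard : Multiset.card s ≤ k) :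
    Generated (2 * m) (BaseM (2 * m)) (s.map fun a => ((2 * a.val : ℕ) : ZMod (2 * m))) := by
  have hm0 : m ≠ 0 := by rintro rfl; simp at hodd
  have : NeZero m := ⟨hm0⟩
  have : NeZero (2 * m) := ⟨by omega⟩
  have hc : (Multiset.card s : ℤ) ≤ k := by exact_mod_cast hcard
  obtain ⟨m1, m2, h12, hp1, hp2⟩ := exists_split hm0 (max 10 (k + 1))
  have hm20 : m2 ≠ 0 := by rintro rfl; rw [mul_zero] at h12; exact hm0 h12.symm
  have hm10 : m1 ≠ 0 := by rintro rfl; rw [zero_mul] at h12; exact hm0 h12.symm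
  have : NeZero (2 * m1) := ⟨by omega⟩
  have hodd1 : ¬ 2 ∣ m1 := by
    intro h
    have h1 : 2 ∣ m := by rw [← h12]; exact Dvd.dvd.mul_right h m2
    omega
  have hgood : GoodDegree2 (2 * m1) ∨ ∀ p : ℕ, p.Prime → p ∣ 2 * m1 → p % 4 ≠ 1 := by
    rcases good_or_odd hodd1 hm10 hp1
      (fun l hl h1 h => hm l hl h1 (h.trans (Dvd.intro _ h12))) with h | h
    · exact Or.inl (h.two_mul hodd1)
    · refine Or.inr fun p hp hpd => ?_
      rcases hp.dvd_mul.mp hpd with h1 | h1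
      · rw [(Nat.prime_dvd_prime_iff_eq hp Nat.prime_two).mp h1]
        norm_num
      · exact h p hp h1
  set C := cQ (2 * m) (BaseM (2 * m)) with hCdef
  have hC : OddDist C := cQ_oddDist
  have hb : ∀ u, SurfaceOrCurveProduct (2 * m) u → (u.map C).sum = 0 :=
    fun u hu => cQ_sum_eq_zero (Generated.ofBase u (Or.inl hu))
  have hbm : ∀ u, ModularCharacter (2 * m) u → (u.map C).sum = 0 :=
    fun u hu => cQ_sum_eq_zero (Generated.ofBase u (Or.inr hu))
  set s2 : Multiset (ZMod (2 * m)) := s.map fun a => ((2 * a.val : ℕ) : ZMod (2 * m)) with hs2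
  have hs2H : IsHodge (2 * m) s2 := IsHodge.iota (k := 2) rfl hs
  have hne2 : s2 ≠ 0 := by
    intro h
    exact hne (Multiset.map_eq_zero.mp h)
  have h4 : ¬ 4 ∣ 2 * m := by omega
  have hL : ∀ q ∈ m2.primeFactorsList, q.Prime ∧ 11 ≤ q ∧ k + 1 < q ∧ q ∣ m := by
    intro q hq
    have h1 := (Nat.mem_primeFactorsList hm20).mp hq
    have h3 := hp2 q h1.1 h1.2
    rw [max_lt_iff] at h3
    exact ⟨h1.1, by omega, h3.2, h1.2.trans (Dvd.intro_left _ h12)⟩
  obtain ⟨y, hy, hxy, hy0, -⟩ := peel_listM hC m2.primeFactorsList (fun q hq => by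
      obtain ⟨h1, h2, -, -⟩ := hL q hq
      exact ⟨h1, by omega⟩) (fun a : ZMod (2 * m) => ((s2.count a : ℕ) : ℤ)) hs2H.rel
      (fun q hq => by
      obtain ⟨hqp, hq11, hqk, hqm⟩ := hL q hq
      have hw := wq_le hodd q s
      have hw2 : wq q s2 = wq q s := wq_iota (m := 2 * m) (k := 2) rfl q s
      have hn := nq_count_le q s2
      rw [hw2] at hn
      have hqkZ : (k : ℤ) + 1 < q := by exact_mod_cast hqk
      by_cases h2k : 2 * k + 1 < q
      · left
        have : 2 * (k : ℤ) + 1 < q := by exact_mod_cast h2k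
        linarith
      refine Or.inr ⟨h4, by linarith, ?_⟩
      by_cases hq4 : q % 4 = 3
      · exact Or.inr (ex_modular hqp hq4 (by omega) (Or.inr ⟨rfl, rfl⟩) hbm)
      have hq1 : q % 4 = 1 := by
        have := hqp.eq_two_or_odd
        omega
      by_cases h23 : 23 ≤ q
      · left
        intro h3m
        have h3 : 3 ∣ m := by
          rcases Nat.prime_three.dvd_mul.mp h3m with h | h
          · exact absurd h (by norm_num)
          · exact h
        exact hm (3 * q) (Or.inl ⟨q, hqp, h23, by omega, rfl⟩) ⟨q, hqp, dvd_mul_left _ _, hq1⟩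
          (Nat.Coprime.mul_dvd_of_dvd_of_dvd
            ((Nat.coprime_primes Nat.prime_three hqp).mpr (by omega)) h3 hqm)
      · right
        refine exists_ex3 (dvd_mul_right 2 m) (Or.inr ?_) hC hb
        interval_cases q <;> first | (simp; done) | exact absurd hqp (by norm_num))
  have h1 : ∑ a, ((s2.count a : ℕ) : ℤ) • C a = 0 := by
    rw [hxy]
    refine kill_small_od (M := 2 * m1) (k := m2) (by rw [← h12]; ring) (dvd_mul_right 2 m1) hgood
      hC hb hbm ?_ hy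
    intro a ha
    have h1 : addOrderOf a ∣ 2 * m1 * m2 := by
      rw [mul_assoc, h12]; exact order_dvd a
    refine Nat.Coprime.dvd_of_dvd_mul_right ?_ h1
    refine Nat.coprime_of_dvd fun p hp hpa hp2 => ?_
    exact ha (hy0 p ((Nat.mem_primeFactorsList hm20).mpr ⟨hp, hp2⟩) a hpa)
  rw [sum_count] at h1
  rw [hCdef, cQ_sum, QuotientAddGroup.eq_zero_iff] at h1
  exact generated_of_mem_LL baseM_good baseM_neg hs2H.1 hs2H.2.1 hne2 h1

end Odd

end Pool.Agent.Q59.MC
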