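import Pool.Agent.Q59.MC.Rep

/-!
# The halves of the Weil representation of `SL_2` over a prime field, `p ≡ 3` modulo `4`
-/

namespace Pool.Agent.Q59.MC

open Finset Matrix MatrixGroups

/-- the sign of a residue: the nontrivial character modulo `4`, and the Legendre symbol -/
def sgn (p a : ℕ) : ℤ := if p = 4 then ZMod.χ₄ (a : ZMod 4) else jacobiSym a p

/-- the residues modulo `p` of sign `s` -/
def RS (p : ℕ) (s : ℤˣ) : Finset ℕ := (range p).filter fun a => sgn p a = s

/-- the exponents `a / p`, `a` of sign `s`, in the degree `m` -/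
def PE (m p : ℕ) (s : ℤˣ) : Multiset (ZMod m) := (RS p s).val.map fun a => ((m / p * a : ℕ) : ZMod m)

section Kernel

variable {p : ℕ} [hp : Fact p.Prime]

/-- the kernel of the Weil representation -/
noncomputable def KK (g : SL(2, ZMod p)) (x y : ZMod p) : ℂ :=
  kk p (g 0 0) (g 0 1) (g 1 0) (g 1 1) x y

lemma KK_mul (h2 : p ≠ 2) (g h : SL(2, ZMod p)) (x z : ZMod p) :
    ∑ y, KK g x y * KK h y z = KK (g * h) x z := by
  have e00 : (g * h) 0 0 = g 0 0 * h 0 0 + g 0 1 * h 1 0 := by
    simp [Matrix.mul_apply, Fin.sum_univ_two]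
  have e01 : (g * h) 0 1 = g 0 0 * h 0 1 + g 0 1 * h 1 1 := by
    simp [Matrix.mul_apply, Fin.sum_univ_two]
  have e10 : (g * h) 1 0 = g 1 0 * h 0 0 + g 1 1 * h 1 0 := by
    simp [Matrix.mul_apply, Fin.sum_univ_two]
  have e11 : (g * h) 1 1 = g 1 0 * h 0 1 + g 1 1 * h 1 1 := by
    simp [Matrix.mul_apply, Fin.sum_univ_two]
  have dg : g 0 0 * g 1 1 - g 0 1 * g 1 0 = 1 := by
    have := g.det_coe
    rwa [Matrix.det_fin_two] at this
  have dh : h 0 0 * h 1 1 - h 0 1 * h 1 0 = 1 := by
    have := h.det_coe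
    rwa [Matrix.det_fin_two] at this
  unfold KK
  rw [e00, e01, e10, e11]
  by_cases hg : g 1 0 = 0
  · by_cases hh : h 1 0 = 0
    · rw [hg, hh, mul_zero, add_zero, zero_mul, mul_zero, add_zero, zero_mul, zero_add]
      rw [hh, mul_zero, sub_zero] at dh
      exact kk_mul_zero_zero dh x z
    · rw [hg, zero_mul, zero_add, zero_mul, zero_add]
      rw [hg, mul_zero, sub_zero] at dg
      exact kk_mul_zero_ne dg hh x z
  · by_cases hh : h 1 0 = 0
    · rw [hh, mul_zero, add_zero, mul_zero, add_zero]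
      rw [hh, mul_zero, sub_zero] at dh
      exact kk_mul_ne_zero dh hg x z
    · exact kk_mul_ne_ne h2 dg dh hg hh x z

lemma KK_one (x y : ZMod p) : KK (1 : SL(2, ZMod p)) x y = if y = x then 1 else 0 := by
  unfold KK kk
  have e00 : (1 : SL(2, ZMod p)) 0 0 = 1 := by simp
  have e01 : (1 : SL(2, ZMod p)) 0 1 = 0 := by simp
  have e10 : (1 : SL(2, ZMod p)) 1 0 = 0 := by simp
  rw [e00, e01, e10, if_pos rfl]
  simp

lemma KK_neg_one (x y : ZMod p) :
    KK (-1 : SL(2, ZMod p)) x y = if y = -x then ch p (-1) else 0 := by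
  unfold KK kk
  have e00 : (-1 : SL(2, ZMod p)) 0 0 = -1 := by simp
  have e01 : (-1 : SL(2, ZMod p)) 0 1 = 0 := by simp
  have e10 : (-1 : SL(2, ZMod p)) 1 0 = 0 := by simp
  rw [e00, e01, e10, if_pos rfl]
  simp

lemma KK_neg (g : SL(2, ZMod p)) (x y : ZMod p) : KK g (-x) (-y) = KK g x y := by
  unfold KK kk
  have e1 : (-y = g 0 0 * -x) = (y = g 0 0 * x) := by
    rw [mul_neg, neg_inj]
  have e2 : (g 0 0 * (-x) ^ 2 - 2 * -x * -y + g 1 1 * (-y) ^ 2) =
      (g 0 0 * x ^ 2 - 2 * x * y + g 1 1 * y ^ 2) := by ring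
  rw [e2]
  simp only [e1, neg_sq]

/-- the value at `T` -/
lemma KK_T (x y : ZMod p) :
    KK (SpecialLinearGroup.map (Int.castRingHom (ZMod p)) ModularGroup.T) x y =
      if y = x then ee p (x ^ 2) else 0 := by
  unfold KK kk
  have e00 : (SpecialLinearGroup.map (Int.castRingHom (ZMod p)) ModularGroup.T) 0 0 = 1 := by
    rw [SpecialLinearGroup.map_apply_coe]
    simp [ModularGroup.T]
  have e01 : (SpecialLinearGroup.map (Int.castRingHom (ZMod p)) ModularGroup.T) 0 1 = 1 := by
    rw [SpecialLinearGroup.map_apply_coe]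
    simp [ModularGroup.T]
  have e10 : (SpecialLinearGroup.map (Int.castRingHom (ZMod p)) ModularGroup.T) 1 0 = 0 := by
    rw [SpecialLinearGroup.map_apply_coe]
    simp [ModularGroup.T]
  rw [e00, e01, e10, if_pos rfl]
  simp

end Kernel

section Halves

variable {p : ℕ} [hp : Fact p.Prime]

omit hp in
lemma ne_two_of_mod (h : p % 4 = 3) : p ≠ 2 := by omega

lemma quad_neg (h : p % 4 = 3) (x : ZMod p) :
    quadraticChar (ZMod p) (-x) = - quadraticChar (ZMod p) x := by
  have hF : ringChar (ZMod p) ≠ 2 := by rw [ZMod.ringChar_zmod_n]; omega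
  have h1 : quadraticChar (ZMod p) (-1) = -1 := by
    rw [quadraticChar_neg_one hF, ZMod.card, ZMod.χ₄_nat_three_mod_four h]
  rw [neg_eq_neg_one_mul, map_mul, h1, neg_one_mul]

lemma ch_neg_one (h : p % 4 = 3) : ch p (-1) = -1 := by
  unfold ch
  rw [MulChar.ringHomComp_apply, quad_neg h, map_one]
  simp

/-- splitting of the sums -/
lemma sum_split (h : p % 4 = 3) (F : ZMod p → ℂ) :
    ∑ x, F x = F 0 + ∑ x ∈ univ.filter (fun x : ZMod p => quadraticChar (ZMod p) x = 1),
      (F x + F (-x)) := by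
  classical
  rw [sum_add_distrib]
  have h1 : ∑ x ∈ univ.filter (fun x : ZMod p => quadraticChar (ZMod p) x = 1), F (-x) =
      ∑ x ∈ univ.filter (fun x : ZMod p => quadraticChar (ZMod p) x = -1), F x := by
    refine sum_nbij' (fun x => -x) (fun x => -x) ?_ ?_ ?_ ?_ ?_
    · intro x hx
      rw [mem_filter] at hx ⊢
      exact ⟨mem_univ _, by rw [quad_neg h, hx.2]⟩
    · intro x hx
      rw [mem_filter] at hx ⊢
      exact ⟨mem_univ _, by rw [quad_neg h, hx.2, neg_neg]⟩
    · intro x _; exact neg_neg x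
    · intro x _; exact neg_neg x
    · intro x _; rfl
  rw [h1, ← add_assoc, add_comm (F 0), add_assoc]
  have h2 : F 0 = ∑ x ∈ univ.filter (fun x : ZMod p => x = 0), F x := by
    rw [sum_filter, sum_ite_eq' univ (0 : ZMod p) F, if_pos (mem_univ _)]
  rw [h2, ← sum_union, ← sum_union]
  · refine (sum_subset (subset_univ _) fun x _ hx => ?_).symm
    exfalso
    apply hx
    simp only [mem_union, mem_filter, mem_univ, true_and]
    by_cases hx0 : x = 0
    · exact Or.inr (Or.inl hx0)
    · rcases quadraticChar_dichotomy hx0 with h3 | h3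
      · exact Or.inl h3
      · exact Or.inr (Or.inr h3)
  · rw [disjoint_left]
    intro x hx hx'
    simp only [mem_union, mem_filter, mem_univ, true_and] at hx hx'
    rcases hx' with h3 | h3
    · rw [h3, MulChar.map_zero] at hx
      exact zero_ne_one hx
    · rw [h3] at hx
      norm_num at hx
  · rw [disjoint_left]
    intro x hx hx'
    simp only [mem_filter, mem_univ, true_and] at hx hx'
    rw [hx, MulChar.map_zero] at hx'
    norm_num at hx'

/-- the indices of the odd half -/
abbrev Im (p : ℕ) [Fact p.Prime] : Type := {x : ZMod p // quadraticChar (ZMod p) x = 1}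

/-- the indices of the even half -/
abbrev Ip (p : ℕ) [Fact p.Prime] : Type := {x : ZMod p // x = 0 ∨ quadraticChar (ZMod p) x = 1}

/-- the odd half -/
noncomputable def Km (g : SL(2, ZMod p)) : Matrix (Im p) (Im p) ℂ :=
  Matrix.of fun a b => KK g a b - KK g a (-b)

/-- the even half -/
noncomputable def Kp (g : SL(2, ZMod p)) : Matrix (Ip p) (Ip p) ℂ :=
  Matrix.of fun a b => if (b : ZMod p) = 0 then KK g a 0 else KK g a b + KK g a (-b)

lemma sum_Im (F : ZMod p → ℂ) : ∑ x : Im p, F x =
    ∑ x ∈ univ.filter (fun x : ZMod p => quadraticChar (ZMod p) x = 1), F x := by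
  rw [← sum_subtype_eq_sum_filter]
  refine (Finset.sum_congr ?_ fun _ _ => rfl)
  ext x; simp

lemma sum_Ip (F : ZMod p → ℂ) : ∑ x : Ip p, F x = F 0 +
    ∑ x ∈ univ.filter (fun x : ZMod p => quadraticChar (ZMod p) x = 1), F x := by
  classical
  have h1 : ∑ x : Ip p, F x =
      ∑ x ∈ univ.filter (fun x : ZMod p => x = 0 ∨ quadraticChar (ZMod p) x = 1), F x := by
    rw [← sum_subtype_eq_sum_filter]
    refine (Finset.sum_congr ?_ fun _ _ => rfl)
    ext x; simp
  rw [h1, filter_or, sum_union]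
  · rw [sum_filter, sum_ite_eq' univ (0 : ZMod p) F, if_pos (mem_univ _)]
  · rw [disjoint_left]
    intro x hx hx'
    simp only [mem_filter, mem_univ, true_and] at hx hx'
    rw [hx, MulChar.map_zero] at hx'
    norm_num at hx'

lemma Km_mul (h : p % 4 = 3) (g g' : SL(2, ZMod p)) : Km (g * g') = Km g * Km g' := by
  ext a c
  rw [Matrix.mul_apply]
  simp only [Km, Matrix.of_apply]
  set D : ZMod p → ℂ := fun b => KK g' b c - KK g' b (-c) with hD
  have hD' : ∀ b, D (-b) = - D b := by
    intro b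
    have h1 := KK_neg g' b c
    have h2 := KK_neg g' b (-c)
    rw [neg_neg] at h2
    simp only [hD]
    rw [h2, ← h1]
    ring
  have hD0 : D 0 = 0 := by
    have := hD' 0
    rw [neg_zero] at this
    linear_combination (1 / 2 : ℂ) * this
  have e1 : ∑ b : Im p, (KK g a b - KK g a (-b)) * (KK g' b c - KK g' b (-c)) =
      ∑ b : Im p, (fun b : ZMod p => KK g a b * D b + KK g a (-b) * D (-b)) b := by
    refine sum_congr rfl fun b _ => ?_
    simp only [hD']
    simp only [hD]
    ring
  refine Eq.symm (e1.trans ((sum_Im (fun b : ZMod p => KK g a b * D b + KK g a (-b) * D (-b))).trans ?_))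
  have e2 := sum_split h (fun b => KK g a b * D b)
  rw [hD0, mul_zero, zero_add] at e2
  rw [← e2, ← KK_mul (ne_two_of_mod h), ← KK_mul (ne_two_of_mod h), ← sum_sub_distrib]
  refine sum_congr rfl fun b _ => ?_
  simp only [hD]
  ring

lemma Kp_mul (h : p % 4 = 3) (g g' : SL(2, ZMod p)) : Kp (g * g') = Kp g * Kp g' := by
  ext a c
  rw [Matrix.mul_apply]
  simp only [Kp, Matrix.of_apply]
  set D : ZMod p → ℂ := fun b =>
    if (c : ZMod p) = 0 then KK g' b 0 else KK g' b c + KK g' b (-c) with hD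
  have hD' : ∀ b, D (-b) = D b := by
    intro b
    have h1 := KK_neg g' b c
    have h2 := KK_neg g' b (-c)
    have h3 := KK_neg g' b 0
    rw [neg_neg] at h2
    rw [neg_zero] at h3
    simp only [hD]
    split_ifs
    · exact h3
    · rw [h2, ← h1]
      ring
  have e1 : ∑ b : Ip p, (if (b : ZMod p) = 0 then KK g a 0 else KK g a b + KK g a (-b)) * D b =
      ∑ b : Ip p, (fun b : ZMod p => if b = 0 then KK g a 0 * D 0 else
        KK g a b * D b + KK g a (-b) * D (-b)) b := by
    refine sum_congr rfl fun b _ => ?_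
    simp only [hD']
    split_ifs with hb
    · rw [hb]
    · ring
  have e0 : ∑ b : Ip p, (if (b : ZMod p) = 0 then KK g a 0 else KK g a b + KK g a (-b)) *
      (if (c : ZMod p) = 0 then KK g' b 0 else KK g' b c + KK g' b (-c)) =
      ∑ b : Ip p, (if (b : ZMod p) = 0 then KK g a 0 else KK g a b + KK g a (-b)) * D b := rfl
  refine Eq.symm (e0.trans (e1.trans ((sum_Ip (fun b : ZMod p => if b = 0 then KK g a 0 * D 0 else
        KK g a b * D b + KK g a (-b) * D (-b))).trans ?_)))
  have e2 := sum_split h (fun b => KK g a b * D b)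
  have e3 : ∑ x ∈ univ.filter (fun x : ZMod p => quadraticChar (ZMod p) x = 1),
      (if x = 0 then KK g a 0 * D 0 else KK g a x * D x + KK g a (-x) * D (-x)) =
      ∑ x ∈ univ.filter (fun x : ZMod p => quadraticChar (ZMod p) x = 1),
      (KK g a x * D x + KK g a (-x) * D (-x)) := by
    refine sum_congr rfl fun x hx => ?_
    rw [if_neg]
    rintro rfl
    rw [mem_filter, MulChar.map_zero] at hx
    norm_num at hx
  rw [if_pos rfl, e3, ← e2]
  split_ifs with hc
  · rw [← KK_mul (ne_two_of_mod h)]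
    refine sum_congr rfl fun b _ => ?_
    simp only [hD, if_pos hc]
  · rw [← KK_mul (ne_two_of_mod h), ← KK_mul (ne_two_of_mod h), ← sum_add_distrib]
    refine sum_congr rfl fun b _ => ?_
    simp only [hD, if_neg hc]
    ring

lemma im_ne (h : p % 4 = 3) (a b : Im p) : -(b : ZMod p) ≠ a := by
  intro hab
  have h1 := quad_neg h (b : ZMod p)
  rw [hab, a.2, b.2] at h1
  norm_num at h1

lemma Km_one (h : p % 4 = 3) : Km (1 : SL(2, ZMod p)) = 1 := by
  ext a b
  simp only [Km, Matrix.of_apply, KK_one, if_neg (im_ne h a b), sub_zero, Matrix.one_apply,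
    Subtype.ext_iff, eq_comm (a := (b : ZMod p))]

lemma Km_neg_one (h : p % 4 = 3) : Km (-1 : SL(2, ZMod p)) = 1 := by
  ext a b
  have e1 : ¬ (b : ZMod p) = - a := fun hh => im_ne h b a hh.symm
  have e2 : (-(b : ZMod p) = - a) ↔ a = b := by
    rw [neg_inj, Subtype.ext_iff, eq_comm]
  simp only [Km, Matrix.of_apply]
  rw [KK_neg_one, KK_neg_one, if_neg e1, Matrix.one_apply, ch_neg_one h]
  by_cases hab : a = b
  · rw [if_pos (e2.mpr hab), if_pos hab]; norm_num
  · rw [if_neg (fun hh => hab (e2.mp hh)), if_neg hab]; norm_num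

lemma Km_T (h : p % 4 = 3) :
    Km (SpecialLinearGroup.map (Int.castRingHom (ZMod p)) ModularGroup.T) =
      diagonal (fun a : Im p => ee p ((a : ZMod p) ^ 2)) := by
  ext a b
  simp only [Km, Matrix.of_apply, KK_T, if_neg (im_ne h a b), sub_zero, Matrix.diagonal_apply,
    Subtype.ext_iff, eq_comm (a := (b : ZMod p))]

end Halves

end Pool.Agent.Q59.MC
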