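import Pool.Agent.Q59.MC.Base

/-!
# The basic congruence representations
-/

namespace Pool.Agent.Q59.MC

open Finset Matrix MatrixGroups

section Halves

variable {p : ℕ} [hp : Fact p.Prime]

lemma ip_ne (h : p % 4 = 3) (a b : Ip p) (hb : (b : ZMod p) ≠ 0) : -(b : ZMod p) ≠ a := by
  intro hab
  have h1 := quad_neg h (b : ZMod p)
  have hb' := b.2.resolve_left hb
  rw [hab, hb'] at h1
  rcases a.2 with h2 | h2
  · rw [h2, neg_eq_zero] at hab
    exact hb hab
  · rw [h2] at h1
    norm_num at h1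

lemma Kp_one (h : p % 4 = 3) : Kp (1 : SL(2, ZMod p)) = 1 := by
  ext a b
  simp only [Kp, Matrix.of_apply, KK_one, Matrix.one_apply, Subtype.ext_iff]
  by_cases hb : (b : ZMod p) = 0
  · rw [if_pos hb, hb]
    simp only [eq_comm (a := (0 : ZMod p))]
  · rw [if_neg hb, if_neg (ip_ne h a b hb), add_zero]
    simp only [eq_comm (a := (b : ZMod p))]

lemma Kp_neg_one (h : p % 4 = 3) : Kp (-1 : SL(2, ZMod p)) = (-1 : ℂ) • 1 := by
  ext a b
  rw [Matrix.smul_apply, Matrix.one_apply]
  simp only [Kp, Matrix.of_apply]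
  rw [KK_neg_one, KK_neg_one, KK_neg_one, ch_neg_one h]
  have e2 : (-(b : ZMod p) = - a) ↔ a = b := by
    rw [neg_inj, Subtype.ext_iff, eq_comm]
  by_cases hb : (b : ZMod p) = 0
  · rw [if_pos hb]
    have e3 : ((0 : ZMod p) = - a) ↔ a = b := by
      rw [← e2, hb, neg_zero]
    by_cases hab : a = b
    · rw [if_pos (e3.mpr hab), if_pos hab]; simp
    · rw [if_neg (fun hh => hab (e3.mp hh)), if_neg hab]; simp
  · have e1 : ¬ (b : ZMod p) = - a := by
      intro hh
      apply ip_ne h a b hb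
      rw [hh, neg_neg]
    rw [if_neg hb, if_neg e1, zero_add]
    by_cases hab : a = b
    · rw [if_pos (e2.mpr hab), if_pos hab]; simp
    · rw [if_neg (fun hh => hab (e2.mp hh)), if_neg hab]; simp

lemma Kp_T (h : p % 4 = 3) :
    Kp (SpecialLinearGroup.map (Int.castRingHom (ZMod p)) ModularGroup.T) =
      diagonal (fun a : Ip p => ee p ((a : ZMod p) ^ 2)) := by
  ext a b
  simp only [Kp, Matrix.of_apply, KK_T, Matrix.diagonal_apply, Subtype.ext_iff]
  by_cases hb : (b : ZMod p) = 0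
  · rw [if_pos hb, hb]
    simp only [eq_comm (a := (0 : ZMod p))]
  · rw [if_neg hb, if_neg (ip_ne h a b hb), add_zero]
    simp only [eq_comm (a := (b : ZMod p))]

lemma map_neg_one : SpecialLinearGroup.map (Int.castRingHom (ZMod p)) (-1 : SL(2, ℤ)) = -1 := by
  ext i j
  rw [SpecialLinearGroup.map_apply_coe]
  fin_cases i <;> fin_cases j <;> simp

/-- the odd half as a representation of `SL_2(ℤ)` -/
noncomputable def rm (h : p % 4 = 3) : SL(2, ℤ) →* Matrix (Im p) (Im p) ℂ where
  toFun γ := Km (SpecialLinearGroup.map (Int.castRingHom (ZMod p)) γ)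
  map_one' := by rw [map_one, Km_one h]
  map_mul' x y := by rw [map_mul, Km_mul h]

/-- the even half as a representation of `SL_2(ℤ)` -/
noncomputable def rp (h : p % 4 = 3) : SL(2, ℤ) →* Matrix (Ip p) (Ip p) ℂ where
  toFun γ := Kp (SpecialLinearGroup.map (Int.castRingHom (ZMod p)) γ)
  map_one' := by rw [map_one, Kp_one h]
  map_mul' x y := by rw [map_mul, Kp_mul h]

lemma sgn_eq (h : p % 4 = 3) (a : ℕ) : sgn p a = quadraticChar (ZMod p) (a : ZMod p) := by
  unfold sgn
  have h4 : p ≠ 4 := by omega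
  rw [if_neg h4, ← jacobiSym.legendreSym.to_jacobiSym]
  unfold legendreSym
  push_cast
  rfl

lemma sq_inj (h : p % 4 = 3) {a b : ZMod p} (ha : a = 0 ∨ quadraticChar (ZMod p) a = 1)
    (hb : b = 0 ∨ quadraticChar (ZMod p) b = 1) (hab : a ^ 2 = b ^ 2) : a = b := by
  rcases sq_eq_sq_iff_eq_or_eq_neg.mp hab with h1 | h1
  · exact h1
  · rcases hb with hb | hb
    · rw [h1, hb, neg_zero]
    · rcases ha with ha | ha
      · rw [ha, zero_eq_neg] at h1
        rw [ha, h1]
      · rw [h1, quad_neg h, hb] at ha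
        norm_num at ha

lemma exists_root (h : p % 4 = 3) {c : ZMod p} (hc : quadraticChar (ZMod p) c = 1) :
    ∃ a : ZMod p, quadraticChar (ZMod p) a = 1 ∧ a ^ 2 = c := by
  have hc0 : c ≠ 0 := by
    rintro rfl
    rw [MulChar.map_zero] at hc
    norm_num at hc
  obtain ⟨d, hd⟩ := (quadraticChar_one_iff_isSquare hc0).mp hc
  have hd0 : d ≠ 0 := by
    rintro rfl
    apply hc0
    rw [hd, mul_zero]
  rcases quadraticChar_dichotomy hd0 with h1 | h1
  · exact ⟨d, h1, by rw [hd, sq]⟩
  · refine ⟨-d, by rw [quad_neg h, h1, neg_neg], by rw [hd]; ring⟩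

variable {m : ℕ} [NeZero m]

lemma em_val (hpm : p ∣ m) (x : ZMod p) : em m (((m / p * x.val : ℕ) : ZMod m)) = ee p x := by
  have : NeZero p := ⟨hp.out.ne_zero⟩
  rw [em_level hpm, em_eq]
  unfold ee
  rw [ZMod.natCast_zmod_val]

omit [NeZero m] in
lemma map_univ_Im (h : p % 4 = 3) :
    (univ : Finset (Im p)).val.map (fun a : Im p => ((m / p * ((a : ZMod p) ^ 2).val : ℕ) : ZMod m)) =
      PE m p 1 := by
  classical
  have : NeZero p := ⟨hp.out.ne_zero⟩
  unfold PE
  have h1 : RS p 1 = (univ : Finset (Im p)).image fun a : Im p => ((a : ZMod p) ^ 2).val := by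
    ext c
    unfold RS
    rw [mem_filter, mem_range, mem_image, sgn_eq h]
    constructor
    · rintro ⟨hc, hc'⟩
      obtain ⟨a, ha, ha'⟩ := exists_root h (by exact_mod_cast hc')
      refine ⟨⟨a, ha⟩, mem_univ _, ?_⟩
      simp only
      rw [ha', ZMod.val_natCast, Nat.mod_eq_of_lt hc]
    · rintro ⟨a, _, rfl⟩
      refine ⟨ZMod.val_lt _, ?_⟩
      rw [ZMod.natCast_zmod_val, map_pow, a.2]
      simp
  rw [h1, image_val_of_injOn, Multiset.map_map]
  · rfl
  · intro a _ b _ hab
    have h2 := ZMod.val_injective p hab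
    exact Subtype.ext (sq_inj h (Or.inr a.2) (Or.inr b.2) h2)

theorem crep_odd (h : p % 4 = 3) (hpm : p ∣ m) : CRep m 1 (PE m p 1) := by
  refine ⟨p, Im p, inferInstance, inferInstance, rm h,
    fun a => ((m / p * ((a : ZMod p) ^ 2).val : ℕ) : ZMod m), hp.out.pos, ?_, ?_, ?_,
    (map_univ_Im h).symm⟩
  · intro γ hγ
    change Km (SpecialLinearGroup.map (Int.castRingHom (ZMod p)) γ) = 1
    have : SpecialLinearGroup.map (Int.castRingHom (ZMod p)) γ = 1 := hγ
    rw [this, Km_one h]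
  · change Km (SpecialLinearGroup.map (Int.castRingHom (ZMod p)) (-1)) = _
    rw [map_neg_one, Km_neg_one h, one_smul]
  · change Km (SpecialLinearGroup.map (Int.castRingHom (ZMod p)) ModularGroup.T) = _
    rw [Km_T h]
    congr 1
    funext a
    rw [em_val hpm]

omit [NeZero m] in
lemma map_univ_Ip (h : p % 4 = 3) :
    (univ : Finset (Ip p)).val.map (fun a : Ip p => ((m / p * ((a : ZMod p) ^ 2).val : ℕ) : ZMod m)) =
      0 ::ₘ PE m p 1 := by
  classical
  have : NeZero p := ⟨hp.out.ne_zero⟩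
  unfold PE
  have h0 : (0 : ℕ) ∉ RS p 1 := by
    unfold RS
    rw [mem_filter, mem_range, sgn_eq h]
    rintro ⟨_, h1⟩
    rw [Nat.cast_zero, MulChar.map_zero] at h1
    norm_num at h1
  have h1 : insert 0 (RS p 1) = (univ : Finset (Ip p)).image fun a : Ip p => ((a : ZMod p) ^ 2).val := by
    ext c
    unfold RS
    rw [mem_insert, mem_filter, mem_range, mem_image, sgn_eq h]
    constructor
    · rintro (rfl | ⟨hc, hc'⟩)
      · exact ⟨⟨0, Or.inl rfl⟩, mem_univ _, by simp⟩
      · obtain ⟨a, ha, ha'⟩ := exists_root h (by exact_mod_cast hc')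
        refine ⟨⟨a, Or.inr ha⟩, mem_univ _, ?_⟩
        simp only
        rw [ha', ZMod.val_natCast, Nat.mod_eq_of_lt hc]
    · rintro ⟨a, _, rfl⟩
      rcases a.2 with ha | ha
      · left
        rw [ha]
        simp
      · right
        refine ⟨ZMod.val_lt _, ?_⟩
        rw [ZMod.natCast_zmod_val, map_pow, ha]
        simp
  have h2 : (0 : ZMod m) ::ₘ (RS p 1).val.map (fun a => ((m / p * a : ℕ) : ZMod m)) =
      (insert 0 (RS p 1)).val.map (fun a => ((m / p * a : ℕ) : ZMod m)) := by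
    rw [insert_val_of_notMem h0, Multiset.map_cons]
    simp
  rw [h2, h1, image_val_of_injOn, Multiset.map_map]
  · rfl
  · intro a _ b _ hab
    have h2 := ZMod.val_injective p hab
    exact Subtype.ext (sq_inj h a.2 b.2 h2)

theorem crep_even (h : p % 4 = 3) (hpm : p ∣ m) : CRep m (-1) (0 ::ₘ PE m p 1) := by
  refine ⟨p, Ip p, inferInstance, inferInstance, rp h,
    fun a => ((m / p * ((a : ZMod p) ^ 2).val : ℕ) : ZMod m), hp.out.pos, ?_, ?_, ?_,
    (map_univ_Ip h).symm⟩
  · intro γ hγ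
    change Kp (SpecialLinearGroup.map (Int.castRingHom (ZMod p)) γ) = 1
    have : SpecialLinearGroup.map (Int.castRingHom (ZMod p)) γ = 1 := hγ
    rw [this, Kp_one h]
  · change Kp (SpecialLinearGroup.map (Int.castRingHom (ZMod p)) (-1)) = _
    rw [map_neg_one, Kp_neg_one h]
  · change Kp (SpecialLinearGroup.map (Int.castRingHom (ZMod p)) ModularGroup.T) = _
    rw [Kp_T h]
    congr 1
    funext a
    rw [em_val hpm]

end Halves

end Pool.Agent.Q59.MC
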