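import Pool.Agent.Q59.MC.Peel

/-!
# The main theorems with the modular characters
-/

namespace Pool.Agent.Q59.MC

open Finset Pool.Agent.H916R2 Pool.Agent.Q59.RL Pool.Agent.Q59.FS Pool.Agent.Q59.PL
  Pool.Agent.Q59.S6 Pool.Agent.Y2.Cv
open Pool.Agent.Q59.SX (sum_level rel_level)

section Lift

variable {m M k : ℕ} [NeZero m] [NeZero M]

lemma cusp_iota (h : k * M = m) {t : Multiset (ZMod M)} (ht : CuspExponents M t) :
    CuspExponents m (t.map (iota k : ZMod M → ZMod m)) := by
  obtain ⟨N, d, ρ, hN, h1, h2, h3⟩ := ht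
  refine ⟨N, d, ρ, hN, h1, h2, ?_⟩
  rw [h3, Multiset.map_map]
  congr 1
  refine Multiset.map_congr rfl fun a _ => ?_
  simp only [Function.comp_apply]
  have hk : k ≠ 0 := by
    rintro rfl
    rw [zero_mul] at h
    exact NeZero.ne m h.symm
  have hM : M ≠ 0 := NeZero.ne M
  have hv : (iota k a : ZMod m).val = k * a.val := by
    unfold iota
    rw [ZMod.val_natCast, Nat.mod_eq_of_lt]
    rw [← h]
    exact Nat.mul_lt_mul_of_pos_left (ZMod.val_lt a) (Nat.pos_of_ne_zero hk)
  have e : (2 * Real.pi * Complex.I * ((iota k a : ZMod m).val : ℂ) / (m : ℂ)) =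
      2 * Real.pi * Complex.I * (a.val : ℂ) / (M : ℂ) := by
    rw [hv, ← h]
    push_cast
    have hkC : (k : ℂ) ≠ 0 := by exact_mod_cast hk
    have hMC : (M : ℂ) ≠ 0 := by exact_mod_cast hM
    field_simp
  rw [e]

lemma modular_iota (h : k * M = m) {u : Multiset (ZMod M)} (hu : ModularCharacter M u) :
    ModularCharacter m (u.map (iota k : ZMod M → ZMod m)) := by
  obtain ⟨h1, t, w, h2, h3, rfl⟩ := hu
  refine ⟨h1.iota h, t.map (iota k), w.map (iota k), cusp_iota h h2, ?_, ?_⟩
  · intro a ha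
    obtain ⟨b, hb, rfl⟩ := Multiset.mem_map.mp ha
    have h4 := h3 b hb
    have e : ((12 : ℕ) : ZMod m) * iota k b = iota k (((12 : ℕ) : ZMod M) * b) :=
      (iota_natMul h _ _).symm
    have e' : ((12 : ℕ) : ZMod M) * b = 0 := by exact_mod_cast h4
    rw [e', iota_zero] at e
    exact_mod_cast e
  · rw [Multiset.map_add, Multiset.filter_map]
    congr 2
    refine Multiset.filter_congr fun a _ => ?_
    simp only [Function.comp_apply]
    constructor
    · intro ha h0
      exact ha (iota_eq_zero h h0)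
    · rintro ha rfl
      exact ha iota_zero

variable {Q : Type} [AddCommGroup Q]

lemma hbm_level {C : ZMod m → Q} (h : k * M = m)
    (hb : ∀ s, ModularCharacter m s → (s.map C).sum = 0) :
    ∀ u, ModularCharacter M u → (u.map (fun b : ZMod M => C (iota k b))).sum = 0 := by
  intro u hu
  have h2 := hb _ (modular_iota h hu)
  rw [Multiset.map_map] at h2
  exact h2

/-- **All relations are killed.** -/
theorem kill_modular (hM : ∀ p : ℕ, p.Prime → p ∣ M → p % 4 ≠ 1) {C : ZMod M → Q} (hC : OddDist C)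
    (hb : ∀ s, ModularCharacter M s → (s.map C).sum = 0) {x : ZMod M → ℤ} (hx : Rel x) :
    ∑ a, x a • C a = 0 := by
  classical
  have hT := Pool.Agent.Q129.MC.det M _ C hC ?_ M
  · have hmem : ∑ a, x a • C a ∈ TD C M := by
      refine ⟨x, hx, fun a _ => ?_, rfl⟩
      have := addOrderOf_dvd_card (x := a)
      rw [ZMod.card] at this
      exact Nat.le_of_dvd (NeZero.pos M) this
    rwa [hT, AddSubgroup.mem_bot] at hmem
  · intro d hd
    obtain ⟨s', hs', hord, hodd⟩ := exists_modular hd hM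
    refine ⟨fun a => ((s'.count a : ℕ) : ℤ), hs'.1.rel, ?_, ?_, ?_⟩
    · intro a ha
      by_contra hcon
      apply ha
      have h1 : s'.count a = 0 := Multiset.count_eq_zero.mpr fun h => hcon (hord a h)
      have h2 : s'.count (-a) = 0 := Multiset.count_eq_zero.mpr fun h => hcon (by
        have := hord (-a) h
        rwa [addOrderOf_neg] at this)
      unfold od
      beta_reduce
      rw [h1, h2, sub_self]
    · rw [sum_count]
      exact hb s' hs'
    · have h1 : ∑ a ∈ univ.filter (fun a : ZMod M => addOrderOf a = d), ((s'.count a : ℕ) : ℤ) =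
          (Multiset.card (s'.filter fun a => addOrderOf a = d) : ℤ) := by
        rw [← Nat.cast_sum]
        congr 1
        rw [← Multiset.toFinset_sum_count_eq (s'.filter fun a => addOrderOf a = d)]
        refine (sum_subset_zero_on_sdiff ?_ ?_ ?_).symm
        · intro a ha
          rw [Multiset.mem_toFinset] at ha
          rw [mem_filter]
          exact ⟨mem_univ _, (Multiset.mem_filter.mp ha).2⟩
        · intro a ha
          rw [mem_sdiff, mem_filter, Multiset.mem_toFinset, Multiset.mem_filter] at ha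
          exact Multiset.count_eq_zero.mpr fun h => ha.2 ⟨h, ha.1.2⟩
        · intro a ha
          rw [Multiset.mem_toFinset] at ha
          exact Multiset.count_filter_of_pos (Multiset.mem_filter.mp ha).2
      rw [h1]
      exact_mod_cast hodd

/-- relations of a level without primes congruent to one -/
theorem kill_mod_od (h : k * M = m) (hM : ∀ p : ℕ, p.Prime → p ∣ M → p % 4 ≠ 1)
    {C : ZMod m → Q} (hC : OddDist C) (hb : ∀ s, ModularCharacter m s → (s.map C).sum = 0)
    {x : ZMod m → ℤ} (hz : ∀ a, od x a ≠ 0 → addOrderOf a ∣ M) (hR : Rel x) :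
    ∑ a, x a • C a = 0 := by
  have hodx : ∀ a, od x a = od (posP (od x)) a := fun a => by
    have : posP (od x) a - posP (od x) (-a) = od x a := posP_sub (od_neg x a)
    exact this.symm
  have hkill : ∀ (Q : Type) [AddCommGroup Q] (c : ZMod m → Q), OddDist c →
      ∑ a, posP (od x) a • c a = ∑ a, x a • c a := fun Q _ c hc => (od_kill hodx hc).symm
  rw [← hkill Q C hC]
  have hz' : ∀ a, posP (od x) a ≠ 0 → addOrderOf a ∣ M := fun a ha => hz a fun h0 => ha (by
    unfold posP
    rw [h0]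
    rfl)
  rw [sum_level h hz']
  exact kill_modular hM (hC.comp_iota h) (hbm_level h hb)
    (rel_level h hz' (rel_of_eq hR hkill))

/-- relations of a small level -/
theorem kill_small_od (h : k * M = m) (hM2 : 2 ∣ M)
    (hM : GoodDegree2 M ∨ ∀ p : ℕ, p.Prime → p ∣ M → p % 4 ≠ 1) {C : ZMod m → Q} (hC : OddDist C)
    (hb : ∀ s, SurfaceOrCurveProduct m s → (s.map C).sum = 0)
    (hbm : ∀ s, ModularCharacter m s → (s.map C).sum = 0)
    {x : ZMod m → ℤ} (hz : ∀ a, od x a ≠ 0 → addOrderOf a ∣ M) (hR : Rel x) :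
    ∑ a, x a • C a = 0 := by
  rcases hM with hM | hM
  · exact kill_good_od h hM2 hM hC hb hz hR
  · exact kill_mod_od h hM hC hbm hz hR

end Lift

section PeelOdd

variable {m : ℕ} [NeZero m] {Q : Type} [AddCommGroup Q] {C : ZMod m → Q}

/-- the condition on the weight for the prime `q` -/
def CdM (C : ZMod m → Q) (q : ℕ) (N : ℤ) : Prop :=
  N < (q : ℤ) - 1 ∨ (¬ 4 ∣ m ∧ N < 2 * ((q : ℤ) - 1) ∧
    (¬ 3 ∣ m ∨ ∃ T : ZMod m → ℤ, Ex m q 3 3 T ∧ ∑ a, T a • C a = 0))

lemma CdM.mono {q : ℕ} {N N' : ℤ} (h : CdM C q N) (hN : N' ≤ N) : CdM C q N' := by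
  rcases h with h | ⟨h1, h2, h3⟩
  · exact Or.inl (by linarith)
  · exact Or.inr ⟨h1, by linarith, h3⟩

/-- one prime -/
theorem peel_oneM (hC : OddDist C) {q : ℕ} (hq : q.Prime) (hq5 : 5 ≤ q) {x : ZMod m → ℤ}
    (hx : Rel x) (hc : CdM C q (nq q x)) : ∃ y, Rel y ∧ ∑ a, x a • C a = ∑ a, y a • C a ∧
      (∀ a, q ∣ addOrderOf a → od y a = 0) ∧ Dom y x := by
  have hq2 : q ≠ 2 := by omega
  rcases hc with hc | ⟨h4, hc, h3 | h3⟩
  · obtain ⟨y, h1, h2, h3⟩ := peel_simple hq hq2 hx hc
    exact ⟨y, h1.rel hx, (sum_eqv hC h1).symm, h3, Dom.of_off h2 h3⟩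
  · obtain ⟨y, h1, h2, h3⟩ := peel_no_three h4 h3 hq hq2 hx hc
    exact ⟨y, h1.rel hx, (sum_eqv hC h1).symm, h3, Dom.of_off h2 h3⟩
  · obtain ⟨T, hT, hT4⟩ := h3
    have hT1 := hT.rel
    have hT2 := hT.supp
    have hT3 := hT.key
    obtain ⟨v, -, -, y, h1, h2, h5⟩ := peel_three h4 hq hq5 hx hc hT1 hT2 hT3
    have hrel : Rel (fun a => x a - v * T a) := by
      intro t
      have e : ∑ a, (x a - v * T a) * saw ((t : ZMod m) * a) =
          ∑ a, x a * saw ((t : ZMod m) * a) - v * ∑ a, T a * saw ((t : ZMod m) * a) := by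
        rw [mul_sum, ← sum_sub_distrib]
        exact sum_congr rfl fun a _ => by ring
      change ∑ a, (x a - v * T a) * saw ((t : ZMod m) * a) = 0
      rw [e, hx t, hT1 t]; ring
    refine ⟨y, h1.rel hrel, ?_, h5, ?_⟩
    · rw [sum_eqv hC h1]
      simp only [sub_smul, sum_sub_distrib, mul_smul]
      rw [← smul_sum, hT4, smul_zero, sub_zero]
    · intro p hp hp3 a ha
      by_cases hqa : q ∣ addOrderOf a
      · rw [h5 a hqa, abs_zero]; exact abs_nonneg _
      · have h6 : od T a = 0 := by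
          by_contra h0
          have h7 := hT2 a h0
          rcases hp.dvd_mul.mp (ha.trans h7) with h8 | h8
          · exact hp3 ((Nat.prime_dvd_prime_iff_eq hp Nat.prime_three).mp h8)
          · rw [← (Nat.prime_dvd_prime_iff_eq hp hq).mp h8] at hqa
            exact hqa ha
        rw [h2 a hqa, h6, mul_zero, sub_zero]

/-- several primes -/
theorem peel_listM (hC : OddDist C) : ∀ L : List ℕ, (∀ q ∈ L, q.Prime ∧ 5 ≤ q) → ∀ x : ZMod m → ℤ, Rel x →
      (∀ q ∈ L, CdM C q (nq q x)) → ∃ y, Rel y ∧ ∑ a, x a • C a = ∑ a, y a • C a ∧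
        (∀ q ∈ L, ∀ a, q ∣ addOrderOf a → od y a = 0) ∧ Dom y x := by
  intro L
  induction L with
  | nil => exact fun _ x hx _ => ⟨x, hx, rfl, fun q hq => absurd hq List.not_mem_nil,
      fun _ _ _ _ _ => le_rfl⟩
  | cons q L ih =>
    intro hL x hx hc
    obtain ⟨hq, hq5⟩ := hL q (List.mem_cons_self ..)
    obtain ⟨y, hy, hxy, hy0, hd⟩ := peel_oneM hC hq hq5 hx (hc q (List.mem_cons_self ..))
    obtain ⟨z, hz, hyz, hz0, hd'⟩ := ih (fun p hp => hL p (List.mem_cons_of_mem _ hp)) y hy
      (fun p hp => (hc p (List.mem_cons_of_mem _ hp)).mono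
        (hd.nq_le (hL p (List.mem_cons_of_mem _ hp)).1 (by
          have := (hL p (List.mem_cons_of_mem _ hp)).2
          omega)))
    refine ⟨z, hz, hxy.trans hyz, fun p hp a ha => ?_, hd'.trans hd⟩
    rcases List.mem_cons.mp hp with rfl | hp
    · have h1 := hd' p hq (by omega) a ha
      rw [hy0 a ha, abs_zero] at h1
      exact abs_nonpos_iff.mp h1
    · exact hz0 p hp a ha

end PeelOdd

end Pool.Agent.Q59.MC
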