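import Pool.Agent.Q59.MC.Base2

/-!
# The character of `SL_2(ℤ)` of order four
-/

namespace Pool.Agent.Q59.MC

open Finset Matrix MatrixGroups

section Four

/-- the exponent of the character of order four -/
def phi (a b c d : ZMod 4) : ZMod 4 :=
  (1 - c ^ 2) * (b * d + 3 * (c - 1) * d + c + 3) + c * (a + d - 3)

lemma phi_mul : ∀ a b c d a' b' c' d' : ZMod 4, a * d - b * c = 1 → a' * d' - b' * c' = 1 →
    phi (a * a' + b * c') (a * b' + b * d') (c * a' + d * c') (c * b' + d * d') =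
      phi a b c d + phi a' b' c' d' := by
  decide +kernel

/-- the character of order four -/
noncomputable def r4 : SL(2, ℤ) →* Matrix (Fin 1) (Fin 1) ℂ where
  toFun γ := diagonal fun _ => em 4 (phi (γ 0 0) (γ 0 1) (γ 1 0) (γ 1 1))
  map_one' := by
    have e : phi (((1 : SL(2, ℤ)) 0 0 : ℤ) : ZMod 4) (((1 : SL(2, ℤ)) 0 1 : ℤ) : ZMod 4)
        (((1 : SL(2, ℤ)) 1 0 : ℤ) : ZMod 4) (((1 : SL(2, ℤ)) 1 1 : ℤ) : ZMod 4) = 0 := by
      simp [phi]
    rw [e, em_zero, diagonal_one]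
  map_mul' x y := by
    have e00 : (x * y) 0 0 = x 0 0 * y 0 0 + x 0 1 * y 1 0 := by
      simp [Matrix.mul_apply, Fin.sum_univ_two]
    have e01 : (x * y) 0 1 = x 0 0 * y 0 1 + x 0 1 * y 1 1 := by
      simp [Matrix.mul_apply, Fin.sum_univ_two]
    have e10 : (x * y) 1 0 = x 1 0 * y 0 0 + x 1 1 * y 1 0 := by
      simp [Matrix.mul_apply, Fin.sum_univ_two]
    have e11 : (x * y) 1 1 = x 1 0 * y 0 1 + x 1 1 * y 1 1 := by
      simp [Matrix.mul_apply, Fin.sum_univ_two]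
    have dx : ((x 0 0 : ℤ) : ZMod 4) * (x 1 1 : ℤ) - (x 0 1 : ℤ) * (x 1 0 : ℤ) = 1 := by
      have := x.det_coe
      rw [Matrix.det_fin_two] at this
      exact_mod_cast congrArg (fun z : ℤ => (z : ZMod 4)) this
    have dy : ((y 0 0 : ℤ) : ZMod 4) * (y 1 1 : ℤ) - (y 0 1 : ℤ) * (y 1 0 : ℤ) = 1 := by
      have := y.det_coe
      rw [Matrix.det_fin_two] at this
      exact_mod_cast congrArg (fun z : ℤ => (z : ZMod 4)) this
    rw [diagonal_mul_diagonal, e00, e01, e10, e11]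
    push_cast
    rw [phi_mul _ _ _ _ _ _ _ _ dx dy]
    congr 1
    funext _
    exact em_add _ _

variable {m : ℕ} [NeZero m]

omit [NeZero m] in
lemma PE_four : PE m 4 1 = {((m / 4 : ℕ) : ZMod m)} := by
  unfold PE
  have h : RS 4 1 = {1} := by decide
  rw [h]
  simp

theorem crep_four (h4 : 4 ∣ m) : CRep m (-1) (PE m 4 1) := by
  refine ⟨4, Fin 1, inferInstance, inferInstance, r4, fun _ => ((m / 4 * 1 : ℕ) : ZMod m),
    by norm_num, ?_, ?_, ?_, ?_⟩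
  · intro γ hγ
    rw [CongruenceSubgroup.Gamma_mem] at hγ
    obtain ⟨h1, h2, h3, h4⟩ := hγ
    change diagonal (fun _ => em 4 (phi (γ 0 0) (γ 0 1) (γ 1 0) (γ 1 1))) = _
    have e : phi ((γ 0 0 : ℤ) : ZMod 4) ((γ 0 1 : ℤ) : ZMod 4) ((γ 1 0 : ℤ) : ZMod 4)
        ((γ 1 1 : ℤ) : ZMod 4) = 0 := by
      rw [h1, h2, h3, h4]
      decide
    rw [e, em_zero, diagonal_one]
  · change diagonal (fun _ => em 4 (phi (((-1 : SL(2, ℤ)) 0 0 : ℤ) : ZMod 4)
      (((-1 : SL(2, ℤ)) 0 1 : ℤ) : ZMod 4) (((-1 : SL(2, ℤ)) 1 0 : ℤ) : ZMod 4)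
      (((-1 : SL(2, ℤ)) 1 1 : ℤ) : ZMod 4))) = _
    have e : phi (((-1 : SL(2, ℤ)) 0 0 : ℤ) : ZMod 4) (((-1 : SL(2, ℤ)) 0 1 : ℤ) : ZMod 4)
        (((-1 : SL(2, ℤ)) 1 0 : ℤ) : ZMod 4) (((-1 : SL(2, ℤ)) 1 1 : ℤ) : ZMod 4) = 2 := by
      simp [phi]
      decide
    have e2 : em 4 (2 : ZMod 4) = -1 := by
      unfold em
      have hv : ((2 : ZMod 4)).val = 2 := by decide
      rw [hv]
      have : 2 * (Real.pi : ℂ) * Complex.I * ((2 : ℕ) : ℂ) / ((4 : ℕ) : ℂ) = Real.pi * Complex.I := by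
        push_cast; ring
      rw [this, Complex.exp_pi_mul_I]
    rw [e, e2]
    ext i j
    simp [Matrix.diagonal_apply, Matrix.one_apply]
  · change diagonal (fun _ => em 4 (phi ((ModularGroup.T 0 0 : ℤ) : ZMod 4)
      ((ModularGroup.T 0 1 : ℤ) : ZMod 4) ((ModularGroup.T 1 0 : ℤ) : ZMod 4)
      ((ModularGroup.T 1 1 : ℤ) : ZMod 4))) = _
    have e : phi ((ModularGroup.T 0 0 : ℤ) : ZMod 4) ((ModularGroup.T 0 1 : ℤ) : ZMod 4)
        ((ModularGroup.T 1 0 : ℤ) : ZMod 4) ((ModularGroup.T 1 1 : ℤ) : ZMod 4) = ((1 : ℕ) : ZMod 4) := by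
      simp [ModularGroup.T, phi]
    rw [e]
    congr 1
    funext _
    exact (em_level h4 1).symm
  · rw [PE_four]
    simp

end Four

end Pool.Agent.Q59.MC
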