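import Pool.Agent.Q59.MC.Weil

/-!
# The Weil representation of `SL_2` over a prime field
-/

namespace Pool.Agent.Q59.MC

open Finset Matrix

section Kernel

variable (p : ℕ) [hp : Fact p.Prime]

/-- the kernel, as a function of the four entries -/
noncomputable def kk (a b c d : ZMod p) (x y : ZMod p) : ℂ :=
  if c = 0 then (if y = a * x then ch p a * ee p (a * b * x ^ 2) else 0)
  else ch p c * (gs p)⁻¹ * ee p ((a * x ^ 2 - 2 * x * y + d * y ^ 2) / c)

variable {p}

lemma kk_mul_zero_zero {a b d a' b' d' : ZMod p} (h1' : a' * d' = 1)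
    (x z : ZMod p) :
    ∑ y, kk p a b 0 d x y * kk p a' b' 0 d' y z =
      kk p (a * a') (a * b' + b * d') 0 (d * d') x z := by
  unfold kk
  simp only [if_true]
  rw [sum_eq_single (a * x)]
  · rw [if_pos rfl]
    by_cases hz : z = a' * (a * x)
    · rw [if_pos hz, if_pos (by rw [hz]; ring), map_mul (ch p)]
      have e1 : a * a' * (a * b' + b * d') * x ^ 2 = a * b * x ^ 2 + a' * b' * (a * x) ^ 2 := by
        linear_combination (a * b * x ^ 2) * h1'
      rw [e1, AddChar.map_add_eq_mul]
      ring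
    · rw [if_neg hz, if_neg (fun h => hz (by rw [h]; ring)), mul_zero]
  · intro y _ hy
    rw [if_neg hy, zero_mul]
  · intro h
    exact absurd (mem_univ _) h

lemma kk_mul_zero_ne {a b d a' b' c' d' : ZMod p} (h1 : a * d = 1)
    (hc' : c' ≠ 0) (x z : ZMod p) :
    ∑ y, kk p a b 0 d x y * kk p a' b' c' d' y z =
      kk p (a * a' + b * c') (a * b' + b * d') (d * c') (d * d') x z := by
  have ha : a ≠ 0 := left_ne_zero_of_mul_eq_one h1
  have hd : d ≠ 0 := right_ne_zero_of_mul_eq_one h1
  have hd' : d = a⁻¹ := eq_inv_of_mul_eq_one_right h1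
  unfold kk
  simp only [if_true]
  rw [sum_eq_single (a * x)]
  · rw [if_pos rfl, if_neg hc', if_neg (mul_ne_zero hd hc'), map_mul (ch p)]
    have e1 : ((a * a' + b * c') * x ^ 2 - 2 * x * z + d * d' * z ^ 2) / (d * c') =
        a * b * x ^ 2 + (a' * (a * x) ^ 2 - 2 * (a * x) * z + d' * z ^ 2) / c' := by
      rw [hd']
      field_simp
      ring
    rw [e1, AddChar.map_add_eq_mul]
    have e2 : ch p d = ch p a := by rw [hd', ch_inv]
    rw [e2]
    ring
  · intro y _ hy
    rw [if_neg hy, zero_mul]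
  · intro h
    exact absurd (mem_univ _) h

lemma kk_mul_ne_zero {a b c d a' b' d' : ZMod p} (h1' : a' * d' = 1)
    (hc : c ≠ 0) (x z : ZMod p) :
    ∑ y, kk p a b c d x y * kk p a' b' 0 d' y z =
      kk p (a * a') (a * b' + b * d') (c * a') (c * b' + d * d') x z := by
  have ha' : a' ≠ 0 := left_ne_zero_of_mul_eq_one h1'
  have hd' : d' = a'⁻¹ := eq_inv_of_mul_eq_one_right h1'
  unfold kk
  simp only [if_true]
  rw [sum_eq_single (a'⁻¹ * z)]
  · rw [if_neg hc, if_pos (by field_simp), if_neg (mul_ne_zero hc ha'), map_mul (ch p)]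
    have e1 : (a * a' * x ^ 2 - 2 * x * z + (c * b' + d * d') * z ^ 2) / (c * a') =
        (a * x ^ 2 - 2 * x * (a'⁻¹ * z) + d * (a'⁻¹ * z) ^ 2) / c + a' * b' * (a'⁻¹ * z) ^ 2 := by
      rw [hd']
      field_simp
      ring
    rw [e1, AddChar.map_add_eq_mul]
    ring
  · intro y _ hy
    rw [if_neg (show ¬ z = a' * y from fun h => hy (by rw [h]; field_simp)), mul_zero]
  · intro h
    exact absurd (mem_univ _) h

lemma kk_mul_ne_ne (h2 : p ≠ 2) {a b c d a' b' c' d' : ZMod p} (h1 : a * d - b * c = 1)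
    (h1' : a' * d' - b' * c' = 1) (hc : c ≠ 0) (hc' : c' ≠ 0) (x z : ZMod p) :
    ∑ y, kk p a b c d x y * kk p a' b' c' d' y z =
      kk p (a * a' + b * c') (a * b' + b * d') (c * a' + d * c') (c * b' + d * d') x z := by
  have hg := gs_ne h2
  set A : ZMod p := d / c + a' / c' with hA
  set B : ZMod p := x / c + z / c' with hB
  have hAc : c * a' + d * c' = A * (c * c') := by rw [hA]; field_simp; ring
  have e1 : ∀ y, kk p a b c d x y * kk p a' b' c' d' y z =
      (ch p c * ch p c' * (gs p)⁻¹ * (gs p)⁻¹ * ee p (a * x ^ 2 / c + d' * z ^ 2 / c')) *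
        ee p (A * y ^ 2 - 2 * B * y) := by
    intro y
    unfold kk
    rw [if_neg hc, if_neg hc']
    have e2 : (a * x ^ 2 - 2 * x * y + d * y ^ 2) / c + (a' * y ^ 2 - 2 * y * z + d' * z ^ 2) / c' =
        (a * x ^ 2 / c + d' * z ^ 2 / c') + (A * y ^ 2 - 2 * B * y) := by
      rw [hA, hB]
      field_simp
      ring
    have e3 : ee p ((a * x ^ 2 - 2 * x * y + d * y ^ 2) / c) *
        ee p ((a' * y ^ 2 - 2 * y * z + d' * z ^ 2) / c') =
        ee p (a * x ^ 2 / c + d' * z ^ 2 / c') * ee p (A * y ^ 2 - 2 * B * y) := by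
      rw [← AddChar.map_add_eq_mul, e2, AddChar.map_add_eq_mul]
    linear_combination (ch p c * ch p c' * (gs p)⁻¹ * (gs p)⁻¹) * e3
  rw [sum_congr rfl fun y _ => e1 y, ← mul_sum]
  by_cases hA0 : A = 0
  · -- the degenerate case
    have hc0 : c * a' + d * c' = 0 := by rw [hAc, hA0, zero_mul]
    have e4 : ∀ y, ee p (A * y ^ 2 - 2 * B * y) = ee p (- (2 * B * y)) := by
      intro y
      rw [hA0]
      congr 1
      ring
    rw [sum_congr rfl fun y _ => e4 y, sum_lin h2]
    unfold kk
    rw [if_pos hc0]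
    -- the entry
    have ha'' : a * a' + b * c' = - c' / c := by
      field_simp
      linear_combination a * hc0 - c' * h1
    have hcond : B = 0 ↔ z = (a * a' + b * c') * x := by
      rw [ha'', hB]
      constructor
      · intro h
        field_simp at h ⊢
        linear_combination h
      · intro h
        rw [h]
        field_simp
        ring
    by_cases hB0 : B = 0
    · rw [if_pos hB0, if_pos (hcond.mp hB0)]
      have hz := hcond.mp hB0
      rw [ha''] at hz
      have e5 : (a * a' + b * c') * (a * b' + b * d') * x ^ 2 = a * x ^ 2 / c + d' * z ^ 2 / c' := by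
        have e6 : a * b' + b * d' = - (a / c' + d' / c) := by
          field_simp
          linear_combination (-(a * c)) * h1' - (c' * d') * h1 + (a * d') * hc0
        rw [e6, ha'', hz]
        field_simp
      rw [e5]
      have e7 : ch p (a * a' + b * c') = ch p (-1) * (ch p c * ch p c') := by
        rw [ha'', show - c' / c = -1 * (c⁻¹ * c') by field_simp, map_mul (ch p), map_mul (ch p), ch_inv]
      rw [e7]
      have h3 := gs_sq h2
      have e8 : (gs p)⁻¹ * (gs p)⁻¹ * (p : ℂ) = ch p (-1) := by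
        have h4 : ch p (-1) * ch p (-1) = 1 := ch_sq (neg_ne_zero.mpr one_ne_zero)
        have h5 : (p : ℂ) = ch p (-1) * gs p ^ 2 := by rw [h3, ← mul_assoc, h4, one_mul]
        rw [h5]
        field_simp
      linear_combination (ch p c * ch p c' * ee p (a * x ^ 2 / c + d' * z ^ 2 / c')) * e8
    · rw [if_neg hB0, if_neg (fun h => hB0 (hcond.mpr h)), mul_zero]
  · -- the general case
    rw [sum_quad h2 hA0]
    have hc'' : c * a' + d * c' ≠ 0 := by rw [hAc]; exact mul_ne_zero hA0 (mul_ne_zero hc hc')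
    unfold kk
    rw [if_neg hc'']
    have e5 : ((a * a' + b * c') * x ^ 2 - 2 * x * z + (c * b' + d * d') * z ^ 2) / (c * a' + d * c') =
        (a * x ^ 2 / c + d' * z ^ 2 / c') + - B ^ 2 / A := by
      have hb : b = (a * d - 1) / c := by field_simp; linear_combination -h1
      have hb' : b' = (a' * d' - 1) / c' := by field_simp; linear_combination -h1'
      have hA1 : A * (c * c') ≠ 0 := mul_ne_zero hA0 (mul_ne_zero hc hc')
      rw [hAc, hB, hb, hb']
      have ha' : a' = c' * (A - d / c) := by rw [hA]; field_simp; ring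
      rw [ha']
      field_simp
      ring
    rw [e5, AddChar.map_add_eq_mul (ee p) (a * x ^ 2 / c + d' * z ^ 2 / c') (- B ^ 2 / A), hAc,
      map_mul (ch p), map_mul (ch p)]
    have e9 : (gs p)⁻¹ * gs p = 1 := inv_mul_cancel₀ hg
    linear_combination (ch p c * ch p c' * (gs p)⁻¹ * ee p (a * x ^ 2 / c + d' * z ^ 2 / c') *
      ch p A * ee p (- B ^ 2 / A)) * e9

end Kernel

end Pool.Agent.Q59.MC
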