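import Pool.Agent.Q59.MC.Real
import Pool.Agent.Q129.MC.Det
import Pool.Agent.Q59.SX.Gen
import Pool.Agent.Q59.QP.Sys

/-!
# Generation of the Hodge characters by the modular characters
-/

namespace Pool.Agent.Q59.MC

open Finset Pool.Agent.H916R2 Pool.Agent.Q59.RL Pool.Agent.Q59.FS Polynomial
open MatrixGroups

/-- `t` is the multiset of the exponents at the cusp of a complex representation `ρ` of `SL_2(ℤ)` of finite
dimension which is trivial on `-1` and on a principal congruence subgroup: the eigenvalues of `ρ(T)`,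
`T = [[1, 1], [0, 1]]`, are the roots of unity `exp (2 π i a / m)`, `a ∈ t`. -/
def CuspExponents (m : ℕ) (t : Multiset (ZMod m)) : Prop :=
  ∃ (N d : ℕ) (ρ : SL(2, ℤ) →* Matrix (Fin d) (Fin d) ℂ), 0 < N ∧
    (∀ γ ∈ CongruenceSubgroup.Gamma N, ρ γ = 1) ∧ ρ (-1) = 1 ∧
    (ρ ModularGroup.T).charpoly =
      (t.map fun a => X - C (Complex.exp (2 * Real.pi * Complex.I * a.val / m))).prod

/-- A modular character: a Hodge character which is the union of the nonzero exponents of a congruence
representation at the cusp and of residues `a` with `12 * a = 0`. -/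
def ModularCharacter (m : ℕ) (s : Multiset (ZMod m)) : Prop :=
  IsHodge m s ∧ ∃ t w : Multiset (ZMod m), CuspExponents m t ∧ (∀ a ∈ w, 12 * a = 0) ∧
    s = t.filter (fun a => a ≠ 0) + w

section Cusp

variable {m : ℕ}

lemma cusp_of_crep {t : Multiset (ZMod m)} (h : CRep m 1 t) : CuspExponents m t := by
  obtain ⟨N, ι, _, _, ρ, f, hN, h1, h2, h3, h4⟩ := h
  set e := Fintype.equivFin ι with he
  refine ⟨N, Fintype.card ι,
    (Matrix.reindexAlgEquiv ℂ ℂ e).toRingEquiv.toRingHom.toMonoidHom.comp ρ, hN, ?_, ?_, ?_⟩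
  · intro γ hγ
    change Matrix.reindexAlgEquiv ℂ ℂ e (ρ γ) = 1
    rw [h1 γ hγ, map_one]
  · change Matrix.reindexAlgEquiv ℂ ℂ e (ρ (-1)) = 1
    rw [h2, one_smul, map_one]
  · change (Matrix.reindexAlgEquiv ℂ ℂ e (ρ ModularGroup.T)).charpoly = _
    rw [Matrix.coe_reindexAlgEquiv, Matrix.charpoly_reindex, h3, Matrix.charpoly_diagonal, h4,
      Multiset.map_map]
    rfl

variable [NeZero m]

lemma cusp_neg {t : Multiset (ZMod m)} (h : CuspExponents m t) :
    CuspExponents m (t.map Neg.neg) := by
  obtain ⟨N, d, ρ, hN, h1, h2, h3⟩ := h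
  refine ⟨N, d,
    ((starRingEnd ℂ).mapMatrix : Matrix (Fin d) (Fin d) ℂ →+* Matrix (Fin d) (Fin d) ℂ).toMonoidHom.comp ρ,
    hN, ?_, ?_, ?_⟩
  · intro γ hγ
    change (starRingEnd ℂ).mapMatrix (ρ γ) = 1
    rw [h1 γ hγ, map_one]
  · change (starRingEnd ℂ).mapMatrix (ρ (-1)) = _
    rw [h2, map_one]
  · change ((starRingEnd ℂ).mapMatrix (ρ ModularGroup.T)).charpoly = _
    rw [RingHom.mapMatrix_apply, Matrix.charpoly_map, h3, Polynomial.map_multiset_prod,
      Multiset.map_map, Multiset.map_map]
    congr 1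
    refine Multiset.map_congr rfl fun a _ => ?_
    have e1 : Complex.exp (2 * Real.pi * Complex.I * ((-a).val : ℂ) / m) =
        (starRingEnd ℂ) (Complex.exp (2 * Real.pi * Complex.I * (a.val : ℂ) / m)) := em_neg a
    simp only [Function.comp_apply, Polynomial.map_sub, Polynomial.map_X, Polynomial.map_C]
    rw [e1]

lemma modular_neg {s : Multiset (ZMod m)} (h : ModularCharacter m s) :
    ModularCharacter m (s.map Neg.neg) := by
  obtain ⟨h1, t, w, h2, h3, rfl⟩ := h
  refine ⟨h1.neg, t.map Neg.neg, w.map Neg.neg, cusp_neg h2, ?_, ?_⟩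
  · intro a ha
    obtain ⟨b, hb, rfl⟩ := Multiset.mem_map.mp ha
    rw [mul_neg, h3 b hb, neg_zero]
  · rw [Multiset.map_add, Multiset.filter_map]
    congr 2
    refine Multiset.filter_congr fun a _ => ?_
    simp

lemma adm_modular : Adm m (Generated m (ModularCharacter m)) where
  hodge s hs := by
    obtain ⟨h0, hev⟩ := hs.good (fun s h => ⟨h.1.1, h.1.2.1⟩)
    exact isHodge_of_saw h0 hev fun t =>
      Pool.Agent.Q59.SX.sum_of_generated (Pool.Agent.Q59.QP.saw_oddDist t)
        (fun s h => h.1.saw_sum t) hs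
  neg s hs := hs.neg fun s h => modular_neg h
  pair a ha := Generated.pair a ha
  standard p hp hp2 hpm a ha := Generated.standard p hp hp2 hpm a ha
  standardTwo h a ha := Generated.standardTwo h a ha
  join s t hs ht := Generated.join s t hs ht
  cancel a s h := Generated.cancel a s h

/-- the modular character of a level -/
theorem exists_modular {d : ℕ} (hd : GG m d) (hm : ∀ p : ℕ, p.Prime → p ∣ m → p % 4 ≠ 1) :
    ∃ s : Multiset (ZMod m), ModularCharacter m s ∧ (∀ a ∈ s, addOrderOf a ≤ d) ∧
      Odd (Multiset.card (s.filter fun a => addOrderOf a = d)) := by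
  classical
  obtain ⟨hdm, hd1, hG, hev⟩ := hd
  have hd0 : d ≠ 0 := by rintro rfl; exact NeZero.ne m (Nat.eq_zero_of_zero_dvd hdm)
  have hinj : Set.InjOn pp (d.primeFactors : Set ℕ) := by
    intro a ha b hb hab
    have ha' := Nat.prime_of_mem_primeFactors (mem_coe.mp ha)
    have hb' := Nat.prime_of_mem_primeFactors (mem_coe.mp hb)
    unfold pp at hab
    split_ifs at hab with h1 h2 h2
    · rw [h1, h2]
    · rw [← hab] at hb'
      exact absurd hb' (by norm_num)
    · rw [hab] at ha'
      exact absurd ha' (by norm_num)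
    · exact hab
  set S : Finset ℕ := d.primeFactors.image pp with hSdef
  have hprod : ∏ p ∈ S, p = d := by
    rw [hSdef, prod_image hinj]
    exact (hG.eq_prod hd0).symm
  have h4d : 2 ∣ d → 4 ∣ d := by
    intro h
    have := hG.2.2
    omega
  have hS : ∀ p ∈ S, Lv p ∧ p ∣ m := by
    intro p hp
    obtain ⟨q, hq, rfl⟩ := mem_image.mp hp
    have hqp := Nat.prime_of_mem_primeFactors hq
    have hqd := Nat.dvd_of_mem_primeFactors hq
    unfold pp
    split_ifs with h2
    · subst h2
      exact ⟨Or.inl rfl, (h4d hqd).trans hdm⟩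
    · refine ⟨Or.inr ⟨hqp, ?_⟩, hqd.trans hdm⟩
      have h1 := hm q hqp (hqd.trans hdm)
      have h3 := hqp.eq_two_or_odd
      omega
  have hSne : S.Nonempty := by
    rw [hSdef, image_nonempty]
    exact Nat.nonempty_primeFactors.mpr (by omega)
  have hScard : Even S.card := by
    rw [hSdef, card_image_of_injOn hinj]
    exact hev
  obtain ⟨X, w, ht, hw12, hrel, hord1⟩ := exists_top hS hSne hScard
  rw [hprod] at hord1
  set t := ME m (fun _ => 1) S + X with htdef
  have hME : ∀ a ∈ ME m (fun _ => 1) S, addOrderOf a = d := by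
    intro a ha
    rw [ME_order hS a ha, hprod]
  have hord : ∀ a ∈ t + w, addOrderOf a ≤ d := by
    intro a ha
    rw [htdef, add_assoc] at ha
    rcases Multiset.mem_add.mp ha with ha | ha
    · exact (hME a ha).le
    · exact (hord1 a ha).1.le
  have hodd : Odd (Multiset.card ((t + w).filter fun a => addOrderOf a = d)) := by
    rw [htdef, add_assoc, Multiset.filter_add, Multiset.filter_eq_self.mpr hME,
      Multiset.filter_eq_nil.mpr fun a ha => (hord1 a ha).1.ne, add_zero]
    exact card_ME fun p hp => (hS p hp).1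
  -- `d` is at least three
  have hd3 : 3 ≤ d := by
    by_contra hcon
    have h2 : d = 2 := by omega
    have := h4d (by rw [h2])
    omega
  set t0 := t.filter (fun a => a ≠ 0) with ht0
  set w0 := w.filter (fun a => a ≠ 0) with hw0
  have e0 : ∀ x : Multiset (ZMod m), ∀ u, hw (x.filter (fun a => a ≠ 0)) u = hw x u := by
    intro x u
    unfold hw
    conv_rhs => rw [← Multiset.filter_add_not (fun a => a ≠ 0) x]
    rw [Multiset.map_add, Multiset.sum_add]
    have : ((x.filter (fun a => ¬ a ≠ 0)).map fun a => saw ((u : ZMod m) * a)).sum = 0 := by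
      refine Multiset.sum_eq_zero fun y hy => ?_
      obtain ⟨b, hb, rfl⟩ := Multiset.mem_map.mp hy
      have hb' := (Multiset.mem_filter.mp hb).2
      rw [not_not] at hb'
      rw [hb', mul_zero]
      simp [saw]
    rw [this, add_zero]
  have hsum : ∀ u, hw (t0 + w0) u = 0 := by
    intro u
    rw [hw_add, e0, e0, ← hw_add, hrel]
  have h0 : (0 : ZMod m) ∉ t0 + w0 := by
    rw [Multiset.mem_add]
    rintro (h | h)
    · exact (Multiset.mem_filter.mp h).2 rfl
    · exact (Multiset.mem_filter.mp h).2 rfl
  have hord' : ∀ a ∈ t0 + w0, addOrderOf a ≤ d := by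
    intro a ha
    apply hord
    rcases Multiset.mem_add.mp ha with h | h
    · exact Multiset.mem_add.mpr (Or.inl (Multiset.mem_of_mem_filter h))
    · exact Multiset.mem_add.mpr (Or.inr (Multiset.mem_of_mem_filter h))
  have hfil : ∀ x : Multiset (ZMod m), (x.filter (fun a => a ≠ 0)).filter (fun a => addOrderOf a = d) =
      x.filter (fun a => addOrderOf a = d) := by
    intro x
    rw [Multiset.filter_filter]
    refine Multiset.filter_congr fun a _ => ?_
    constructor
    · exact fun h => h.1
    · intro h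
      refine ⟨h, ?_⟩
      rintro rfl
      rw [addOrderOf_zero] at h
      omega
  have hodd' : Odd (Multiset.card ((t0 + w0).filter fun a => addOrderOf a = d)) := by
    rw [Multiset.filter_add, hfil, hfil, ← Multiset.filter_add]
    exact hodd
  by_cases hpar : Even (Multiset.card (t0 + w0))
  · refine ⟨t0 + w0, ⟨isHodge_of_saw h0 hpar hsum, t, w0, cusp_of_crep ht, ?_, rfl⟩, hord', hodd'⟩
    intro a ha
    exact hw12 a (Multiset.mem_of_mem_filter ha)
  · -- add one half
    rw [Nat.not_even_iff_odd] at hpar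
    have h1 := saw_sum_eq (t0 + w0) h0 1
    have h1' := hsum 1
    unfold hw at h1'
    rw [h1'] at h1
    have hm2 : 2 ∣ m := by
      obtain ⟨k, hk⟩ := hpar
      rw [hk] at h1
      have h2 : ((m : ℤ)) * (2 * k + 1) = 2 *
          ((((t0 + w0).map fun a => (((1 : (ZMod m)ˣ) : ZMod m) * a).val).sum : ℕ) : ℤ) := by
        push_cast at h1 ⊢
        linarith
      have h3 : (2 : ℤ) ∣ (m : ℤ) * (2 * k + 1) := ⟨_, h2⟩
      have h4 : IsCoprime (2 : ℤ) (2 * k + 1) := ⟨-k, 1, by ring⟩
      exact_mod_cast h4.dvd_of_dvd_mul_right h3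
    obtain ⟨n, hn⟩ := hm2
    have hn0 : 0 < n := Nat.pos_of_ne_zero (by rintro rfl; exact NeZero.ne m (by rw [hn, mul_zero]))
    have hhalf : ((n : ℕ) : ZMod m) + (n : ℕ) = 0 := by
      rw [← two_mul, ← Nat.cast_two, ← Nat.cast_mul, ← hn]
      simp
    have hne : ((n : ℕ) : ZMod m) ≠ 0 := by
      rw [Ne, ZMod.natCast_eq_zero_iff]
      intro h
      have := Nat.le_of_dvd hn0 h
      omega
    have hord2 : addOrderOf ((n : ℕ) : ZMod m) = 2 := by
      refine addOrderOf_eq_prime ?_ hne
      rw [two_nsmul]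
      exact hhalf
    have h0' : (0 : ZMod m) ∉ t0 + (w0 + {((n : ℕ) : ZMod m)}) := by
      rw [← add_assoc, Multiset.mem_add, Multiset.mem_singleton]
      rintro (h | h)
      · exact h0 h
      · exact hne h.symm
    refine ⟨t0 + (w0 + {((n : ℕ) : ZMod m)}), ⟨isHodge_of_saw h0' ?_ ?_, t, w0 + {((n : ℕ) : ZMod m)},
      cusp_of_crep ht, ?_, rfl⟩, ?_, ?_⟩
    · rw [← add_assoc, Multiset.card_add, Multiset.card_singleton]
      exact hpar.add_one
    · intro u
      rw [← add_assoc, Multiset.map_add, Multiset.sum_add, Multiset.map_singleton,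
        Multiset.sum_singleton]
      have h5 := hsum u
      unfold hw at h5
      rw [h5, zero_add]
      apply saw_half
      rw [← mul_add, hhalf, mul_zero]
    · intro a ha
      rcases Multiset.mem_add.mp ha with ha | ha
      · exact hw12 a (Multiset.mem_of_mem_filter ha)
      · rw [Multiset.mem_singleton] at ha
        rw [ha]
        have : (12 : ZMod m) * (n : ℕ) = 6 * (((n : ℕ) : ZMod m) + (n : ℕ)) := by ring
        rw [this, hhalf, mul_zero]
    · intro a ha
      rw [← add_assoc] at ha
      rcases Multiset.mem_add.mp ha with ha | ha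
      · exact hord' a ha
      · rw [Multiset.mem_singleton] at ha
        rw [ha, hord2]
        omega
    · rw [← add_assoc, Multiset.filter_add, Multiset.card_add]
      have e5 : ({((n : ℕ) : ZMod m)} : Multiset (ZMod m)).filter (fun a => addOrderOf a = d) = 0 := by
        rw [Multiset.filter_eq_nil]
        intro a ha
        rw [Multiset.mem_singleton] at ha
        rw [ha, hord2]
        omega
      rw [e5, Multiset.card_zero, add_zero]
      exact hodd'

/-- **Generation.** -/
theorem generated (hm : ∀ p : ℕ, p.Prime → p ∣ m → p % 4 ≠ 1) {s : Multiset (ZMod m)}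
    (hs : IsHodge m s) (hne : s ≠ 0) : Generated m (ModularCharacter m) s := by
  classical
  set A := Generated m (ModularCharacter m) with hA
  have hadm : Adm m A := adm_modular
  refine (cl_eq_zero_iff hadm (two_le_of_hodge (NeZero.pos m) hs.1 hne) hs.1).mp ?_
  have hT := Pool.Agent.Q129.MC.det m _ (cQ m A) (cQ_oddDist (m := m) (base := A)) ?_ m
  · have hmem : (s.map (cQ m A)).sum ∈ TD (cQ m A) m := by
      refine ⟨fun a => ((s.count a : ℕ) : ℤ), hs.rel, fun a _ => ?_, sum_count s _⟩
      have := addOrderOf_dvd_card (x := a)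
      rw [ZMod.card] at this
      exact Nat.le_of_dvd (NeZero.pos m) this
    rw [hT, AddSubgroup.mem_bot] at hmem
    unfold cl
    rw [hmem, Prod.mk_eq_zero]
    refine ⟨rfl, ?_⟩
    rw [ZMod.natCast_eq_zero_iff, ← even_iff_two_dvd]
    exact hs.2.1
  · intro d hd
    obtain ⟨s', hs', hord, hodd⟩ := exists_modular hd hm
    refine ⟨fun a => ((s'.count a : ℕ) : ℤ), hs'.1.rel, ?_, ?_, ?_⟩
    · intro a ha
      by_contra hcon
      apply ha
      have h1 : s'.count a = 0 := Multiset.count_eq_zero.mpr fun h => hcon (hord a h)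
      have h2 : s'.count (-a) = 0 := Multiset.count_eq_zero.mpr fun h => hcon (by
        have := hord (-a) h
        rwa [addOrderOf_neg] at this)
      unfold od
      beta_reduce
      rw [h1, h2, sub_self]
    · rw [sum_count]
      exact cQ_sum_eq_zero (Generated.ofBase s' (Generated.ofBase s' hs'))
    · have h1 : ∑ a ∈ univ.filter (fun a : ZMod m => addOrderOf a = d), ((s'.count a : ℕ) : ℤ) =
          (Multiset.card (s'.filter fun a => addOrderOf a = d) : ℤ) := by
        rw [← Nat.cast_sum]
        congr 1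
        rw [← Multiset.toFinset_sum_count_eq (s'.filter fun a => addOrderOf a = d)]
        refine (sum_subset_zero_on_sdiff ?_ ?_ ?_).symm
        · intro a ha
          rw [Multiset.mem_toFinset] at ha
          rw [mem_filter]
          exact ⟨mem_univ _, (Multiset.mem_filter.mp ha).2⟩
        · intro a ha
          rw [mem_sdiff, mem_filter, Multiset.mem_toFinset, Multiset.mem_filter] at ha
          exact Multiset.count_eq_zero.mpr fun h => ha.2 ⟨h, ha.1.2⟩
        · intro a ha
          rw [Multiset.mem_toFinset] at ha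
          exact Multiset.count_filter_of_pos (Multiset.mem_filter.mp ha).2
      rw [h1]
      exact_mod_cast hodd

end Cusp

end Pool.Agent.Q59.MC
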