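import Pool.Agent.Q59.MC.Top

/-!
# Peeling the large primes with the modular characters
-/

namespace Pool.Agent.Q59.MC

open Finset Pool.Agent.H916R2 Pool.Agent.Q59.FS Pool.Agent.Q59.PL Pool.Agent.Q59.S6
  Pool.Agent.Y2.Cv

section Peel

variable {m : ℕ} [NeZero m] {Q : Type} [AddCommGroup Q] {C : ZMod m → Q}

/-- the prime `q` -/
theorem peel_q_gen (hC : OddDist C) {q : ℕ} (hq : q.Prime) (hq5 : 5 ≤ q)
    {x0 : ZMod m → ℤ} (hrel : Rel x0)
    (hstep : ∀ d : ℕ, 4 * q < d → ∀ [NeZero d], ∀ R x, Top q x0 R d x → ∃ y, St q x0 (d - 1) y)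
    (h4 : nd (4 * q) x0 < (q : ℤ) - 1 ∨ ∃ T : ZMod m → ℤ, Ex m q 4 2 T ∧ ∑ a, T a • C a = 0)
    (h3 : nd (3 * q) x0 < (q : ℤ) - 1 ∨ ∃ T : ZMod m → ℤ, Ex m q 3 3 T ∧ ∑ a, T a • C a = 0) :
    ∃ y, Rel y ∧ ∑ a, x0 a • C a = ∑ a, y a • C a ∧
      (∀ a, q ∣ addOrderOf a → od y a = 0) ∧ Dom5 y x0 := by
  have hq2 : q ≠ 2 := by omega
  have hq0 : 0 < q := by omega
  obtain ⟨x, hx⟩ := down (D0 := 4 * q) (D1 := m) (fun d hd _ _ R x h => hstep d hd R x h)
    hq hq2 hrel m le_rfl ⟨x0, St.init q x0⟩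
  have hsub : ∀ (u T : ZMod m → ℤ) (v : ℤ), ∑ a, T a • C a = 0 →
      ∑ a, (u a - v * T a) • C a = ∑ a, u a • C a := by
    intro u T v hT
    simp only [sub_smul, sum_sub_distrib, mul_smul]
    rw [← smul_sum, hT, smul_zero, sub_zero]
  have hod : ∀ (u T : ZMod m → ℤ) (v : ℤ) (a : ZMod m),
      od (fun a => u a - v * T a) a = od u a - v * od T a := fun u T v a => by
    unfold od; ring
  -- the order `4 * q`
  obtain ⟨x1, hrel1, hs1, hod1, y1, hy1⟩ : ∃ x1, Rel x1 ∧ ∑ a, x1 a • C a = ∑ a, x0 a • C a ∧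
      (∀ a, ¬ addOrderOf a ∣ 4 * q → od x1 a = od x0 a) ∧ ∃ y, St q x1 (4 * q - 1) y := by
    rcases h4 with h4 | h4
    · refine ⟨x0, hrel, rfl, fun _ _ => rfl, ?_⟩
      exact down (D0 := 4 * q - 1) (D1 := 4 * q) (fun d hd1 hd2 _ R x h => by
        have hd : d = 4 * q := by omega
        subst hd
        exact step_simple' h h4) hq hq2 hrel (4 * q) le_rfl ⟨x, hx⟩
    · obtain ⟨T, hT, hTC⟩ := h4
      obtain ⟨v, y, hy⟩ := stage_four hq hq5 hrel hx hT
      refine ⟨_, rel_sub hrel hT.rel v, hsub x0 T v hTC, fun a ha => ?_, y, hy⟩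
      have h5 : od T a = 0 := by
        by_contra h0
        exact ha (hT.supp a h0)
      rw [hod, h5, mul_zero, sub_zero]
  -- the order `3 * q`
  obtain ⟨x2, hrel2, hs2, hod2, y2, hy2⟩ : ∃ x2, Rel x2 ∧ ∑ a, x2 a • C a = ∑ a, x1 a • C a ∧
      (∀ a, ¬ addOrderOf a ∣ 3 * q → od x2 a = od x1 a) ∧ ∃ y, St q x2 (3 * q - 1) y := by
    rcases h3 with h3 | h3
    · refine ⟨x1, hrel1, rfl, fun _ _ => rfl, ?_⟩
      have h5 : nd (3 * q) x1 < (q : ℤ) - 1 := by
        rw [nd_congr (fun a ha => hod1 a fun h0 => ?_)]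
        · exact h3
        · have h6 := (Nat.Prime.dvd_mul Nat.prime_three).mp ((Dvd.intro q rfl).trans (ha.trans h0))
          rcases h6 with h6 | h6
          · exact absurd h6 (by norm_num)
          · have := (Nat.prime_dvd_prime_iff_eq Nat.prime_three hq).mp h6
            omega
      exact down (D0 := 3 * q - 1) (D1 := 4 * q - 1) (fun d hd1 hd2 _ R x h => by
        obtain ⟨e, he⟩ := h.hqd
        have he3 : e = 3 := by
          have h7 : e < 4 := by
            by_contra hcon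
            push Not at hcon
            have : q * 4 ≤ q * e := Nat.mul_le_mul_left q hcon
            omega
          have h8 : 2 < e := by
            by_contra hcon
            push Not at hcon
            have : q * e ≤ q * 2 := Nat.mul_le_mul_left q hcon
            omega
          omega
        have hd : d = 3 * q := by rw [he, he3]; ring
        subst hd
        exact step_simple' h h5) hq hq2 hrel1 (4 * q - 1) le_rfl ⟨y1, hy1⟩
    · obtain ⟨T, hT, hTC⟩ := h3
      obtain ⟨v, y, hy⟩ := stage_three hq hq5 hrel1 hy1 hT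
      refine ⟨_, rel_sub hrel1 hT.rel v, hsub x1 T v hTC, fun a ha => ?_, y, hy⟩
      have h5 : od T a = 0 := by
        by_contra h0
        exact ha (hT.supp a h0)
      rw [hod, h5, mul_zero, sub_zero]
  obtain ⟨y, e1, e2, e3⟩ := fin_small hq hq2 hrel2 ⟨y2, hy2⟩
  refine ⟨y, e1.rel hrel2, ?_, e3, ?_⟩
  · rw [sum_eqv hC e1, hs2, hs1]
  · intro p hp hp5 a ha
    by_cases hqa : q ∣ addOrderOf a
    · rw [e3 a hqa, abs_zero]; exact abs_nonneg _
    · have hno : ∀ c : ℕ, 0 < c → c < 5 → ¬ addOrderOf a ∣ c * q := by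
        intro c hc0 hc5 h0
        rcases hp.dvd_mul.mp (ha.trans h0) with h1 | h1
        · have := Nat.le_of_dvd hc0 h1
          omega
        · rw [← (Nat.prime_dvd_prime_iff_eq hp hq).mp h1] at hqa
          exact hqa ha
      rw [e2 a hqa, hod2 a (hno 3 (by norm_num) (by norm_num)),
        hod1 a (hno 4 (by norm_num) (by norm_num))]

end Peel

/-- `l` has a prime factor congruent to `1` modulo `4` -/
def One4 (l : ℕ) : Prop := ∃ p : ℕ, p.Prime ∧ p ∣ l ∧ p % 4 = 1

section All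

variable {m : ℕ} [NeZero m] {Q : Type} [AddCommGroup Q] {C : ZMod m → Q} {k : ℕ}

/-- one prime, at most `2 * k` letters -/
theorem peel_allM (hm2 : 2 ∣ m) (hm : ∀ l, BadEven k l → One4 l → ¬ l ∣ m) (hC : OddDist C)
    (hb : ∀ s, SurfaceOrCurveProduct m s → (s.map C).sum = 0)
    (hbm : ∀ s, ModularCharacter m s → (s.map C).sum = 0) {q : ℕ} (hq : q.Prime) (hq11 : 11 ≤ q)
    (hqk : k + 1 < q)
    (hqm : q ∣ m) {x0 : ZMod m → ℤ} (hrel : Rel x0) (hU : ud q x0 ≤ 2 * k) (hN : nd q x0 ≤ 4 * k) :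
    ∃ y, Rel y ∧ ∑ a, x0 a • C a = ∑ a, y a • C a ∧
      (∀ a, q ∣ addOrderOf a → od y a = 0) ∧ Dom5 y x0 := by
  have hqZ : (k : ℤ) + 1 < q := by exact_mod_cast hqk
  have h4bd : ∀ d, 4 ∣ d → q ∣ d → nd d x0 ≤ 2 * k := by
    intro d h4 hqd
    rw [nd_eq_ud h4]
    exact (ud_mono hqd x0).trans hU
  have hdiv : ∀ c : ℕ, c ∣ m → c.Coprime q → c * q ∣ m := fun c hc hcop =>
    hcop.mul_dvd_of_dvd_of_dvd hc hqm
  refine peel_q_gen hC hq (by omega) hrel (fun d hd _ R x h => ?_) ?_ ?_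
  · by_cases hd2 : d % 4 = 2
    · exact h.step_two hd2
    by_cases hd4 : 4 ∣ d
    · refine step_four_gen h (by omega) hd4 (by omega) ?_
      have := h4bd d hd4 h.hqd
      linarith
    have hodd : d % 2 = 1 := by omega
    by_cases h2k : 2 * k + 1 < q
    · have : 2 * (k : ℤ) + 1 < q := by exact_mod_cast h2k
      exact h.step_odd (by rw [nq_eq_nd]; linarith) hodd (by omega) (by omega)
    refine step_ref' h (Nat.odd_iff.mpr hodd) ?_ hq11 (by omega) ?_
    · have := (ud_mono h.hqd x0).trans hU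
      linarith
    · intro h5
      have h5m : 5 ∣ m := h5.trans (Dvd.intro_left R h.hR)
      have h10 : 2 * 5 ∣ m := (show Nat.Coprime 2 5 by norm_num).mul_dvd_of_dvd_of_dvd hm2 h5m
      refine hm (10 * q) (Or.inr (Or.inr (Or.inr (Or.inl ⟨q, hq, hq11, by omega, rfl⟩))))
        ⟨5, by norm_num, ⟨2 * q, by ring⟩, rfl⟩ (hdiv 10 h10 ?_)
      refine Nat.Coprime.symm ((Nat.Prime.coprime_iff_not_dvd hq).mpr fun h1 => ?_)
      have := Nat.le_of_dvd (by norm_num) h1
      omega
  · by_cases h2k : 2 * k + 1 < q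
    · left
      have h1 := h4bd (4 * q) (Dvd.intro _ rfl) (Dvd.intro_left _ rfl)
      have : 2 * (k : ℤ) + 1 < q := by exact_mod_cast h2k
      linarith
    · right
      by_cases hq4 : q % 4 = 3
      · exact ex_modular hq hq4 (by omega) (Or.inl ⟨rfl, rfl⟩) hbm
      have hq1 : q % 4 = 1 := by
        have := hq.eq_two_or_odd
        omega
      refine exists_ex4 ?_ hC hb
      by_cases h17 : 17 ≤ q
      · left
        intro h4
        exact hm (4 * q) (Or.inr (Or.inl ⟨q, hq, h17, by omega, rfl⟩))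
          ⟨q, hq, dvd_mul_left _ _, hq1⟩ h4
      · right
        interval_cases q <;> first | (simp; done) | exact absurd hq (by norm_num)
  · by_cases h4k : 4 * k + 1 < q
    · left
      have h1 := (nd_mono (show q ∣ 3 * q from Dvd.intro_left _ rfl) x0).trans hN
      have : 4 * (k : ℤ) + 1 < q := by exact_mod_cast h4k
      linarith
    · right
      by_cases hq4 : q % 4 = 3
      · exact ex_modular hq hq4 (by omega) (Or.inr ⟨rfl, rfl⟩) hbm
      have hq1 : q % 4 = 1 := by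
        have := hq.eq_two_or_odd
        omega
      refine exists_ex3 hm2 ?_ hC hb
      by_cases h23 : 23 ≤ q
      · left
        intro h3
        have h2 : ¬ 2 ∣ 3 * q := by
          intro h2
          rcases Nat.prime_two.dvd_mul.mp h2 with h1 | h1
          · exact absurd h1 (by norm_num)
          · have := (Nat.prime_dvd_prime_iff_eq Nat.prime_two hq).mp h1
            omega
        have h4 := Nat.Coprime.mul_dvd_of_dvd_of_dvd
          ((Nat.Prime.coprime_iff_not_dvd Nat.prime_two).mpr h2) hm2 h3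
        rw [← mul_assoc] at h4
        exact hm (6 * q) (Or.inr (Or.inr (Or.inl ⟨q, hq, h23, by omega, rfl⟩)))
          ⟨q, hq, dvd_mul_left _ _, hq1⟩ h4
      · right
        interval_cases q <;> first | (simp; done) | exact absurd hq (by norm_num)

/-- several primes -/
theorem peel_all_listM (hm2 : 2 ∣ m) (hm : ∀ l, BadEven k l → One4 l → ¬ l ∣ m) (hC : OddDist C)
    (hb : ∀ s, SurfaceOrCurveProduct m s → (s.map C).sum = 0)
    (hbm : ∀ s, ModularCharacter m s → (s.map C).sum = 0) :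
    ∀ L : List ℕ, (∀ q ∈ L, q.Prime ∧ 11 ≤ q ∧ k + 1 < q ∧ q ∣ m) → ∀ x : ZMod m → ℤ, Rel x →
      (∀ q, ud q x ≤ 2 * k ∨ q ∉ L) → (∀ q, nd q x ≤ 4 * k ∨ q ∉ L) →
      ∃ y, Rel y ∧ ∑ a, x a • C a = ∑ a, y a • C a ∧
        (∀ q ∈ L, ∀ a, q ∣ addOrderOf a → od y a = 0) ∧ Dom5 y x := by
  intro L
  induction L with
  | nil => exact fun _ x hx _ _ => ⟨x, hx, rfl, fun q hq => absurd hq List.not_mem_nil,
      fun _ _ _ _ _ => le_rfl⟩
  | cons q L ih =>
    intro hL x hx hU hN
    obtain ⟨hq, hq11, hqk, hqm⟩ := hL q (List.mem_cons_self ..)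
    obtain ⟨y, hy, hxy, hy0, hd⟩ := peel_allM hm2 hm hC hb hbm hq hq11 hqk hqm hx
      ((hU q).resolve_right (fun h => h (List.mem_cons_self ..)))
      ((hN q).resolve_right (fun h => h (List.mem_cons_self ..)))
    obtain ⟨z, hz, hyz, hz0, hd'⟩ := ih (fun p hp => hL p (List.mem_cons_of_mem _ hp)) y hy
      (fun p => by
        by_cases hp : p ∈ L
        · obtain ⟨h1, h2, -, -⟩ := hL p (List.mem_cons_of_mem _ hp)
          left
          exact (hd.ud_le h1 (by omega) dvd_rfl).trans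
            ((hU p).resolve_right (fun h => h (List.mem_cons_of_mem _ hp)))
        · exact Or.inr hp) (fun p => by
        by_cases hp : p ∈ L
        · obtain ⟨h1, h2, -, -⟩ := hL p (List.mem_cons_of_mem _ hp)
          left
          exact (hd.nd_le h1 (by omega) dvd_rfl).trans
            ((hN p).resolve_right (fun h => h (List.mem_cons_of_mem _ hp)))
        · exact Or.inr hp)
    refine ⟨z, hz, hxy.trans hyz, fun p hp a ha => ?_, hd'.trans hd⟩
    rcases List.mem_cons.mp hp with rfl | hp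
    · have h1 := hd' p hq (by omega) a ha
      rw [hy0 a ha, abs_zero] at h1
      exact abs_nonpos_iff.mp h1
    · exact hz0 p hp a ha

end All

end Pool.Agent.Q59.MC
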