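import Pool.Agent.Q59.MC.Wt

/-!
# Realization by congruence representations
-/

namespace Pool.Agent.Q59.MC

open Finset Pool.Agent.H916R2 Matrix MatrixGroups

section Card

variable {m : ℕ}

lemma card_mprod (s t : Multiset (ZMod m)) :
    Multiset.card (mprod s t) = Multiset.card s * Multiset.card t := by
  unfold mprod
  rw [Multiset.card_bind]
  simp

lemma card_RS {p : ℕ} (hp : Lv p) : Odd (RS p 1).card := by
  rcases id hp with rfl | ⟨hpp, hp4⟩
  · decide
  · have h1 : (RS p (-1)).card = (RS p 1).card := by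
      rw [← RS_neg hp 1]
      refine card_image_of_injOn fun a ha b hb hab => ?_
      have ha' := mem_range.mp (mem_filter.mp (mem_coe.mp ha)).1
      have hb' := mem_range.mp (mem_filter.mp (mem_coe.mp hb)).1
      have hab' : p - a = p - b := hab
      omega
    have hr : range p = insert 0 (RS p 1 ∪ RS p (-1)) := by
      ext a
      rw [mem_insert, mem_union]
      unfold RS
      rw [mem_filter, mem_filter, mem_range]
      constructor
      · intro ha
        by_cases ha0 : a = 0
        · exact Or.inl ha0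
        · right
          have hcop : a.Coprime p := by
            rw [Nat.coprime_comm, Nat.Prime.coprime_iff_not_dvd hpp]
            intro h
            exact ha0 (Nat.eq_zero_of_dvd_of_lt h ha)
          rcases sgn_dich hp hcop with h | h
          · exact Or.inl ⟨ha, by rw [h]; rfl⟩
          · exact Or.inr ⟨ha, by rw [h]; rfl⟩
      · rintro (rfl | ⟨h, _⟩ | ⟨h, _⟩)
        · exact hpp.pos
        · exact h
        · exact h
    have hdis : Disjoint (RS p 1) (RS p (-1)) := by
      rw [disjoint_left]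
      intro a ha hb
      have h1 := (mem_filter.mp ha).2
      have h2 := (mem_filter.mp hb).2
      rw [h1] at h2
      norm_num at h2
    have h0 : (0 : ℕ) ∉ RS p 1 ∪ RS p (-1) := by
      rw [mem_union]
      unfold RS
      rw [mem_filter, mem_filter, sgn_zero hp]
      rintro (⟨_, h⟩ | ⟨_, h⟩)
      · norm_num at h
      · norm_num at h
    have h2 := congrArg card hr
    rw [card_range, card_insert_of_notMem h0, card_union_of_disjoint hdis, h1] at h2
    rw [Nat.odd_iff]
    omega

lemma card_ME {f : Finset ℕ} (hf : ∀ p ∈ f, Lv p) : Odd (Multiset.card (ME m (fun _ => 1) f)) := by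
  induction f using Finset.induction_on with
  | empty => simp [ME_empty]
  | insert q f hq ih =>
    rw [ME_insert hq, card_mprod]
    refine Odd.mul ?_ (ih fun p hp => hf p (mem_insert_of_mem hp))
    unfold PE
    rw [Multiset.card_map]
    exact card_RS (hf q (mem_insert_self q f))

end Card

section Order

variable {m : ℕ} [NeZero m]

lemma PE_order {p : ℕ} (hp : Lv p) (hpm : p ∣ m) {s : ℤˣ} {a : ZMod m} (ha : a ∈ PE m p s) :
    addOrderOf a = p := by
  obtain ⟨i, hi, rfl⟩ := Multiset.mem_map.mp ha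
  have hi' := (mem_filter.mp (show i ∈ RS p s from hi)).2
  have hcop : i.Coprime p := coprime_of_sgn hp (by rw [hi']; exact s.ne_zero)
  obtain ⟨k, hk⟩ := hpm
  have hm := NeZero.ne m
  have hk0 : 0 < k := Nat.pos_of_ne_zero (by rintro rfl; exact hm (by rw [hk, mul_zero]))
  have e : m / p = k := by rw [hk]; exact Nat.mul_div_cancel_left _ hp.pos
  rw [e, ZMod.addOrderOf_coe _ hm, hk, mul_comm p k, Nat.gcd_mul_left, Nat.gcd_comm p i, hcop, mul_one,
    Nat.mul_div_cancel_left _ hk0]

lemma ME_order {f : Finset ℕ} (hf : ∀ p ∈ f, Lv p ∧ p ∣ m) {ζ : ℕ → ℤˣ} :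
    ∀ a ∈ ME m ζ f, addOrderOf a = ∏ p ∈ f, p := by
  induction f using Finset.induction_on with
  | empty =>
    intro a ha
    rw [ME_empty, Multiset.mem_singleton] at ha
    rw [ha]
    simp
  | insert q f hq ih =>
    intro a ha
    have hf' : ∀ p ∈ f, Lv p ∧ p ∣ m := fun p hp => hf p (mem_insert_of_mem hp)
    have hq' := hf q (mem_insert_self q f)
    rw [ME_insert hq] at ha
    unfold mprod at ha
    obtain ⟨b, hb, ha⟩ := Multiset.mem_bind.mp ha
    obtain ⟨c, hc, rfl⟩ := Multiset.mem_map.mp ha
    have h1 := PE_order hq'.1 hq'.2 hb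
    have h2 := ih hf' c hc
    have hcop : q.Coprime (∏ p ∈ f, p) := by
      refine Nat.Coprime.prod_right fun p hp => ?_
      exact hq'.1.coprime (hf' p hp).1 (by rintro rfl; exact hq hp)
    rw [AddCommute.addOrderOf_add_eq_mul_addOrderOf_of_coprime (AddCommute.all b c)
      (by rw [h1, h2]; exact hcop), h1, h2, prod_insert hq]

lemma prod_lt {f S : Finset ℕ} (hS : ∀ p ∈ S, Lv p) (h : f ⊆ S) (hne : f ≠ S) :
    ∏ p ∈ f, p < ∏ p ∈ S, p := by
  have h3 : ∀ p, Lv p → 3 ≤ p := by
    rintro p (rfl | ⟨hp, hp4⟩)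
    · norm_num
    · omega
  obtain ⟨q, hq, hqf⟩ := exists_of_ssubset (Finset.ssubset_iff_subset_ne.mpr ⟨h, hne⟩)
  have h1 : insert q f ⊆ S := insert_subset hq h
  have h2 : ∏ p ∈ insert q f, p ≤ ∏ p ∈ S, p :=
    prod_le_prod_of_subset_of_one_le' h1 fun p hp _ => (hS p hp).pos
  have h4 : 0 < ∏ p ∈ f, p := prod_pos fun p hp => (hS p (h hp)).pos
  rw [prod_insert hqf] at h2
  have h5 := h3 q (hS q hq)
  nlinarith

end Order

section Weights

variable {m : ℕ} [NeZero m]

/-- the weight function of a multiset -/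
def hw (s : Multiset (ZMod m)) (u : (ZMod m)ˣ) : ℤ :=
  (s.map fun a => saw ((u : ZMod m) * a)).sum

omit [NeZero m] in
lemma hw_add (s t : Multiset (ZMod m)) (u : (ZMod m)ˣ) : hw (s + t) u = hw s u + hw t u := by
  unfold hw
  rw [Multiset.map_add, Multiset.sum_add]

lemma hw_neg (s : Multiset (ZMod m)) (u : (ZMod m)ˣ) : hw (s.map Neg.neg) u = - hw s u := by
  unfold hw
  rw [Multiset.map_map, ← Multiset.sum_map_neg', Multiset.map_map]
  congr 1
  refine Multiset.map_congr rfl fun a _ => ?_
  simp only [Function.comp_apply, mul_neg]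
  exact saw_neg _

/-- the signs of a unit -/
def cu (u : (ZMod m)ˣ) (p : ℕ) : ℤˣ := sgu p (u : ZMod m).val

lemma hw_ME {f : Finset ℕ} (hf : ∀ p ∈ f, Lv p ∧ p ∣ m) (u : (ZMod m)ˣ) :
    hw (ME m (fun _ => 1) f) u = WW m f (cu u) := by
  unfold hw WW
  have h1 : ∀ p ∈ f, Lv p ∧ p ∣ m ∧ ((u : ZMod m).val).Coprime p := fun p hp =>
    ⟨(hf p hp).1, (hf p hp).2, Nat.Coprime.coprime_dvd_right (hf p hp).2 (ZMod.val_coe_unit_coprime u)⟩
  have h2 := ME_mul (ζ := fun _ => 1) h1
  simp only [mul_one, ZMod.natCast_zmod_val] at h2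
  change _ = ((ME m (fun p => sgu p (u : ZMod m).val) f).map saw).sum
  rw [← h2, Multiset.map_map]
  rfl

/-- the group of the weight functions realized by congruence representations and twelfths, with
exponents satisfying a symmetric condition -/
def RG (P : ZMod m → Prop) (hP : ∀ a, P a → P (-a)) : AddSubgroup ((ZMod m)ˣ → ℤ) where
  carrier := {h | ∃ t w : Multiset (ZMod m), CRep m 1 t ∧ (∀ a ∈ w, 12 * a = 0) ∧
    (∀ a ∈ t + w, P a) ∧ ∀ u, hw (t + w) u = h u}
  zero_mem' := ⟨0, 0, crep_zero 1, fun a ha => absurd ha (Multiset.notMem_zero a),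
    fun a ha => absurd ha (by simp), fun u => by simp [hw]⟩
  add_mem' := by
    rintro h h' ⟨t, w, h1, h2, h3, h4⟩ ⟨t', w', h1', h2', h3', h4'⟩
    refine ⟨t + t', w + w', crep_add h1 h1', ?_, ?_, ?_⟩
    · intro a ha
      rcases Multiset.mem_add.mp ha with ha | ha
      · exact h2 a ha
      · exact h2' a ha
    · intro a ha
      have e : t + t' + (w + w') = (t + w) + (t' + w') := by abel
      rw [e] at ha
      rcases Multiset.mem_add.mp ha with ha | ha
      · exact h3 a ha
      · exact h3' a ha
    · intro u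
      have e : t + t' + (w + w') = (t + w) + (t' + w') := by abel
      rw [e, hw_add, h4, h4']
      rfl
  neg_mem' := by
    rintro h ⟨t, w, h1, h2, h3, h4⟩
    refine ⟨t.map Neg.neg, w.map Neg.neg, crep_neg h1, ?_, ?_, ?_⟩
    · intro a ha
      obtain ⟨b, hb, rfl⟩ := Multiset.mem_map.mp ha
      rw [mul_neg, h2 b hb, neg_zero]
    · intro a ha
      rw [← Multiset.map_add] at ha
      obtain ⟨b, hb, rfl⟩ := Multiset.mem_map.mp ha
      exact hP _ (h3 b hb)
    · intro u
      rw [← Multiset.map_add, hw_neg, h4]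
      rfl

lemma mem_RG {P : ZMod m → Prop} {hP : ∀ a, P a → P (-a)} {h : (ZMod m)ˣ → ℤ} :
    h ∈ RG P hP ↔ ∃ t w : Multiset (ZMod m), CRep m 1 t ∧
    (∀ a ∈ w, 12 * a = 0) ∧ (∀ a ∈ t + w, P a) ∧ ∀ u, hw (t + w) u = h u := Iff.rfl

lemma crep_one : CRep m 1 {0} := by
  refine ⟨1, Fin 1, inferInstance, inferInstance, 1, fun _ => 0, one_pos, fun _ _ => rfl, ?_, ?_, ?_⟩
  · simp
  · have e : (fun i : Fin 1 => em m ((fun _ => 0) i)) = fun _ => 1 := by
      funext _
      exact em_zero
    rw [e]
    simp
  · rfl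

lemma crep_ME {f : Finset ℕ} (hf : ∀ p ∈ f, Lv p ∧ p ∣ m) (h4 : 4 ∉ f) :
    CRep m 1 (ME m (fun _ => 1) f) := by
  induction f using Finset.induction_on with
  | empty => exact crep_one
  | insert q f hq ih =>
    have hq' := hf q (mem_insert_self q f)
    have h1 := ih (fun p hp => hf p (mem_insert_of_mem hp)) (fun h => h4 (mem_insert_of_mem h))
    rcases hq'.1 with rfl | ⟨hp, hp4⟩
    · exact absurd (mem_insert_self 4 f) h4
    · have : Fact q.Prime := ⟨hp⟩
      have h2 := crep_mul (crep_odd hp4 hq'.2) h1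
      rw [mul_one] at h2
      rw [ME_insert hq]
      exact h2

omit [NeZero m] in
lemma mprod_cons_zero (s t : Multiset (ZMod m)) : mprod (0 ::ₘ s) t = t + mprod s t := by
  unfold mprod
  rw [Multiset.cons_bind]
  simp

omit [NeZero m] in
lemma mprod_add (s t u : Multiset (ZMod m)) : mprod s (t + u) = mprod s t + mprod s u := by
  rw [mprod_comm s (t + u), mprod_comm s t, mprod_comm s u]
  unfold mprod
  rw [Multiset.add_bind]

/-- the representation with a factor at the level four -/
lemma crep_ME_four {f : Finset ℕ} {q : ℕ} (hq : q ∉ f) (hq4 : q ≠ 4) (h4 : 4 ∉ f)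
    (hqL : Lv q ∧ q ∣ m) (h4m : 4 ∣ m) (hf : ∀ p ∈ f, Lv p ∧ p ∣ m) :
    CRep m 1 (ME m (fun _ => 1) (insert 4 f) + ME m (fun _ => 1) (insert 4 (insert q f))) := by
  have hqf4 : 4 ∉ insert q f := by
    rw [mem_insert]
    rintro (h | h)
    · exact hq4 h.symm
    · exact h4 h
  have h1 := crep_ME hf h4
  rcases hqL.1 with h | ⟨hp, hp4⟩
  · exact absurd h hq4
  · have : Fact q.Prime := ⟨hp⟩
    have h2 := crep_mul (crep_four h4m) (crep_mul (crep_even hp4 hqL.2) h1)
    rw [mul_one, neg_mul_neg, one_mul, mprod_cons_zero, mprod_add] at h2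
    rw [ME_insert h4, ME_insert hqf4, ME_insert hq]
    exact h2

/-- **All the weight functions are realized.** -/
theorem ww_mem {P : ZMod m → Prop} {hP : ∀ a, P a → P (-a)} : ∀ (n : ℕ) {f : Finset ℕ},
    f.card ≤ n → (∀ p ∈ f, Lv p ∧ p ∣ m) →
    (∀ g ⊆ f, ∀ a : ZMod m, addOrderOf a = ∏ p ∈ g, p → P a) →
      (fun u => WW m f (cu u)) ∈ RG P hP := by
  intro n
  induction n with
  | zero =>
    intro f hn hf hD
    have h0 : f = ∅ := card_eq_zero.mp (Nat.le_zero.mp hn)
    subst h0
    have : (fun u : (ZMod m)ˣ => WW m ∅ (cu u)) = 0 := by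
      funext u
      unfold WW
      rw [ME_empty]
      simp [saw]
    rw [this]
    exact AddSubgroup.zero_mem _
  | succ n ih =>
    intro f hn hf hD
    have horder : ∀ g ⊆ f, ∀ a ∈ ME m (fun _ => 1) g, P a := by
      intro g hg a ha
      exact hD g hg a (ME_order (fun p hp => hf p (hg hp)) a ha)
    by_cases h4 : 4 ∈ f
    · -- with the level four
      obtain ⟨f', hf'4, rfl⟩ : ∃ f', 4 ∉ f' ∧ insert 4 f' = f :=
        ⟨f.erase 4, notMem_erase 4 f, insert_erase h4⟩
      have h4m := (hf 4 (mem_insert_self 4 f')).2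
      rcases f'.eq_empty_or_nonempty with rfl | ⟨q, hq⟩
      · refine mem_RG.mpr ⟨0, ME m (fun _ => 1) (insert 4 ∅), crep_zero 1, ?_, ?_, ?_⟩
        · intro a ha
          rw [ME_insert (notMem_empty 4), PE_four, ME_empty] at ha
          have e : mprod {((m / 4 : ℕ) : ZMod m)} {0} = {((m / 4 : ℕ) : ZMod m)} := by
            unfold mprod
            simp
          rw [e, Multiset.mem_singleton] at ha
          rw [ha]
          have h5 : (12 : ZMod m) * ((m / 4 : ℕ) : ZMod m) = ((3 * (4 * (m / 4)) : ℕ) : ZMod m) := by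
            push_cast; ring
          rw [h5, Nat.mul_div_cancel' h4m]
          simp
        · intro a ha
          rw [zero_add] at ha
          exact horder _ subset_rfl a ha
        · intro u
          rw [zero_add]
          exact hw_ME hf u
      · obtain ⟨f'', hqf, rfl⟩ : ∃ f'', q ∉ f'' ∧ insert q f'' = f' :=
          ⟨f'.erase q, notMem_erase q f', insert_erase hq⟩
        have hq4 : q ≠ 4 := by rintro rfl; exact hf'4 hq
        have hf''4 : 4 ∉ f'' := fun h => hf'4 (mem_insert_of_mem h)
        have hsub : insert 4 f'' ⊆ insert 4 (insert q f'') :=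
          insert_subset_insert 4 (subset_insert q f'')
        have hfs : ∀ p ∈ insert 4 f'', Lv p ∧ p ∣ m := fun p hp => hf p (hsub hp)
        have h1 : (fun u => WW m (insert 4 f'') (cu u)) ∈ RG P hP := by
          refine ih ?_ hfs fun g hg a ha => hD g (hg.trans hsub) a ha
          rw [card_insert_of_notMem hf'4, card_insert_of_notMem hqf] at hn
          rw [card_insert_of_notMem hf''4]
          omega
        have hc := crep_ME_four (m := m) hqf hq4 hf''4
          (hf q (mem_insert_of_mem (mem_insert_self q f''))) h4m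
          (fun p hp => hf p (mem_insert_of_mem (mem_insert_of_mem hp)))
        have h2 : (fun u => WW m (insert 4 f'') (cu u) +
            WW m (insert 4 (insert q f'')) (cu u)) ∈ RG P hP := by
          refine mem_RG.mpr ⟨_, 0, hc, fun a ha => absurd ha (Multiset.notMem_zero a), ?_, ?_⟩
          · intro a ha
            rw [add_zero] at ha
            rcases Multiset.mem_add.mp ha with ha | ha
            · exact horder _ hsub a ha
            · exact horder _ subset_rfl a ha
          · intro u
            rw [add_zero, hw_add, hw_ME hfs, hw_ME hf]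
        have h3 := AddSubgroup.sub_mem _ h2 h1
        have e : (fun u => WW m (insert 4 f'') (cu u) + WW m (insert 4 (insert q f'')) (cu u)) -
            (fun u : (ZMod m)ˣ => WW m (insert 4 f'') (cu u)) =
            fun u => WW m (insert 4 (insert q f'')) (cu u) := by
          funext u
          simp
        rw [e] at h3
        exact h3
    · refine mem_RG.mpr ⟨_, 0, crep_ME hf h4, fun a ha => absurd ha (Multiset.notMem_zero a), ?_, ?_⟩
      · intro a ha
        rw [add_zero] at ha
        exact horder _ subset_rfl a ha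
      · intro u
        rw [add_zero]
        exact hw_ME hf u

/-- **The exceptional relations are realized.** -/
theorem exists_top {S : Finset ℕ} (hS : ∀ p ∈ S, Lv p ∧ p ∣ m) (hne : S.Nonempty)
    (heven : Even S.card) : ∃ X w : Multiset (ZMod m), CRep m 1 (ME m (fun _ => 1) S + X) ∧
      (∀ a ∈ w, 12 * a = 0) ∧ (∀ u, hw (ME m (fun _ => 1) S + X + w) u = 0) ∧
      (∀ a ∈ X + w, addOrderOf a < ∏ p ∈ S, p ∧ addOrderOf a ∣ ∏ p ∈ S, p) := by
  classical
  set P : ZMod m → Prop := fun a => addOrderOf a < ∏ p ∈ S, p ∧ addOrderOf a ∣ ∏ p ∈ S, p with hPdef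
  have hP : ∀ a, P a → P (-a) := by
    intro a ha
    simp only [hPdef] at ha ⊢
    rwa [addOrderOf_neg]
  have hsubP : ∀ f ⊆ S, f ≠ S → ∀ g ⊆ f, ∀ a : ZMod m, addOrderOf a = ∏ p ∈ g, p → P a := by
    intro f hf hfne g hg a ha
    have hgS : g ⊆ S := hg.trans hf
    have hgne : g ≠ S := by
      rintro rfl
      exact hfne (subset_antisymm hf hg)
    simp only [hPdef]
    rw [ha]
    exact ⟨prod_lt (fun p hp => (hS p hp).1) hgS hgne, prod_dvd_prod_of_subset _ _ _ hgS⟩
  -- the combination
  have h1 : (fun u => WW m S (cu u)) ∈ RG P hP := by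
    have h2 := WW_comb (m := m) hS (subset_refl S) heven
    have key : ∀ g ∈ AddSubgroup.closure {h : (ℕ → ℤˣ) → ℤ | ∃ f ⊆ S, Odd f.card ∧ h = WW m f},
        (fun u : (ZMod m)ˣ => g (cu u)) ∈ RG P hP := by
      intro g hg
      induction hg using AddSubgroup.closure_induction with
      | mem g hg =>
        obtain ⟨f, hf, hodd, rfl⟩ := hg
        refine ww_mem f.card le_rfl (fun p hp => hS p (hf hp)) (hsubP f hf ?_)
        rintro rfl
        exact (Nat.not_odd_iff_even.mpr heven) hodd
      | zero => exact AddSubgroup.zero_mem _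
      | add x y _ _ hx hy => exact AddSubgroup.add_mem _ hx hy
      | neg x _ hx => exact AddSubgroup.neg_mem _ hx
    exact key _ h2
  -- the top part
  obtain ⟨X, hX, hX1, hX2⟩ : ∃ X : Multiset (ZMod m), CRep m 1 (ME m (fun _ => 1) S + X) ∧
      (∀ a ∈ X, P a) ∧ (fun u => hw X u) ∈ RG P hP := by
    by_cases h4 : 4 ∈ S
    · obtain ⟨f', hf'4, rfl⟩ : ∃ f', 4 ∉ f' ∧ insert 4 f' = S :=
        ⟨S.erase 4, notMem_erase 4 S, insert_erase h4⟩
      have h4m := (hS 4 (mem_insert_self 4 f')).2
      rcases f'.eq_empty_or_nonempty with rfl | ⟨q, hq⟩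
      · exfalso
        simp at heven
      · obtain ⟨f'', hqf, rfl⟩ : ∃ f'', q ∉ f'' ∧ insert q f'' = f' :=
          ⟨f'.erase q, notMem_erase q f', insert_erase hq⟩
        have hq4 : q ≠ 4 := by rintro rfl; exact hf'4 hq
        have hf''4 : 4 ∉ f'' := fun h => hf'4 (mem_insert_of_mem h)
        have hsub : insert 4 f'' ⊆ insert 4 (insert q f'') :=
          insert_subset_insert 4 (subset_insert q f'')
        have hnes : insert 4 f'' ≠ insert 4 (insert q f'') := by
          intro h
          have : q ∈ insert 4 f'' := by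
            rw [h]
            exact mem_insert_of_mem (mem_insert_self q f'')
          rcases mem_insert.mp this with h | h
          · exact hq4 h
          · exact hqf h
        have hfs : ∀ p ∈ insert 4 f'', Lv p ∧ p ∣ m := fun p hp => hS p (hsub hp)
        have hc := crep_ME_four (m := m) hqf hq4 hf''4
          (hS q (mem_insert_of_mem (mem_insert_self q f''))) h4m
          (fun p hp => hS p (mem_insert_of_mem (mem_insert_of_mem hp)))
        rw [add_comm] at hc
        refine ⟨ME m (fun _ => 1) (insert 4 f''), hc, ?_, ?_⟩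
        · intro a ha
          exact hsubP _ hsub hnes _ subset_rfl a (ME_order hfs a ha)
        · have h5 := ww_mem (m := m) (hP := hP) _ le_rfl hfs (hsubP _ hsub hnes)
          have e : (fun u => hw (ME m (fun _ => 1) (insert 4 f'')) u) =
              fun u => WW m (insert 4 f'') (cu u) := by
            funext u
            exact hw_ME hfs u
          rw [e]
          exact h5
    · refine ⟨0, by rw [add_zero]; exact crep_ME hS h4,
        fun a ha => absurd ha (Multiset.notMem_zero a), ?_⟩
      have e : (fun u : (ZMod m)ˣ => hw (0 : Multiset (ZMod m)) u) = 0 := by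
        funext u
        simp [hw]
      rw [e]
      exact AddSubgroup.zero_mem _
  -- the correction
  have h3 : -((fun u => WW m S (cu u)) + fun u => hw X u) ∈ RG P hP :=
    AddSubgroup.neg_mem _ (AddSubgroup.add_mem _ h1 hX2)
  obtain ⟨t1, w1, ht1, hw1, ho1, he1⟩ := mem_RG.mp h3
  refine ⟨X + t1, w1, by rw [← add_assoc]; exact crep_add hX ht1, hw1, ?_, ?_⟩
  · intro u
    rw [← add_assoc, add_assoc _ t1 w1, hw_add, he1 u, hw_add, hw_ME hS]
    simp
  · intro a ha
    rw [add_assoc] at ha
    rcases Multiset.mem_add.mp ha with ha | ha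
    · exact hX1 a ha
    · exact ho1 a ha

end Weights

end Pool.Agent.Q59.MC
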