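import Pool.Agent.Q59.MC.Ker

/-!
# Representations of `SL_2(ℤ)` which factor through a congruence quotient
-/

namespace Pool.Agent.Q59.MC

open Finset Matrix MatrixGroups Kronecker

/-- the root of unity `exp (2 π i a / m)` -/
noncomputable def em (m : ℕ) (a : ZMod m) : ℂ :=
  Complex.exp (2 * Real.pi * Complex.I * a.val / m)

section Em

variable {m : ℕ} [NeZero m]

lemma em_eq (a : ZMod m) : em m a = ZMod.stdAddChar a := by
  have h := ZMod.stdAddChar_coe (N := m) (a.val : ℤ)
  have e : (((a.val : ℕ) : ℤ) : ZMod m) = a := by simp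
  rw [e] at h
  rw [h]
  unfold em
  push_cast
  rfl

lemma em_add (a b : ZMod m) : em m (a + b) = em m a * em m b := by
  rw [em_eq, em_eq, em_eq, AddChar.map_add_eq_mul]

lemma em_zero : em m 0 = 1 := by
  rw [em_eq, AddChar.map_zero_eq_one]

lemma em_neg (a : ZMod m) : em m (-a) = star (em m a) := by
  rw [em_eq, em_eq]
  exact AddChar.map_neg_eq_conj _ _

/-- change of the level -/
lemma em_level {p : ℕ} [NeZero p] (h : p ∣ m) (a : ℕ) :
    em m (((m / p * a : ℕ) : ZMod m)) = em p (a : ZMod p) := by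
  rw [em_eq, em_eq]
  have h1 := ZMod.stdAddChar_coe (N := m) ((m / p * a : ℕ) : ℤ)
  have h2 := ZMod.stdAddChar_coe (N := p) (a : ℤ)
  rw [Int.cast_natCast] at h1 h2
  rw [h1, h2]
  congr 1
  obtain ⟨k, hk⟩ := h
  have hp : (p : ℂ) ≠ 0 := by exact_mod_cast NeZero.ne p
  have hm : m ≠ 0 := NeZero.ne m
  have hk0 : (k : ℂ) ≠ 0 := by
    intro h
    apply hm
    have : k = 0 := by exact_mod_cast h
    rw [hk, this, mul_zero]
  have e : m / p = k := by rw [hk]; exact Nat.mul_div_cancel_left _ (NeZero.pos p)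
  rw [e, hk]
  push_cast
  field_simp

end Em

/-- `t` is the multiset of the exponents at the cusp of a representation of `SL_2(ℤ)` which is trivial on a
congruence subgroup, has a diagonal value at `T` and takes the value `eps` at `-1`. -/
def CRep (m : ℕ) (eps : ℂ) (t : Multiset (ZMod m)) : Prop :=
  ∃ (N : ℕ) (ι : Type) (_ : Fintype ι) (_ : DecidableEq ι) (ρ : SL(2, ℤ) →* Matrix ι ι ℂ)
    (f : ι → ZMod m), 0 < N ∧ (∀ γ ∈ CongruenceSubgroup.Gamma N, ρ γ = 1) ∧
    ρ (-1) = eps • (1 : Matrix ι ι ℂ) ∧ ρ ModularGroup.T = diagonal (fun i => em m (f i)) ∧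
    t = univ.val.map f

lemma gamma_le {N M : ℕ} (h : N ∣ M) {γ : SL(2, ℤ)} (hγ : γ ∈ CongruenceSubgroup.Gamma M) :
    γ ∈ CongruenceSubgroup.Gamma N := by
  rw [CongruenceSubgroup.Gamma_mem] at hγ ⊢
  have key : ∀ x y : ℤ, ((x : ℤ) : ZMod M) = (y : ZMod M) → ((x : ℤ) : ZMod N) = (y : ZMod N) := by
    intro x y hxy
    rw [ZMod.intCast_eq_intCast_iff] at hxy ⊢
    exact hxy.of_dvd (by exact_mod_cast h)
  obtain ⟨h1, h2, h3, h4⟩ := hγ
  refine ⟨?_, ?_, ?_, ?_⟩
  · have := key (γ 0 0) 1 (by simpa using h1); simpa using this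
  · have := key (γ 0 1) 0 (by simpa using h2); simpa using this
  · have := key (γ 1 0) 0 (by simpa using h3); simpa using this
  · have := key (γ 1 1) 1 (by simpa using h4); simpa using this

section Closure

variable {m : ℕ}

lemma crep_zero (eps : ℂ) : CRep m eps 0 := by
  refine ⟨1, Fin 0, inferInstance, inferInstance, 1, Fin.elim0, one_pos, fun _ _ => rfl, ?_, ?_, ?_⟩
  · ext i; exact i.elim0
  · ext i; exact i.elim0
  · rfl

lemma crep_add {eps : ℂ} {t t' : Multiset (ZMod m)} (h : CRep m eps t) (h' : CRep m eps t') :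
    CRep m eps (t + t') := by
  obtain ⟨N, ι, _, _, ρ, f, hN, h1, h2, h3, h4⟩ := h
  obtain ⟨N', ι', _, _, ρ', f', hN', h1', h2', h3', h4'⟩ := h'
  refine ⟨N * N', ι ⊕ ι', inferInstance, inferInstance,
    { toFun := fun γ => fromBlocks (ρ γ) 0 0 (ρ' γ)
      map_one' := by rw [map_one, map_one, fromBlocks_one]
      map_mul' := fun x y => by
        rw [map_mul, map_mul, fromBlocks_multiply]
        simp }, Sum.elim f f', Nat.mul_pos hN hN', ?_, ?_, ?_, ?_⟩
  · intro γ hγ
    change fromBlocks (ρ γ) 0 0 (ρ' γ) = 1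
    rw [h1 γ (gamma_le (dvd_mul_right N N') hγ), h1' γ (gamma_le (dvd_mul_left N' N) hγ),
      fromBlocks_one]
  · change fromBlocks (ρ (-1)) 0 0 (ρ' (-1)) = _
    rw [h2, h2', ← fromBlocks_one, fromBlocks_smul, smul_zero, smul_zero]
  · change fromBlocks (ρ ModularGroup.T) 0 0 (ρ' ModularGroup.T) = _
    rw [h3, h3', fromBlocks_diagonal]
    congr 1
    funext i
    rcases i with i | i <;> rfl
  · rw [h4, h4']
    have : (univ : Finset (ι ⊕ ι')) = univ.disjSum univ := rfl
    rw [this, Finset.val_disjSum, Multiset.disjSum, Multiset.map_add, Multiset.map_map,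
      Multiset.map_map]
    rfl

/-- the multiset of the sums -/
def mprod (s t : Multiset (ZMod m)) : Multiset (ZMod m) := s.bind fun a => t.map fun b => a + b

variable [NeZero m]

lemma crep_mul {eps eps' : ℂ} {t t' : Multiset (ZMod m)} (h : CRep m eps t) (h' : CRep m eps' t') :
    CRep m (eps * eps') (mprod t t') := by
  obtain ⟨N, ι, _, _, ρ, f, hN, h1, h2, h3, h4⟩ := h
  obtain ⟨N', ι', _, _, ρ', f', hN', h1', h2', h3', h4'⟩ := h'
  refine ⟨N * N', ι × ι', inferInstance, inferInstance,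
    { toFun := fun γ => ρ γ ⊗ₖ ρ' γ
      map_one' := by rw [map_one, map_one, one_kronecker_one]
      map_mul' := fun x y => by rw [map_mul, map_mul, mul_kronecker_mul] },
    fun i => f i.1 + f' i.2, Nat.mul_pos hN hN', ?_, ?_, ?_, ?_⟩
  · intro γ hγ
    change ρ γ ⊗ₖ ρ' γ = 1
    rw [h1 γ (gamma_le (dvd_mul_right N N') hγ), h1' γ (gamma_le (dvd_mul_left N' N) hγ),
      one_kronecker_one]
  · change ρ (-1) ⊗ₖ ρ' (-1) = _
    rw [h2, h2', smul_kronecker, kronecker_smul, one_kronecker_one, smul_smul]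
  · change ρ ModularGroup.T ⊗ₖ ρ' ModularGroup.T = _
    rw [h3, h3', diagonal_kronecker_diagonal]
    congr 1
    funext i
    exact (em_add _ _).symm
  · rw [h4, h4']
    unfold mprod
    have : (univ : Finset (ι × ι')) = univ ×ˢ univ := rfl
    rw [this, Finset.product_val, Multiset.bind_map]
    change _ = Multiset.map (fun i : ι × ι' => f i.1 + f' i.2)
      (Multiset.bind (univ : Finset ι).val fun a => Multiset.map (Prod.mk a) (univ : Finset ι').val)
    rw [Multiset.map_bind]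
    simp only [Multiset.map_map]
    rfl

lemma crep_neg {t : Multiset (ZMod m)} (h : CRep m 1 t) : CRep m 1 (t.map Neg.neg) := by
  obtain ⟨N, ι, _, _, ρ, f, hN, h1, h2, h3, h4⟩ := h
  refine ⟨N, ι, inferInstance, inferInstance,
    ((starRingEnd ℂ).mapMatrix : Matrix ι ι ℂ →+* Matrix ι ι ℂ).toMonoidHom.comp ρ,
    fun i => - f i, hN, ?_, ?_, ?_, ?_⟩
  · intro γ hγ
    change (starRingEnd ℂ).mapMatrix (ρ γ) = 1
    rw [h1 γ hγ, map_one]
  · change (starRingEnd ℂ).mapMatrix (ρ (-1)) = _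
    rw [h2, one_smul, map_one]
  · change (starRingEnd ℂ).mapMatrix (ρ ModularGroup.T) = _
    rw [h3, RingHom.mapMatrix_apply, diagonal_map (map_zero _)]
    congr 1
    funext i
    exact (em_neg (f i)).symm
  · rw [h4, Multiset.map_map]
    rfl

end Closure

end Pool.Agent.Q59.MC
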