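import Pool.Agent.Q59.MC.Four
import Pool.Agent.Q59.RL.Hodge

/-!
# The exponents of the products, and their weights
-/

namespace Pool.Agent.Q59.MC

open Finset Pool.Agent.H916R2

section Prod

variable {m : ℕ}

lemma mprod_comm (s t : Multiset (ZMod m)) : mprod s t = mprod t s := by
  unfold mprod
  rw [Multiset.bind_map_comm]
  refine Multiset.bind_congr fun a _ => Multiset.map_congr rfl fun b _ => add_comm _ _

lemma mprod_assoc (s t u : Multiset (ZMod m)) : mprod (mprod s t) u = mprod s (mprod t u) := by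
  unfold mprod
  rw [Multiset.bind_assoc]
  refine Multiset.bind_congr fun a _ => ?_
  rw [Multiset.bind_map, Multiset.map_bind]
  refine Multiset.bind_congr fun b _ => ?_
  rw [Multiset.map_map]
  refine Multiset.map_congr rfl fun c _ => ?_
  simp only [Function.comp_apply, add_assoc]

instance : Std.Commutative (mprod (m := m)) := ⟨mprod_comm⟩
instance : Std.Associative (mprod (m := m)) := ⟨mprod_assoc⟩

lemma mprod_sum {Q : Type*} [AddCommMonoid Q] (C : ZMod m → Q) (s t : Multiset (ZMod m)) :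
    ((mprod s t).map C).sum = (s.map fun a => (t.map fun b => C (a + b)).sum).sum := by
  unfold mprod
  rw [Multiset.map_bind, Multiset.sum_bind]
  congr 1
  refine Multiset.map_congr rfl fun a _ => ?_
  rw [Multiset.map_map]
  rfl

lemma mprod_sum' {Q : Type*} [AddCommMonoid Q] (C : ZMod m → Q) (s t : Multiset (ZMod m)) :
    ((mprod s t).map C).sum = (t.map fun b => (s.map fun a => C (a + b)).sum).sum := by
  rw [mprod_comm, mprod_sum]
  congr 1
  refine Multiset.map_congr rfl fun a _ => ?_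
  congr 1
  exact Multiset.map_congr rfl fun b _ => by rw [add_comm]

lemma mprod_map (s t : Multiset (ZMod m)) (k : ZMod m) :
    (mprod s t).map (k * ·) = mprod (s.map (k * ·)) (t.map (k * ·)) := by
  unfold mprod
  rw [Multiset.map_bind, Multiset.bind_map]
  refine Multiset.bind_congr fun a _ => ?_
  rw [Multiset.map_map, Multiset.map_map]
  refine Multiset.map_congr rfl fun b _ => ?_
  simp only [Function.comp_apply, mul_add]

/-- the exponents of the product over `f` with the signs `ζ` -/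
def ME (m : ℕ) (ζ : ℕ → ℤˣ) (f : Finset ℕ) : Multiset (ZMod m) :=
  f.fold mprod {0} fun p => PE m p (ζ p)

lemma ME_empty (ζ : ℕ → ℤˣ) : ME m ζ ∅ = {0} := rfl

lemma ME_insert {ζ : ℕ → ℤˣ} {f : Finset ℕ} {q : ℕ} (hq : q ∉ f) :
    ME m ζ (insert q f) = mprod (PE m q (ζ q)) (ME m ζ f) := by
  unfold ME
  rw [fold_insert hq]

lemma ME_congr {ζ ζ' : ℕ → ℤˣ} {f : Finset ℕ} (h : ∀ p ∈ f, ζ p = ζ' p) :
    ME m ζ f = ME m ζ' f := by
  unfold ME
  exact fold_congr fun p hp => by rw [h p hp]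

end Prod

/-- the levels: `4` and the primes congruent to `3` modulo `4` -/
def Lv (p : ℕ) : Prop := p = 4 ∨ (p.Prime ∧ p % 4 = 3)

/-- the sign as a unit -/
def sgu (p a : ℕ) : ℤˣ := if sgn p a = -1 then -1 else 1

section Sign

lemma sgn_mul (p a b : ℕ) : sgn p (a * b) = sgn p a * sgn p b := by
  unfold sgn
  split_ifs
  · push_cast; rw [map_mul]
  · push_cast; rw [jacobiSym.mul_left]

lemma sgn_mod {p : ℕ} (hp : p ≠ 0) (a : ℕ) : sgn p (a % p) = sgn p a := by
  unfold sgn
  split_ifs with h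
  · subst h
    rw [ZMod.natCast_mod]
  · rw [Int.natCast_mod, ← jacobiSym.mod_left]

lemma Lv.pos {p : ℕ} (h : Lv p) : 0 < p := by
  rcases h with h | h
  · omega
  · exact h.1.pos

lemma sgn_dich {p a : ℕ} (hp : Lv p) (ha : a.Coprime p) : sgn p a = 1 ∨ sgn p a = -1 := by
  rcases hp with rfl | ⟨hp, hp4⟩
  · unfold sgn
    rw [if_pos rfl]
    have h1 : a % 4 = 1 ∨ a % 4 = 3 := by
      have : ¬ 2 ∣ a := by
        intro h
        have h2 := Nat.dvd_gcd h (show 2 ∣ 4 by norm_num)
        rw [ha] at h2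
        norm_num at h2
      omega
    rcases h1 with h1 | h1
    · left; exact ZMod.χ₄_nat_one_mod_four h1
    · right; exact ZMod.χ₄_nat_three_mod_four h1
  · have : Fact p.Prime := ⟨hp⟩
    rw [sgn_eq hp4]
    refine quadraticChar_dichotomy ?_
    rw [Ne, ZMod.natCast_eq_zero_iff]
    exact (Nat.Prime.coprime_iff_not_dvd hp).mp ha.symm

lemma sgn_zero {p : ℕ} (hp : Lv p) : sgn p 0 = 0 := by
  rcases hp with rfl | ⟨hp, hp4⟩
  · decide
  · have : Fact p.Prime := ⟨hp⟩
    rw [sgn_eq hp4, Nat.cast_zero, MulChar.map_zero]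

lemma coprime_of_sgn {p a : ℕ} (hp : Lv p) (h : sgn p a ≠ 0) : a.Coprime p := by
  rcases hp with rfl | ⟨hp, hp4⟩
  · by_contra hcon
    have h2 : 2 ∣ a := by
      by_contra h2
      apply hcon
      have h3 : Nat.Coprime a 2 :=
        Nat.coprime_comm.mp ((Nat.Prime.coprime_iff_not_dvd Nat.prime_two).mpr h2)
      exact Nat.Coprime.pow_right 2 h3
    apply h
    unfold sgn
    rw [if_pos rfl]
    rw [ZMod.χ₄_nat_eq_if_mod_four, if_pos]
    omega
  · have : Fact p.Prime := ⟨hp⟩
    rw [sgn_eq hp4] at h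
    rw [Nat.coprime_comm, Nat.Prime.coprime_iff_not_dvd hp]
    intro h1
    apply h
    rw [(ZMod.natCast_eq_zero_iff a p).mpr h1, MulChar.map_zero]

lemma sgu_coe {p a : ℕ} (hp : Lv p) (ha : a.Coprime p) : ((sgu p a : ℤˣ) : ℤ) = sgn p a := by
  unfold sgu
  rcases sgn_dich hp ha with h | h
  · rw [h]; simp
  · rw [h]; simp

lemma sgn_sub {p a : ℕ} (hp : Lv p) (ha : a < p) (h0 : a ≠ 0) : sgn p (p - a) = - sgn p a := by
  rcases hp with rfl | ⟨hp, hp4⟩
  · interval_cases a
    · exact absurd rfl h0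
    · decide
    · decide
    · decide
  · have : Fact p.Prime := ⟨hp⟩
    rw [sgn_eq hp4, sgn_eq hp4, ← quad_neg hp4]
    congr 1
    rw [Nat.cast_sub ha.le]
    simp

end Sign

section Mul

variable {m : ℕ} [NeZero m]

/-- multiplication by `k` permutes the residues of given signs -/
lemma RS_mul {p k : ℕ} (hp : Lv p) (hk : k.Coprime p) (s : ℤˣ) :
    (RS p s).image (fun a => (k * a) % p) = RS p (sgu p k * s) := by
  have hinj : Set.InjOn (fun a => (k * a) % p) (RS p s : Set ℕ) := by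
    intro a ha b hb hab
    have ha' := mem_range.mp (mem_filter.mp (mem_coe.mp ha)).1
    have hb' := mem_range.mp (mem_filter.mp (mem_coe.mp hb)).1
    have h1 : k * a ≡ k * b [MOD p] := hab
    have h2 := Nat.ModEq.cancel_left_of_coprime (by rwa [Nat.gcd_comm]) h1
    exact Nat.ModEq.eq_of_lt_of_lt h2 ha' hb'
  have hsub : ∀ (k : ℕ) (s : ℤˣ), k.Coprime p →
      (RS p s).image (fun a => (k * a) % p) ⊆ RS p (sgu p k * s) := by
    intro k s hk c hc
    obtain ⟨a, ha, rfl⟩ := mem_image.mp hc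
    unfold RS at ha ⊢
    rw [mem_filter, mem_range] at ha ⊢
    refine ⟨Nat.mod_lt _ hp.pos, ?_⟩
    rw [sgn_mod hp.pos.ne', sgn_mul, ha.2, Units.val_mul, sgu_coe hp hk]
  refine Subset.antisymm (hsub k s hk) ?_
  intro c hc
  -- the inverse of `k`
  obtain ⟨k', hk', hkk⟩ : ∃ k', k'.Coprime p ∧ k * k' % p = 1 % p := by
    by_cases hp1 : p = 1
    · exact ⟨1, by rw [hp1]; exact Nat.coprime_one_right 1, by rw [hp1, Nat.mod_one, Nat.mod_one]⟩
    · obtain ⟨k', hk'⟩ := Nat.exists_mul_mod_eq_one_of_coprime hk (by have := hp.pos; omega)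
      refine ⟨k', ?_, ?_⟩
      · have h1 : k * k' ≡ 1 [MOD p] := by
          unfold Nat.ModEq
          rw [hk'.2, Nat.mod_eq_of_lt (by have := hp.pos; omega)]
        have h2 : (k * k').Coprime p := by
          have := h1.gcd_eq
          rw [Nat.gcd_one_left, Nat.gcd_comm] at this
          rw [Nat.coprime_iff_gcd_eq_one, Nat.gcd_comm]
          exact this
        exact Nat.Coprime.coprime_mul_left h2
      · rw [hk'.2, Nat.mod_eq_of_lt (by have := hp.pos; omega)]
  have hsg : sgu p k' * (sgu p k * s) = s := by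
    have h1 : ((sgu p k' * sgu p k : ℤˣ) : ℤ) = 1 := by
      rw [Units.val_mul, sgu_coe hp hk', sgu_coe hp hk, ← sgn_mul, ← sgn_mod hp.pos.ne',
        mul_comm k' k, hkk, sgn_mod hp.pos.ne']
      have h2 : sgn p (1 * 1) = sgn p 1 * sgn p 1 := sgn_mul p 1 1
      rcases sgn_dich hp (Nat.coprime_one_left p) with h3 | h3
      · exact h3
      · rw [mul_one, h3] at h2
        norm_num at h2
    have h4 : sgu p k' * sgu p k = 1 := Units.ext (by rw [h1]; rfl)
    rw [← mul_assoc, h4, one_mul]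
  have hmem := hsub k' _ hk' (mem_image_of_mem _ hc)
  rw [hsg] at hmem
  refine mem_image.mpr ⟨_, hmem, ?_⟩
  have hc' := mem_range.mp (mem_filter.mp hc).1
  have h1 : k * (k' * c % p) % p = (k * k' % p) * c % p := by
    rw [Nat.mul_mod, Nat.mod_mod, ← Nat.mul_mod, ← mul_assoc, Nat.mul_mod (k * k') c,
      Nat.mul_mod (k * k' % p) c, Nat.mod_mod]
  rw [h1, hkk, Nat.mul_mod, Nat.mod_mod, ← Nat.mul_mod, one_mul, Nat.mod_eq_of_lt hc']

omit [NeZero m] in
lemma PE_mul {p k : ℕ} (hp : Lv p) (hpm : p ∣ m) (hk : k.Coprime p) (s : ℤˣ) :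
    (PE m p s).map ((k : ZMod m) * ·) = PE m p (sgu p k * s) := by
  have hinj : Set.InjOn (fun a => (k * a) % p) (RS p s : Set ℕ) := by
    intro a ha b hb hab
    have ha' := mem_range.mp (mem_filter.mp (mem_coe.mp ha)).1
    have hb' := mem_range.mp (mem_filter.mp (mem_coe.mp hb)).1
    have h1 : k * a ≡ k * b [MOD p] := hab
    have h2 := Nat.ModEq.cancel_left_of_coprime (by rwa [Nat.gcd_comm]) h1
    exact Nat.ModEq.eq_of_lt_of_lt h2 ha' hb'
  unfold PE
  rw [← RS_mul hp hk s, image_val_of_injOn hinj, Multiset.map_map, Multiset.map_map]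
  refine Multiset.map_congr rfl fun a _ => ?_
  simp only [Function.comp_apply]
  have h1 : (m / p) * p = m := Nat.div_mul_cancel hpm
  have h2 : m / p * (k * a % p) ≡ k * (m / p * a) [MOD m] := by
    have h3 : k * (m / p * a) = m / p * (k * a % p) + m * (k * a / p) := by
      conv_lhs => rw [show k * (m / p * a) = m / p * (k * a) by ring,
        ← Nat.mod_add_div (k * a) p]
      rw [mul_add, ← mul_assoc, h1]
    rw [h3]
    unfold Nat.ModEq
    rw [Nat.add_mul_mod_self_left]
  rw [← Nat.cast_mul]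
  exact ((ZMod.natCast_eq_natCast_iff _ _ _).mpr h2).symm

omit [NeZero m] in
lemma ME_mul {k : ℕ} {ζ : ℕ → ℤˣ} {f : Finset ℕ} (hf : ∀ p ∈ f, Lv p ∧ p ∣ m ∧ k.Coprime p) :
    (ME m ζ f).map ((k : ZMod m) * ·) = ME m (fun p => sgu p k * ζ p) f := by
  induction f using Finset.induction_on with
  | empty => simp [ME_empty]
  | insert q f hq ih =>
    have hq' := hf q (mem_insert_self q f)
    rw [ME_insert hq, ME_insert hq, mprod_map, PE_mul hq'.1 hq'.2.1 hq'.2.2,
      ih fun p hp => hf p (mem_insert_of_mem hp)]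

lemma RS_neg {p : ℕ} (hp : Lv p) (s : ℤˣ) : (RS p s).image (fun a => p - a) = RS p (-s) := by
  have hs0 : ∀ s : ℤˣ, ∀ a ∈ RS p s, a ≠ 0 := by
    rintro s a ha rfl
    have h1 := (mem_filter.mp ha).2
    rw [sgn_zero hp] at h1
    exact s.ne_zero h1.symm
  have hsub : ∀ s : ℤˣ, (RS p s).image (fun a => p - a) ⊆ RS p (-s) := by
    intro s c hc
    obtain ⟨a, ha, rfl⟩ := mem_image.mp hc
    have ha0 := hs0 s a ha
    unfold RS at ha ⊢
    rw [mem_filter, mem_range] at ha ⊢
    refine ⟨by omega, ?_⟩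
    rw [sgn_sub hp ha.1 ha0, ha.2]
    simp
  refine Subset.antisymm (hsub s) fun c hc => ?_
  have h1 := hsub (-s) (mem_image_of_mem _ hc)
  rw [neg_neg] at h1
  refine mem_image.mpr ⟨_, h1, ?_⟩
  have hc' := mem_range.mp (mem_filter.mp hc).1
  have hc0 := hs0 _ c hc
  change p - (p - c) = c
  omega

omit [NeZero m] in
lemma PE_neg {p : ℕ} (hp : Lv p) (hpm : p ∣ m) (s : ℤˣ) :
    (PE m p s).map (fun a => - a) = PE m p (-s) := by
  have hinj : Set.InjOn (fun a => p - a) (RS p s : Set ℕ) := by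
    intro a ha b hb hab
    have ha' := mem_range.mp (mem_filter.mp (mem_coe.mp ha)).1
    have hb' := mem_range.mp (mem_filter.mp (mem_coe.mp hb)).1
    simp only at hab
    omega
  unfold PE
  rw [← RS_neg hp s, image_val_of_injOn hinj, Multiset.map_map, Multiset.map_map]
  refine Multiset.map_congr rfl fun a ha => ?_
  have ha' := mem_range.mp (mem_filter.mp ha).1
  simp only [Function.comp_apply]
  rw [neg_eq_iff_add_eq_zero, ← Nat.cast_add, ← mul_add, Nat.add_sub_cancel' ha'.le,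
    Nat.div_mul_cancel hpm]
  simp

omit [NeZero m] in
lemma mprod_neg (s t : Multiset (ZMod m)) :
    (mprod s t).map (fun a => - a) = mprod (s.map fun a => - a) (t.map fun a => - a) := by
  have h := mprod_map s t (-1)
  simpa using h

omit [NeZero m] in
lemma ME_neg {ζ : ℕ → ℤˣ} {f : Finset ℕ} (hf : ∀ p ∈ f, Lv p ∧ p ∣ m) :
    (ME m ζ f).map (fun a => - a) = ME m (fun p => - ζ p) f := by
  induction f using Finset.induction_on with
  | empty => simp [ME_empty]
  | insert q f hq ih =>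
    have hq' := hf q (mem_insert_self q f)
    rw [ME_insert hq, ME_insert hq, mprod_neg, PE_neg hq'.1 hq'.2,
      ih fun p hp => hf p (mem_insert_of_mem hp)]

/-- the weights -/
def WW (m : ℕ) [NeZero m] (f : Finset ℕ) (ζ : ℕ → ℤˣ) : ℤ := ((ME m ζ f).map saw).sum

lemma WW_neg {ζ : ℕ → ℤˣ} {f : Finset ℕ} (hf : ∀ p ∈ f, Lv p ∧ p ∣ m) :
    WW m f (fun p => - ζ p) = - WW m f ζ := by
  unfold WW
  rw [← ME_neg hf, Multiset.map_map, ← Multiset.sum_map_neg', Multiset.map_map]
  congr 1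
  exact Multiset.map_congr rfl fun a _ => saw_neg (m := m) a

lemma WW_congr {ζ ζ' : ℕ → ℤˣ} {f : Finset ℕ} (h : ∀ p ∈ f, ζ p = ζ' p) :
    WW m f ζ = WW m f ζ' := by
  unfold WW
  rw [ME_congr h]

end Mul

end Pool.Agent.Q59.MC
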