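import Pool.Agent.Q59.RL.Hodge

/-!
# Statements of the lemma jobs of project MC (major 313)
-/

namespace Pool.Agent.Q59.MC

open Finset Pool.Agent.H916R2 Pool.Agent.Q59.FS Pool.Agent.Q59.RL

/-- JOB COMB. A combinatorial lemma about functions of sign vectors.

Write `ζ ^ f = ∏ p ∈ f, ζ p`, `κ f q = ((∏ p ∈ f, al q p) - (∏ p ∈ f, be q p)) / 2` (an integer, the two
products are `1` or `-1`) and `c S f = ∏ q ∈ S \ f, κ f q`, so `c f f = 1` and
`c S f = κ f q * c (S.erase q) f` for `q ∈ S \ f`.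

Step 1: `U S = W S 1 - ∑ f ⊂ S, |f| odd, c S f * U f` (recursion; or prove the existence of `U` by
induction).  Claim: for all `S ⊆ P` and all `ζ`:
`W S ζ = ∑ f ⊆ S, |f| odd, c S f * ζ ^ f * U f`.
Proof by strong induction on `S`. Put `R ζ = W S ζ - ∑ f ⊂ S, |f| odd, c S f * ζ ^ f * U f`. For `q ∈ S` let
`ζ'` be `ζ` flipped at `q`. Then `R ζ + R ζ' = 0`: `ζ ^ f + ζ' ^ f` is `0` if `q ∈ f` and `2 ζ ^ f` if not, so the
sum contributes `∑ f ⊆ S.erase q, |f| odd, 2 κ f q c (S.erase q) f ζ ^ f U f`; and by the hypothesis and the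
induction hypothesis for `S.erase q` (with `(al q * ζ) ^ f = al q ^ f * ζ ^ f`) the number `W S ζ + W S ζ'` is the same
sum. Hence `R ζ = ζ ^ S * R 1` (flip the elements of `S` with `ζ p = -1` one after the other; `R` depends only
on the restriction to `S`) and `R 1 = U S`. If `|S|` is odd this is the claim. If `|S|` is even: `R (-ζ) = - R ζ`
(oddness of `W`, `|f|` odd), but `(-ζ) ^ S = ζ ^ S`, so `R = 0`.

Step 2: for odd `|f|` the function `ζ ↦ ζ ^ f * U f` lies in the group generated by the `W g`, `g ⊆ f`, `|g|` odd: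
strong induction, `ζ ^ f U f = W f ζ - ∑ g ⊂ f, |g| odd, c f g ζ ^ g U g`. Now use Step 1 for `S` with `|S|` even. -/
def S_Comb : Prop :=
  ∀ (P : Finset ℕ) (W : Finset ℕ → (ℕ → ℤˣ) → ℤ) (al be : ℕ → ℕ → ℤˣ),
    (∀ S ⊆ P, ∀ ζ ζ' : ℕ → ℤˣ, (∀ p ∈ S, ζ p = ζ' p) → W S ζ = W S ζ') →
    (∀ S ⊆ P, ∀ ζ : ℕ → ℤˣ, W S (fun p => - ζ p) = - W S ζ) →
    (∀ S ⊆ P, ∀ q ∈ S, ∀ ζ : ℕ → ℤˣ, W S ζ + W S (Function.update ζ q (- ζ q)) =
      W (S.erase q) (fun p => al q p * ζ p) - W (S.erase q) (fun p => be q p * ζ p)) →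
    ∀ S ⊆ P, Even S.card →
      W S ∈ AddSubgroup.closure {h : (ℕ → ℤˣ) → ℤ | ∃ f ⊆ S, Odd f.card ∧ h = W f}

/-- JOB DET. Detection by parity and induction on the order.

Step 1: if `GG m d`, `R * d = m`, and `Tr (-1 : (ZMod d)ˣ) 1 ⊥ (PL d) X` then `∑ u, X u` is even. Indeed
`X u = i u + (z u + 1 * z (-1 * u))`, the `z` part contributes `2 ∑ z`; `dec_of_II (ind_PL d)` writes `i` as a
sum of functions invariant under the groups `KL d p`, `p ∣ d` prime, and each such group has even order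
(`KL_eq_KK`, `card_KK_not_dvd`: `p - 1` for `p` odd; `card_KK_dvd`: `2` for `p = 2`, as `4 ∣ d` by `Gd d`), so the sum
over `(ZMod d)ˣ` of a function invariant under it is even.

Step 2: `TD c D = ⊥` by induction on `D`: `TD_zero`; for the step copy the proof of `TD_succ` (file
`Pool/Agent/Q59/RL/Tors.lean`): if not `GG m (D+1)` then `TD_succ.1`; otherwise take the `x'` of the
hypothesis for `d = D + 1`; `classes.1` gives for a relation `x`: `Tr x`, or `Tr x'` (excluded by Step 1 and the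
hypothesis, with `sum_order` to pass from the elements of order `d` to `iota R u`), or `Tr (x - x')`; `descend`
shows that the class of `x` (which is the class of `x - x'`) lies in `TD c D`. -/
def S_Det : Prop :=
  ∀ (m : ℕ) [NeZero m] (Q : Type) [AddCommGroup Q] (c : ZMod m → Q), OddDist c →
    (∀ d : ℕ, GG m d → ∃ x : ZMod m → ℤ, Rel x ∧ (∀ a, od x a ≠ 0 → addOrderOf a ≤ d) ∧
      ∑ a, x a • c a = 0 ∧ Odd (∑ a ∈ univ.filter (fun a : ZMod m => addOrderOf a = d), x a)) →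
    ∀ D : ℕ, TD c D = ⊥

end Pool.Agent.Q59.MC
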