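import Pool.Agent.Q59.MC.Main
import Pool.Agent.Q59.S6.All

/-!
# The modular characters of the levels `4 * q` and `3 * q`
-/

namespace Pool.Agent.Q59.MC

open Finset Pool.Agent.H916R2 Pool.Agent.Q59.RL Pool.Agent.Q59.FS Pool.Agent.Q59.PL
  Pool.Agent.Q59.S6 Pool.Agent.Y2.Cv

section Set

variable {m : ℕ} [NeZero m]

/-- the modular character of a set of levels -/
theorem exists_modular_set {S : Finset ℕ} (hS : ∀ p ∈ S, Lv p ∧ p ∣ m) (hSne : S.Nonempty)
    (hScard : Even S.card) : ∃ Y : Multiset (ZMod m),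
      ModularCharacter m (ME m (fun _ => 1) S + Y) ∧
      (∀ a ∈ Y, addOrderOf a < ∏ p ∈ S, p ∧
        (addOrderOf a ∣ ∏ p ∈ S, p ∨ addOrderOf a = 2)) := by
  classical
  obtain ⟨X, w, ht, hw12, hrel, hord⟩ := exists_top hS hSne hScard
  set d := ∏ p ∈ S, p with hd
  have h3 : 3 ≤ d := by
    obtain ⟨p, hp⟩ := hSne
    have h1 : 3 ≤ p := by
      rcases (hS p hp).1 with rfl | ⟨hp', hp4⟩
      · norm_num
      · omega
    have h2 : p ≤ d := Nat.le_of_dvd (prod_pos fun p hp => (hS p hp).1.pos) (dvd_prod_of_mem _ hp)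
    omega
  set X0 := X.filter (fun a => a ≠ 0) with hX0
  set w0 := w.filter (fun a => a ≠ 0) with hw0
  have hME : ∀ a ∈ ME m (fun _ => 1) S, addOrderOf a = d := ME_order hS
  have hMEf : (ME m (fun _ => 1) S).filter (fun a => a ≠ 0) = ME m (fun _ => 1) S := by
    refine Multiset.filter_eq_self.mpr fun a ha => ?_
    rintro rfl
    have := hME 0 ha
    rw [addOrderOf_zero] at this
    omega
  have e0 : ∀ x : Multiset (ZMod m), ∀ u, hw (x.filter (fun a => a ≠ 0)) u = hw x u := by
    intro x u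
    unfold hw
    conv_rhs => rw [← Multiset.filter_add_not (fun a => a ≠ 0) x]
    rw [Multiset.map_add, Multiset.sum_add]
    have : ((x.filter (fun a => ¬ a ≠ 0)).map fun a => saw ((u : ZMod m) * a)).sum = 0 := by
      refine Multiset.sum_eq_zero fun y hy => ?_
      obtain ⟨b, hb, rfl⟩ := Multiset.mem_map.mp hy
      have hb' := (Multiset.mem_filter.mp hb).2
      rw [not_not] at hb'
      rw [hb', mul_zero]
      simp [saw]
    rw [this, add_zero]
  have hsum : ∀ u, hw (ME m (fun _ => 1) S + (X0 + w0)) u = 0 := by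
    intro u
    rw [← add_assoc, hw_add, hw_add, e0, e0, ← hw_add, ← hw_add, hrel]
  have hYord : ∀ a ∈ X0 + w0, addOrderOf a < d ∧ addOrderOf a ∣ d := by
    intro a ha
    apply hord
    rcases Multiset.mem_add.mp ha with h | h
    · exact Multiset.mem_add.mpr (Or.inl (Multiset.mem_of_mem_filter h))
    · exact Multiset.mem_add.mpr (Or.inr (Multiset.mem_of_mem_filter h))
  have h0 : (0 : ZMod m) ∉ ME m (fun _ => 1) S + (X0 + w0) := by
    rw [Multiset.mem_add, Multiset.mem_add]
    rintro (h | h | h)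
    · have := hME 0 h
      rw [addOrderOf_zero] at this
      omega
    · exact (Multiset.mem_filter.mp h).2 rfl
    · exact (Multiset.mem_filter.mp h).2 rfl
  have hcusp := cusp_of_crep ht
  have hfil : (ME m (fun _ => 1) S + X).filter (fun a => a ≠ 0) = ME m (fun _ => 1) S + X0 := by
    rw [Multiset.filter_add, hMEf]
  by_cases hpar : Even (Multiset.card (ME m (fun _ => 1) S + (X0 + w0)))
  · refine ⟨X0 + w0, ⟨isHodge_of_saw h0 hpar hsum, _, w0, hcusp, ?_, ?_⟩, fun a ha =>
      ⟨(hYord a ha).1, Or.inl (hYord a ha).2⟩⟩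
    · intro a ha
      exact hw12 a (Multiset.mem_of_mem_filter ha)
    · rw [hfil, add_assoc]
  · -- add one half
    rw [Nat.not_even_iff_odd] at hpar
    have h1 := saw_sum_eq (ME m (fun _ => 1) S + (X0 + w0)) h0 1
    have h1' := hsum 1
    unfold hw at h1'
    rw [h1'] at h1
    have hm2 : 2 ∣ m := by
      obtain ⟨k, hk⟩ := hpar
      rw [hk] at h1
      have h2 : ((m : ℤ)) * (2 * k + 1) = 2 *
          ((((ME m (fun _ => 1) S + (X0 + w0)).map
            fun a => (((1 : (ZMod m)ˣ) : ZMod m) * a).val).sum : ℕ) : ℤ) := by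
        push_cast at h1 ⊢
        linarith
      have h3 : (2 : ℤ) ∣ (m : ℤ) * (2 * k + 1) := ⟨_, h2⟩
      have h4 : IsCoprime (2 : ℤ) (2 * k + 1) := ⟨-k, 1, by ring⟩
      exact_mod_cast h4.dvd_of_dvd_mul_right h3
    obtain ⟨n, hn⟩ := hm2
    have hn0 : 0 < n := Nat.pos_of_ne_zero (by rintro rfl; exact NeZero.ne m (by rw [hn, mul_zero]))
    have hhalf : ((n : ℕ) : ZMod m) + (n : ℕ) = 0 := by
      rw [← two_mul, ← Nat.cast_two, ← Nat.cast_mul, ← hn]
      simp
    have hne : ((n : ℕ) : ZMod m) ≠ 0 := by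
      rw [Ne, ZMod.natCast_eq_zero_iff]
      intro h
      have := Nat.le_of_dvd hn0 h
      omega
    have hord2 : addOrderOf ((n : ℕ) : ZMod m) = 2 := by
      refine addOrderOf_eq_prime ?_ hne
      rw [two_nsmul]
      exact hhalf
    have h0' : (0 : ZMod m) ∉ ME m (fun _ => 1) S + (X0 + (w0 + {((n : ℕ) : ZMod m)})) := by
      rw [← add_assoc X0, ← add_assoc, Multiset.mem_add, Multiset.mem_singleton]
      rintro (h | h)
      · exact h0 h
      · exact hne h.symm
    refine ⟨X0 + (w0 + {((n : ℕ) : ZMod m)}), ⟨isHodge_of_saw h0' ?_ ?_, _,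
      w0 + {((n : ℕ) : ZMod m)}, hcusp, ?_, ?_⟩, ?_⟩
    · rw [← add_assoc X0, ← add_assoc, Multiset.card_add, Multiset.card_singleton]
      exact hpar.add_one
    · intro u
      rw [← add_assoc X0, ← add_assoc, Multiset.map_add, Multiset.sum_add, Multiset.map_singleton,
        Multiset.sum_singleton]
      have h5 := hsum u
      unfold hw at h5
      rw [h5, zero_add]
      apply saw_half
      rw [← mul_add, hhalf, mul_zero]
    · intro a ha
      rcases Multiset.mem_add.mp ha with ha | ha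
      · exact hw12 a (Multiset.mem_of_mem_filter ha)
      · rw [Multiset.mem_singleton] at ha
        rw [ha]
        have : (12 : ZMod m) * (n : ℕ) = 6 * (((n : ℕ) : ZMod m) + (n : ℕ)) := by ring
        rw [this, hhalf, mul_zero]
    · rw [hfil, add_assoc]
    · intro a ha
      rw [← add_assoc] at ha
      rcases Multiset.mem_add.mp ha with ha | ha
      · exact ⟨(hYord a ha).1, Or.inl (hYord a ha).2⟩
      · rw [Multiset.mem_singleton] at ha
        rw [ha, hord2]
        exact ⟨by omega, Or.inr rfl⟩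

end Set

section Arith

/-- the condition for membership in the set of the exponents -/
def Ap (q c n : ℕ) : Prop := ∃ i ∈ RS q 1, q + c * i ≡ n [MOD c * q]

lemma Ap_iff {q c n : ℕ} (hq : q.Prime) (hq4 : q % 4 = 3) (hc : c.Coprime q) (hn : n.Coprime q) :
    Ap q c n ↔ q ≡ n [MOD c] ∧ sgn q c * sgn q n = 1 := by
  have hL : Lv q := Or.inr ⟨hq, hq4⟩
  have hq0 : q ≠ 0 := hq.ne_zero
  have hsc := sgn_dich hL hc
  have hsn := sgn_dich hL hn
  have hsgn : ∀ {a b : ℕ}, a ≡ b [MOD q] → sgn q a = sgn q b := by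
    intro a b h
    rw [← sgn_mod hq0 a, ← sgn_mod hq0 b]
    unfold Nat.ModEq at h
    rw [h]
  constructor
  · rintro ⟨i, hi, h⟩
    have hi' := (mem_filter.mp hi).2
    have h1 : q + c * i ≡ n [MOD c] := h.of_mul_right q
    have h2 : q + c * i ≡ n [MOD q] := h.of_mul_left c
    refine ⟨?_, ?_⟩
    · have : q + c * i ≡ q + 0 [MOD c] := Nat.ModEq.add_left q (by
        have : c * i ≡ 0 * i [MOD c] := Nat.ModEq.mul_right i (by simp [Nat.ModEq])
        simpa using this)
      rw [add_zero] at this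
      exact this.symm.trans h1
    · have h3 : c * i ≡ n [MOD q] := by
        have : q + c * i ≡ 0 + c * i [MOD q] := Nat.ModEq.add_right _ (by simp [Nat.ModEq])
        rw [zero_add] at this
        exact this.symm.trans h2
      have h4 := hsgn h3
      rw [sgn_mul, hi'] at h4
      rw [← h4]
      rcases hsc with h | h <;> rw [h] <;> norm_num
  · rintro ⟨h1, h2⟩
    obtain ⟨j, -, hj⟩ := Nat.exists_mul_mod_eq_one_of_coprime hc hq.one_lt
    have hi : c * (j * n % q) ≡ n [MOD q] := by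
      have h3 : c * (j * n % q) ≡ c * (j * n) [MOD q] := Nat.ModEq.mul_left c (Nat.mod_modEq _ _)
      have h4 : c * (j * n) ≡ 1 * n [MOD q] := by
        rw [← mul_assoc]
        refine Nat.ModEq.mul_right n ?_
        unfold Nat.ModEq
        rw [hj, Nat.mod_eq_of_lt hq.one_lt]
      rw [one_mul] at h4
      exact h3.trans h4
    refine ⟨j * n % q, ?_, ?_⟩
    · unfold RS
      rw [mem_filter, mem_range]
      refine ⟨Nat.mod_lt _ hq.pos, ?_⟩
      have h5 := hsgn hi
      rw [sgn_mul] at h5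
      have h6 : sgn q c * sgn q n = sgn q (j * n % q) := by
        rw [← h5, ← mul_assoc]
        rcases hsc with h | h <;> rw [h] <;> norm_num
      rw [← h6, h2]
      rfl
    · refine (Nat.modEq_and_modEq_iff_modEq_mul hc).mp ⟨?_, ?_⟩
      · have : q + c * (j * n % q) ≡ q + 0 [MOD c] := Nat.ModEq.add_left q (by
          have : c * (j * n % q) ≡ 0 * (j * n % q) [MOD c] :=
            Nat.ModEq.mul_right _ (by simp [Nat.ModEq])
          simpa using this)
        rw [add_zero] at this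
        exact this.trans h1
      · have : q + c * (j * n % q) ≡ 0 + c * (j * n % q) [MOD q] :=
          Nat.ModEq.add_right _ (by simp [Nat.ModEq])
        rw [zero_add] at this
        exact this.trans hi

/-- the four values -/
lemma Ap_four {q c k : ℕ} (hq : q.Prime) (hq4 : q % 4 = 3) (hq5 : 5 ≤ q) (hc : c = 3 ∨ c = 4)
    (hk1 : k % q = 1) (hk2 : k % c = c - 1) (hk : k < c * q) :
    (q % c = 1 ∧ ((Ap q c 1 ∧ ¬ Ap q c (c * q - 1) ∧ ¬ Ap q c k ∧ ¬ Ap q c (c * q - k)) ∨
      (¬ Ap q c 1 ∧ ¬ Ap q c (c * q - 1) ∧ ¬ Ap q c k ∧ Ap q c (c * q - k)))) ∨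
    (q % c ≠ 1 ∧ ((¬ Ap q c 1 ∧ Ap q c (c * q - 1) ∧ ¬ Ap q c k ∧ ¬ Ap q c (c * q - k)) ∨
      (¬ Ap q c 1 ∧ ¬ Ap q c (c * q - 1) ∧ Ap q c k ∧ ¬ Ap q c (c * q - k)))) := by
  have hL : Lv q := Or.inr ⟨hq, hq4⟩
  have hq0 : q ≠ 0 := hq.ne_zero
  have hcq : c.Coprime q := by
    refine Nat.Coprime.symm ((Nat.Prime.coprime_iff_not_dvd hq).mpr fun h => ?_)
    have := Nat.le_of_dvd (by omega) h
    omega
  have hcop : ∀ n : ℕ, n % q ≠ 0 → n.Coprime q := by
    intro n hn
    refine Nat.Coprime.symm ((Nat.Prime.coprime_iff_not_dvd hq).mpr fun h => ?_)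
    exact hn (Nat.mod_eq_zero_of_dvd h)
  have hcq0 : c * q % q = 0 := Nat.mul_mod_left c q
  have hcqc : c * q % c = 0 := Nat.mul_mod_right c q
  have hcpos : 0 < c := by omega
  have h1cq : 1 < c * q := by nlinarith
  -- residues
  have r1 : (1 : ℕ) % q = 1 := Nat.mod_eq_of_lt (by omega)
  have rneg : ∀ {n : ℕ}, n < c * q → n % q = 1 → (c * q - n) % q = q - 1 := by
    intro n hn h1
    have h2 : (c * q - n + n) % q = 0 := by rw [Nat.sub_add_cancel hn.le, hcq0]
    rw [Nat.add_mod, h1] at h2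
    have h3 := Nat.mod_lt (c * q - n) hq.pos
    by_contra hcon
    have h4 : (c * q - n) % q + 1 < q := by omega
    rw [Nat.mod_eq_of_lt h4] at h2
    omega
  have rnegc : ∀ {n : ℕ}, n < c * q → n % c ≠ 0 → (c * q - n) % c = c - n % c := by
    intro n hn h1
    have h2 : (c * q - n + n) % c = 0 := by rw [Nat.sub_add_cancel hn.le, hcqc]
    rw [Nat.add_mod] at h2
    have h3 := Nat.mod_lt (c * q - n) hcpos
    have h5 := Nat.mod_lt n hcpos
    have h6 : c ∣ (c * q - n) % c + n % c := Nat.dvd_of_mod_eq_zero h2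
    obtain ⟨e, he⟩ := h6
    have he1 : e = 1 := by
      have h7 : 0 < e := by
        rcases Nat.eq_zero_or_pos e with rfl | h
        · rw [mul_zero] at he; omega
        · exact h
      have h8 : e < 2 := by
        by_contra hcon
        push Not at hcon
        have : c * 2 ≤ c * e := Nat.mul_le_mul_left c hcon
        omega
      omega
    rw [he1, mul_one] at he
    omega
  have hsmod : ∀ {n n' : ℕ}, n % q = n' % q → sgn q n = sgn q n' := by
    intro n n' h
    rw [← sgn_mod hq0 n, ← sgn_mod hq0 n', h]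
  have s1 : sgn q 1 = 1 := by
    unfold sgn
    rw [if_neg (by rintro rfl; exact absurd hq (by norm_num))]
    simp
  have sneg : ∀ {n : ℕ}, n % q = q - 1 → sgn q n = -1 := by
    intro n h
    have h1 : sgn q n = sgn q (q - 1) := hsmod (by rw [h, Nat.mod_eq_of_lt (by omega)])
    rw [h1, sgn_sub hL (by omega) one_ne_zero, s1]
  have sk : sgn q k = 1 := by
    rw [← s1]
    exact hsmod (by rw [hk1, r1])
  have e1 := rneg h1cq r1
  have e2 := rneg hk hk1
  have i1 := Ap_iff hq hq4 hcq (hcop 1 (by rw [r1]; exact one_ne_zero))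
  have i2 := Ap_iff hq hq4 hcq (hcop (c * q - 1) (by rw [e1]; omega))
  have i3 := Ap_iff hq hq4 hcq (hcop k (by rw [hk1]; exact one_ne_zero))
  have i4 := Ap_iff hq hq4 hcq (hcop (c * q - k) (by rw [e2]; omega))
  rw [s1, mul_one] at i1
  rw [sneg e1] at i2
  rw [sk, mul_one] at i3
  rw [sneg e2] at i4
  have m1 : (c * q - 1) % c = c - 1 := by
    have := rnegc h1cq (by rw [Nat.mod_eq_of_lt (by omega)]; exact one_ne_zero)
    rwa [Nat.mod_eq_of_lt (show 1 < c by omega)] at this
  have m2 : (c * q - k) % c = 1 := by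
    have := rnegc hk (by rw [hk2]; omega)
    rw [hk2] at this
    omega
  have m0 : 1 % c = 1 := Nat.mod_eq_of_lt (by omega)
  have hqc : q % c = 1 ∨ q % c = c - 1 := by
    rcases hc with rfl | rfl
    · have h1 : q % 3 ≠ 0 := by
        intro h
        have := (Nat.prime_dvd_prime_iff_eq Nat.prime_three hq).mp (Nat.dvd_of_mod_eq_zero h)
        omega
      omega
    · right; omega
  unfold Nat.ModEq at i1 i2 i3 i4
  rw [m0] at i1
  rw [m1] at i2
  rw [hk2] at i3
  rw [m2] at i4
  have hc1 : (1 : ℕ) ≠ c - 1 := by omega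
  rcases hqc with h | h <;> rcases sgn_dich hL hcq with h' | h' <;> rw [h, h'] at i1 i2 i3 i4
  · refine Or.inl ⟨h, Or.inl ?_⟩
    rw [i1, i2, i3, i4]
    simp [hc1]
  · refine Or.inl ⟨h, Or.inr ?_⟩
    rw [i1, i2, i3, i4]
    simp [hc1]
  · refine Or.inr ⟨by rw [h]; exact hc1.symm, Or.inr ?_⟩
    rw [i1, i2, i3, i4]
    simp [hc1.symm]
  · refine Or.inr ⟨by rw [h]; exact hc1.symm, Or.inl ?_⟩
    rw [i1, i2, i3, i4]
    simp [hc1.symm]

end Arith

section Count

variable {m : ℕ} [NeZero m]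

lemma RS_three : RS 3 1 = {1} := by
  have hL : Lv 3 := Or.inr ⟨Nat.prime_three, rfl⟩
  have h0 : sgn 3 0 = 0 := sgn_zero hL
  have h1 : sgn 3 1 = 1 := by
    unfold sgn
    rw [if_neg (by norm_num)]
    simp
  have h2 : sgn 3 2 = -1 := by
    have := sgn_sub hL (show 1 < 3 by norm_num) one_ne_zero
    rwa [h1] at this
  ext a
  unfold RS
  rw [mem_filter, mem_range, mem_singleton]
  constructor
  · rintro ⟨h, h'⟩
    interval_cases a
    · rw [h0] at h'; norm_num at h'
    · rfl
    · rw [h2] at h'; norm_num at h'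
  · rintro rfl
    exact ⟨by norm_num, by rw [h1]; rfl⟩

lemma RS_c {c : ℕ} (hc : c = 3 ∨ c = 4) : RS c 1 = {1} := by
  rcases hc with rfl | rfl
  · exact RS_three
  · decide

omit [NeZero m] in
/-- the exponents of the two levels -/
lemma ME_two {q c R d : ℕ} (hq : q.Prime) (hq5 : 5 ≤ q) (hc : c = 3 ∨ c = 4)
    (hR : R * d = m) (hd : c * q = d) :
    ME m (fun _ => 1) {c, q} = (RS q 1).val.map fun i => ((R * (q + c * i) : ℕ) : ZMod m) := by
  have hcq : c ∉ ({q} : Finset ℕ) := by
    rw [mem_singleton]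
    omega
  have e1 : ME m (fun _ => 1) ({q} : Finset ℕ) = PE m q 1 := by
    have : ({q} : Finset ℕ) = insert q ∅ := rfl
    rw [this, ME_insert (notMem_empty q), ME_empty]
    unfold mprod
    simp only [Multiset.map_singleton, add_zero]
    exact (Multiset.bind_singleton _ _).trans (Multiset.map_id' _)
  have hc0 : 0 < c := by omega
  have hq0 := hq.pos
  have e2 : m / c = R * q := by
    rw [← hR, ← hd]
    have : R * (c * q) = c * (R * q) := by ring
    rw [this, Nat.mul_div_cancel_left _ hc0]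
  have e3 : m / q = R * c := by
    rw [← hR, ← hd]
    have : R * (c * q) = q * (R * c) := by ring
    rw [this, Nat.mul_div_cancel_left _ hq0]
  have e4 : ({c, q} : Finset ℕ) = insert c {q} := rfl
  rw [e4, ME_insert hcq, e1]
  unfold mprod PE
  rw [RS_c hc, e2, e3]
  simp only [singleton_val, Multiset.map_singleton, mul_one, Multiset.singleton_bind, Multiset.map_map]
  refine Multiset.map_congr rfl fun i _ => ?_
  simp only [Function.comp_apply]
  push_cast
  ring

lemma modEq_iota {R d : ℕ} [NeZero d] (hR : R * d = m) {a : ℕ} {z : ZMod d} :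
    ((R * a : ℕ) : ZMod m) = iota R z ↔ a ≡ z.val [MOD d] := by
  have hR0 : 0 < R := Nat.pos_of_ne_zero (by rintro rfl; exact NeZero.ne m (by rw [← hR, zero_mul]))
  unfold iota
  rw [ZMod.natCast_eq_natCast_iff, ← hR]
  constructor
  · exact fun h => Nat.ModEq.mul_left_cancel' hR0.ne' h
  · exact fun h => Nat.ModEq.mul_left' R h

/-- the multiplicities -/
lemma count_ME_two {q c R d : ℕ} [NeZero d] (hq : q.Prime) (hq5 : 5 ≤ q) (hc : c = 3 ∨ c = 4)
    (hR : R * d = m) (hd : c * q = d) (z : ZMod d) :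
    (Ap q c z.val → (ME m (fun _ => 1) {c, q}).count (iota R z) = 1) ∧
    (¬ Ap q c z.val → (ME m (fun _ => 1) {c, q}).count (iota R z) = 0) := by
  subst hd
  have hcop : c.Coprime q := by
    refine Nat.Coprime.symm ((Nat.Prime.coprime_iff_not_dvd hq).mpr fun h => ?_)
    have := Nat.le_of_dvd (by omega) h
    omega
  have hcpos : 0 < c := by omega
  have hR0 : 0 < R := Nat.pos_of_ne_zero (by rintro rfl; exact NeZero.ne m (by rw [← hR, zero_mul]))
  have hmem : iota R z ∈ ME m (fun _ => 1) {c, q} ↔ Ap q c z.val := by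
    rw [ME_two hq hq5 hc hR rfl, Multiset.mem_map]
    unfold Ap
    constructor
    · rintro ⟨i, hi, h⟩
      exact ⟨i, hi, (modEq_iota hR).mp h⟩
    · rintro ⟨i, hi, h⟩
      exact ⟨i, hi, (modEq_iota hR).mpr h⟩
  have hnd : (ME m (fun _ => 1) {c, q}).Nodup := by
    rw [ME_two hq hq5 hc hR rfl]
    refine Multiset.Nodup.map_on ?_ (RS q 1).nodup
    intro i hi j hj hij
    have hi' := mem_range.mp (mem_filter.mp (show i ∈ RS q 1 from hi)).1
    have hj' := mem_range.mp (mem_filter.mp (show j ∈ RS q 1 from hj)).1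
    rw [ZMod.natCast_eq_natCast_iff, ← hR] at hij
    have h1 := Nat.ModEq.mul_left_cancel' hR0.ne' hij
    have h2 := Nat.ModEq.add_left_cancel' q h1
    have h3 := Nat.ModEq.mul_left_cancel' hcpos.ne' h2
    unfold Nat.ModEq at h3
    rwa [Nat.mod_eq_of_lt hi', Nat.mod_eq_of_lt hj'] at h3
  constructor
  · intro h
    exact Multiset.count_eq_one_of_mem hnd (hmem.mpr h)
  · intro h
    exact Multiset.count_eq_zero.mpr fun h' => h (hmem.mp h')

end Count

section Ex

variable {m : ℕ} [NeZero m]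

lemma kappa_vals {q c ℓ : ℕ} (hq : q.Prime) (hq5 : 5 ≤ q) (hc : (c = 4 ∧ ℓ = 2) ∨ (c = 3 ∧ ℓ = 3))
    [NeZero (c * q)] {κ : (ZMod (c * q))ˣ} (hκ : κ ∈ KL (c * q) ℓ) (hκ1 : κ ≠ 1) :
    (κ : ZMod (c * q)).val % q = 1 ∧ (κ : ZMod (c * q)).val % c = c - 1 := by
  set k := (κ : ZMod (c * q)).val with hk
  have hkd : k < c * q := ZMod.val_lt _
  have hcop := ZMod.val_coe_unit_coprime κ
  rw [← hk] at hcop
  have hkc : k.Coprime c := Nat.Coprime.coprime_mul_right_right hcop
  have hcq : c.Coprime q := by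
    refine Nat.Coprime.symm ((Nat.Prime.coprime_iff_not_dvd hq).mpr fun h => ?_)
    have := Nat.le_of_dvd (by omega) h
    omega
  have hℓq : ℓ.Coprime q := by
    refine Nat.Coprime.symm ((Nat.Prime.coprime_iff_not_dvd hq).mpr fun h => ?_)
    have := Nat.le_of_dvd (by omega) h
    omega
  have h1 : ℓ * k ≡ ℓ * 1 [MOD c * q] := by
    rw [mem_KL] at hκ
    rw [← ZMod.natCast_eq_natCast_iff, mul_one]
    push_cast
    rw [hk, ZMod.natCast_zmod_val]
    exact_mod_cast hκ
  have h2 : k ≡ 1 [MOD q] := Nat.ModEq.cancel_left_of_coprime hℓq.symm (h1.of_mul_left c)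
  have h3 : k % q = 1 := by
    unfold Nat.ModEq at h2
    rwa [Nat.mod_eq_of_lt hq.one_lt] at h2
  refine ⟨h3, ?_⟩
  have h4 : k % c ≠ 1 := by
    intro h
    have h5 : k ≡ 1 [MOD c] := by
      unfold Nat.ModEq
      rw [h, Nat.mod_eq_of_lt (by omega)]
    have h6 := (Nat.modEq_and_modEq_iff_modEq_mul hcq).mp ⟨h5, h2⟩
    unfold Nat.ModEq at h6
    have h7 : 1 < c * q := by
      have : 1 < c := by omega
      nlinarith [hq.one_lt]
    rw [Nat.mod_eq_of_lt hkd, Nat.mod_eq_of_lt h7] at h6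
    apply hκ1
    apply Units.ext
    rw [Units.val_one, ← ZMod.natCast_zmod_val (κ : ZMod (c * q)), ← hk, h6, Nat.cast_one]
  have h5 : k % c ≠ 0 := by
    intro h
    have h6 : c ∣ k := Nat.dvd_of_mod_eq_zero h
    have h7 := Nat.Coprime.eq_one_of_dvd hkc.symm h6
    omega
  rcases hc with ⟨rfl, -⟩ | ⟨rfl, -⟩
  · have h6 : k % 2 = 1 := by
      by_contra hcon
      have h7 : 2 ∣ k := by omega
      have h8 : 2 ∣ Nat.gcd k 4 := Nat.dvd_gcd h7 (by norm_num)
      rw [hkc] at h8
      omega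
    omega
  · omega

/-- **The relation of the order `c * q`.** -/
theorem ex_modular {q c ℓ : ℕ} (hq : q.Prime) (hq4 : q % 4 = 3) (hq5 : 5 ≤ q)
    (hc : (c = 4 ∧ ℓ = 2) ∨ (c = 3 ∧ ℓ = 3)) {Q : Type} [AddCommGroup Q] {C : ZMod m → Q}
    (hb : ∀ s, ModularCharacter m s → (s.map C).sum = 0) :
    ∃ T : ZMod m → ℤ, Ex m q c ℓ T ∧ ∑ a, T a • C a = 0 := by
  classical
  by_cases hdvd : c * q ∣ m
  swap
  · refine ⟨fun _ => 0, ⟨?_, ?_, ?_⟩, ?_⟩
    · intro t
      simp
    · intro a ha
      exact absurd (by unfold od; ring) ha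
    · intro R d _ h1 h2
      exfalso
      apply hdvd
      rw [← h1, ← h2]
      exact ⟨R, by ring⟩
    · simp
  have hc' : c = 3 ∨ c = 4 := by omega
  have hcqne : c ≠ q := by omega
  have hLc : Lv c := by
    rcases hc' with rfl | rfl
    · exact Or.inr ⟨Nat.prime_three, rfl⟩
    · exact Or.inl rfl
  have hprod : ∏ p ∈ ({c, q} : Finset ℕ), p = c * q := prod_pair hcqne
  obtain ⟨Y, hmod, hY⟩ := exists_modular_set (m := m) (S := {c, q}) (by
      intro p hp
      rw [mem_insert, mem_singleton] at hp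
      rcases hp with rfl | rfl
      · exact ⟨hLc, (dvd_mul_right _ _).trans hdvd⟩
      · exact ⟨Or.inr ⟨hq, hq4⟩, (dvd_mul_left _ _).trans hdvd⟩) (insert_nonempty _ _)
      (by rw [card_pair hcqne]; exact even_two)
  rw [hprod] at hY
  set s := ME m (fun _ => 1) {c, q} + Y with hs
  have hME : ∀ a ∈ ME m (fun _ => 1) ({c, q} : Finset ℕ), addOrderOf a = c * q := by
    intro a ha
    rw [ME_order (m := m) (f := {c, q}) (by
      intro p hp
      rw [mem_insert, mem_singleton] at hp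
      rcases hp with rfl | rfl
      · exact ⟨hLc, (dvd_mul_right _ _).trans hdvd⟩
      · exact ⟨Or.inr ⟨hq, hq4⟩, (dvd_mul_left _ _).trans hdvd⟩) a ha, hprod]
  obtain ⟨e, he⟩ : ∃ e : ℤ, e = if q % c = 1 then 1 else -1 := ⟨_, rfl⟩
  -- the support
  have hsupp : ∀ a ∈ s, addOrderOf a ∣ c * q ∨ addOrderOf a = 2 := by
    intro a ha
    rcases Multiset.mem_add.mp ha with h | h
    · exact Or.inl (by rw [hME a h])
    · exact (hY a h).2
  have hneg2 : ∀ a : ZMod m, addOrderOf a = 2 → -a = a := by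
    intro a ha
    have h1 : 2 • a = 0 := by rw [← ha]; exact addOrderOf_nsmul_eq_zero a
    rw [two_nsmul] at h1
    exact (eq_neg_of_add_eq_zero_left h1).symm
  refine ⟨fun a => e * ((s.count a : ℕ) : ℤ), ⟨?_, ?_, ?_⟩, ?_⟩
  · intro t
    have h1 := hmod.1.rel t
    have h2 : ∑ a, e * ((s.count a : ℕ) : ℤ) * saw ((t : ZMod m) * a) =
        e * ∑ a, ((s.count a : ℕ) : ℤ) * saw ((t : ZMod m) * a) := by
      rw [mul_sum]
      exact sum_congr rfl fun a _ => by ring
    change ∑ a, e * ((s.count a : ℕ) : ℤ) * saw ((t : ZMod m) * a) = 0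
    rw [h2]
    change ∑ a, ((s.count a : ℕ) : ℤ) * saw ((t : ZMod m) * a) = 0 at h1
    rw [h1, mul_zero]
  · intro a ha
    by_contra hcon
    apply ha
    have hcon' : ¬ addOrderOf (-a) ∣ c * q := by rwa [addOrderOf_neg]
    unfold od
    beta_reduce
    by_cases h2 : addOrderOf a = 2
    · rw [hneg2 a h2, sub_self]
    · have h3 : s.count a = 0 := Multiset.count_eq_zero.mpr fun h => by
        rcases hsupp a h with h | h
        · exact hcon h
        · exact h2 h
      have h4 : s.count (-a) = 0 := Multiset.count_eq_zero.mpr fun h => by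
        rcases hsupp _ h with h | h
        · exact hcon' h
        · rw [addOrderOf_neg] at h; exact h2 h
      rw [h3, h4, sub_self]
  · intro R d hNd hR hd κ hκ hκ1
    rw [mul_comm] at hd
    subst hd
    obtain ⟨k1, k2⟩ := kappa_vals hq hq5 hc hκ hκ1
    set k := (κ : ZMod (c * q)).val with hk
    have hkd : k < c * q := ZMod.val_lt _
    have h1cq : 1 < c * q := by
      have : 1 < c := by omega
      nlinarith [hq.one_lt]
    have hk0 : k ≠ 0 := by
      intro h
      rw [h, Nat.zero_mod] at k1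
      omega
    have hfour := Ap_four hq hq4 hq5 hc' k1 k2 hkd
    -- the multiplicities
    have hcY : ∀ z : ZMod (c * q), IsUnit z → Y.count (iota R z : ZMod m) = 0 := by
      intro z hz
      refine Multiset.count_eq_zero.mpr fun h => ?_
      have h1 := (hY _ h).1
      obtain ⟨u, rfl⟩ := hz
      rw [addOrderOf_iota_unit hR] at h1
      omega
    have hcount : ∀ z : ZMod (c * q), IsUnit z → ∀ n : ℕ, z.val = n →
        (Ap q c n → ((s.count (iota R z : ZMod m) : ℕ) : ℤ) = 1) ∧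
        (¬ Ap q c n → ((s.count (iota R z : ZMod m) : ℕ) : ℤ) = 0) := by
      intro z hz n hn
      have h1 := count_ME_two (m := m) hq hq5 hc' hR rfl z
      rw [hn] at h1
      have h2 : s.count (iota R z : ZMod m) =
          (ME m (fun _ => 1) ({c, q} : Finset ℕ)).count (iota R z : ZMod m) := by
        rw [hs, Multiset.count_add, hcY z hz, add_zero]
      rw [h2]
      exact ⟨fun h => by rw [h1.1 h]; rfl, fun h => by rw [h1.2 h]; rfl⟩
    have : Fact (1 < c * q) := ⟨h1cq⟩
    have hv1 : ((1 : (ZMod (c * q))ˣ) : ZMod (c * q)).val = 1 := by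
      rw [Units.val_one, ZMod.val_one]
    have hvn1 : (-((1 : (ZMod (c * q))ˣ) : ZMod (c * q))).val = c * q - 1 := by
      rw [ZMod.neg_val, if_neg (Units.ne_zero _), hv1]
    have hvnk : (-(κ : ZMod (c * q))).val = c * q - k := by
      rw [ZMod.neg_val, if_neg (Units.ne_zero _)]
    have c1 := hcount _ (Units.isUnit 1) 1 hv1
    have c2 := hcount _ (Units.isUnit (1 : (ZMod (c * q))ˣ)).neg (c * q - 1) hvn1
    have c3 := hcount _ (Units.isUnit κ) k rfl
    have c4 := hcount _ (Units.isUnit κ).neg (c * q - k) hvnk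
    have hF : ∀ u : (ZMod (c * q))ˣ, FF R (c * q) (fun a : ZMod m => e * ((s.count a : ℕ) : ℤ)) u =
        e * ((s.count (iota R (u : ZMod (c * q)) : ZMod m) : ℕ) : ℤ) -
          e * ((s.count (iota R (-(u : ZMod (c * q))) : ZMod m) : ℕ) : ℤ) := by
      intro u
      unfold FF od
      rw [iota_neg hR]
    rw [hF, hF]
    rcases hfour with ⟨h, h5⟩ | ⟨h, h5⟩
    · rw [if_pos h] at he
      rcases h5 with ⟨g1, g2, g3, g4⟩ | ⟨g1, g2, g3, g4⟩
      · rw [c1.1 g1, c2.2 g2, c3.2 g3, c4.2 g4, he]; norm_num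
      · rw [c1.2 g1, c2.2 g2, c3.2 g3, c4.1 g4, he]; norm_num
    · rw [if_neg h] at he
      rcases h5 with ⟨g1, g2, g3, g4⟩ | ⟨g1, g2, g3, g4⟩
      · rw [c1.2 g1, c2.1 g2, c3.2 g3, c4.2 g4, he]; norm_num
      · rw [c1.2 g1, c2.2 g2, c3.1 g3, c4.2 g4, he]; norm_num
  · simp only [mul_smul]
    rw [← smul_sum, sum_count, hb s hmod, smul_zero]

end Ex

end Pool.Agent.Q59.MC
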