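import Mathlib

/-!
# The kernels of the Weil representation of `SL_2` over a prime field
-/

namespace Pool.Agent.Q59.MC

open Finset Matrix

section Gauss

variable (p : ℕ) [hp : Fact p.Prime]

/-- the additive character `exp (2 π i x / p)` -/
noncomputable def ee : AddChar (ZMod p) ℂ := ZMod.stdAddChar

/-- the quadratic character, with complex values -/
noncomputable def ch : MulChar (ZMod p) ℂ := (quadraticChar (ZMod p)).ringHomComp (Int.castRingHom ℂ)

/-- the quadratic Gauss sum -/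
noncomputable def gs : ℂ := ∑ y : ZMod p, ee p (y ^ 2)

variable {p}

lemma ee_primitive : (ee p).IsPrimitive := ZMod.isPrimitive_stdAddChar p

lemma sum_sq (f : ZMod p → ℂ) (h2 : p ≠ 2) : ∑ y : ZMod p, f (y ^ 2) = ∑ x, (1 + ch p x) * f x := by
  classical
  have h := Finset.sum_fiberwise (s := (univ : Finset (ZMod p))) (g := fun y => y ^ 2)
    (f := fun y => f (y ^ 2))
  rw [← h]
  refine sum_congr rfl fun x _ => ?_
  have hx : ∀ y ∈ univ.filter (fun y : ZMod p => y ^ 2 = x), f (y ^ 2) = f x := by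
    intro y hy
    rw [(mem_filter.mp hy).2]
  rw [sum_congr rfl hx, sum_const, nsmul_eq_mul]
  congr 1
  have hF : ringChar (ZMod p) ≠ 2 := by rwa [ZMod.ringChar_zmod_n]
  have h3 := quadraticChar_card_sqrts hF x
  have h4 : ({y : ZMod p | y ^ 2 = x} : Set (ZMod p)).toFinset = univ.filter (fun y : ZMod p => y ^ 2 = x) := by
    ext y; simp
  rw [h4] at h3
  have h5 : (((univ.filter (fun y : ZMod p => y ^ 2 = x)).card : ℤ) : ℂ) = ((quadraticChar (ZMod p) x + 1 : ℤ) : ℂ) := by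
    rw [h3]
  rw [Int.cast_natCast] at h5
  rw [h5]
  simp [ch]
  ring

lemma ee_sum_mul (A : ZMod p) : ∑ x, ee p (A * x) = if A = 0 then (p : ℂ) else 0 := by
  have h := AddChar.sum_mulShift A (ee_primitive (p := p))
  simp only [ZMod.card] at h
  have h' : ∑ x, ee p (A * x) = ∑ x, ee p (x * A) := sum_congr rfl fun x _ => by rw [mul_comm]
  rw [h', h]
  split_ifs <;> simp

lemma gs_eq (h2 : p ≠ 2) : gs p = gaussSum (ch p) (ee p) := by
  unfold gs gaussSum
  rw [sum_sq (fun x => ee p x) h2]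
  have h := ee_sum_mul (p := p) 1
  simp only [one_mul, one_ne_zero, if_false] at h
  simp only [add_mul, one_mul]
  rw [sum_add_distrib, h, zero_add]

lemma ch_ne_one (h2 : p ≠ 2) : ch p ≠ 1 := by
  have hF : ringChar (ZMod p) ≠ 2 := by rwa [ZMod.ringChar_zmod_n]
  obtain ⟨a, ha⟩ := quadraticChar_exists_neg_one' hF
  intro h
  have h1 : ch p (a : ZMod p) = 1 := by rw [h, MulChar.one_apply_coe]
  unfold ch at h1
  rw [MulChar.ringHomComp_apply, ha] at h1
  norm_num at h1

lemma ch_quad : (ch p).IsQuadratic := by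
  unfold ch
  exact (quadraticChar_isQuadratic _).comp _

lemma gs_sq (h2 : p ≠ 2) : gs p ^ 2 = ch p (-1) * p := by
  have h : gaussSum (ch p) (ee p) ^ 2 = ch p (-1) * (Fintype.card (ZMod p) : ℂ) :=
    gaussSum_sq (ch_ne_one h2) ch_quad (ee_primitive (p := p))
  rw [gs_eq h2, h, ZMod.card]

lemma ch_neg_one_ne : ch p (-1) ≠ 0 := by
  have : IsUnit (-1 : ZMod p) := isUnit_one.neg
  exact (this.map (ch p)).ne_zero

lemma gs_ne (h2 : p ≠ 2) : gs p ≠ 0 := by
  intro h
  have h1 := gs_sq h2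
  rw [h, zero_pow two_ne_zero] at h1
  have h3 : (p : ℂ) ≠ 0 := by exact_mod_cast hp.out.ne_zero
  exact (mul_ne_zero ch_neg_one_ne h3) h1.symm

lemma ch_sq {x : ZMod p} (hx : x ≠ 0) : ch p x * ch p x = 1 := by
  rw [← map_mul, ← sq]
  unfold ch
  rw [MulChar.ringHomComp_apply, quadraticChar_sq_one' hx]
  simp

lemma ch_inv (x : ZMod p) : ch p x⁻¹ = ch p x := by
  by_cases hx : x = 0
  · rw [hx, _root_.inv_zero]
  · have h1 := ch_sq hx
    have h2 : ch p x⁻¹ * ch p x = 1 := by rw [← map_mul, inv_mul_cancel₀ hx, map_one]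
    have h3 : ch p x ≠ 0 := by
      intro h
      rw [h, mul_zero] at h1
      exact zero_ne_one h1
    exact mul_right_cancel₀ h3 (h2.trans h1.symm)

lemma sum_scaled (h2 : p ≠ 2) {A : ZMod p} (hA : A ≠ 0) :
    ∑ y : ZMod p, ee p (A * y ^ 2) = ch p A * gs p := by
  rw [sum_sq (fun x => ee p (A * x)) h2]
  simp only [add_mul, one_mul]
  rw [sum_add_distrib, ee_sum_mul, if_neg hA, zero_add, gs_eq h2]
  unfold gaussSum
  rw [mul_sum]
  refine Fintype.sum_bijective (fun x => A * x) (mulLeft_bijective₀ A hA) _ _ fun x => ?_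
  rw [map_mul (ch p), ← mul_assoc, ← mul_assoc, ch_sq hA, one_mul]

lemma sum_quad (h2 : p ≠ 2) {A : ZMod p} (hA : A ≠ 0) (B : ZMod p) :
    ∑ y : ZMod p, ee p (A * y ^ 2 - 2 * B * y) = ch p A * gs p * ee p (- B ^ 2 / A) := by
  rw [← sum_scaled h2 hA, sum_mul]
  refine Fintype.sum_bijective (fun y => y - B / A) (Equiv.subRight (B / A)).bijective _ _ fun y => ?_
  rw [← AddChar.map_add_eq_mul]
  congr 1
  field_simp
  ring

lemma sum_lin (h2 : p ≠ 2) (B : ZMod p) :
    ∑ y : ZMod p, ee p (- (2 * B * y)) = if B = 0 then (p : ℂ) else 0 := by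
  have h := ee_sum_mul (p := p) (-(2 * B))
  have h3 : (2 : ZMod p) ≠ 0 := by
    intro h
    have : ((2 : ℕ) : ZMod p) = 0 := by exact_mod_cast h
    rw [ZMod.natCast_eq_zero_iff] at this
    exact h2 ((Nat.prime_dvd_prime_iff_eq hp.out Nat.prime_two).mp this)
  have h4 : (-(2 * B) = 0) ↔ B = 0 := by
    rw [neg_eq_zero, mul_eq_zero]
    exact ⟨fun h => h.resolve_left h3, Or.inr⟩
  rw [← if_congr h4 rfl rfl, ← h]
  exact sum_congr rfl fun y _ => by rw [neg_mul]

end Gauss

end Pool.Agent.Q59.MC
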