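import Pool.Agent.Q59.MC.Sg
import Pool.Agent.Q53.MC.Comb

/-!
# The distribution relation for the weights
-/

namespace Pool.Agent.Q59.MC

open Finset Pool.Agent.H916R2

lemma Lv.coprime {p q : ℕ} (hp : Lv p) (hq : Lv q) (h : p ≠ q) : p.Coprime q := by
  have key : ∀ p : ℕ, p.Prime ∧ p % 4 = 3 → Nat.Coprime 4 p := by
    rintro p ⟨hp, hp4⟩
    have h1 : Nat.Coprime 2 p := (Nat.coprime_primes Nat.prime_two hp).mpr (by omega)
    exact Nat.Coprime.pow_left 2 h1
  rcases hp with rfl | hp
  · rcases hq with rfl | hq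
    · exact absurd rfl h
    · exact key q hq
  · rcases hq with rfl | hq
    · exact (key p hp).symm
    · exact (Nat.coprime_primes hp.1 hq.1).mpr h

/-- the second shift of signs -/
def be (q p : ℕ) : ℤˣ := if q = 4 then sgu p 2 else 1

section Flip

variable {m : ℕ} [NeZero m]

lemma PE_sum {q : ℕ} (s : ℤˣ) (b : ZMod m) :
    ((PE m q s).map fun a => saw (a + b)).sum = ∑ i ∈ RS q s, saw (b + (i : ZMod m) * ((m / q : ℕ) : ZMod m)) := by
  unfold PE
  rw [Multiset.map_map]
  refine congrArg Multiset.sum (Multiset.map_congr rfl fun i _ => ?_)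
  simp only [Function.comp_apply]
  congr 1
  push_cast
  ring

/-- the distribution relation -/
lemma two_signs {q : ℕ} (hq : Lv q) (hqm : q ∣ m) (b : ZMod m) :
    ((PE m q 1).map fun a => saw (a + b)).sum + ((PE m q (-1)).map fun a => saw (a + b)).sum =
      saw ((q : ZMod m) * b) - (if q = 4 then saw (2 * b) else saw b) := by
  have hqm' : q * (m / q) = m := Nat.mul_div_cancel' hqm
  rw [PE_sum, PE_sum]
  rcases id hq with rfl | ⟨hp, hp4⟩
  · rw [if_pos rfl]
    have h1 : RS 4 1 = {1} := by decide
    have h3 : RS 4 (-1) = {3} := by decide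
    rw [h1, h3, sum_singleton, sum_singleton]
    have h4 := saw_dist hqm' b
    rw [sum_range_succ, sum_range_succ, sum_range_succ, sum_range_one] at h4
    have hqm2 : 2 * (2 * (m / 4)) = m := by rw [← mul_assoc]; exact hqm'
    have h5 := saw_dist hqm2 b
    rw [sum_range_succ, sum_range_one] at h5
    have e0 : b + ((0 : ℕ) : ZMod m) * ((m / 4 : ℕ) : ZMod m) = b := by simp
    have e2 : b + ((2 : ℕ) : ZMod m) * ((m / 4 : ℕ) : ZMod m) =
        b + ((1 : ℕ) : ZMod m) * ((2 * (m / 4) : ℕ) : ZMod m) := by push_cast; ring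
    have e3 : b + ((0 : ℕ) : ZMod m) * ((2 * (m / 4) : ℕ) : ZMod m) = b := by simp
    have e4 : ((2 : ℕ) : ZMod m) * b = 2 * b := by push_cast; ring
    rw [e0, e2] at h4
    rw [e3, e4] at h5
    linarith
  · rw [if_neg (by omega)]
    have h4 := saw_dist hqm' b
    have hr : range q = insert 0 (RS q 1 ∪ RS q (-1)) := by
      ext a
      rw [mem_insert, mem_union]
      unfold RS
      rw [mem_filter, mem_filter, mem_range]
      constructor
      · intro ha
        by_cases ha0 : a = 0
        · exact Or.inl ha0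
        · right
          have hcop : a.Coprime q := by
            rw [Nat.coprime_comm, Nat.Prime.coprime_iff_not_dvd hp]
            intro h
            exact ha0 (Nat.eq_zero_of_dvd_of_lt h ha)
          rcases sgn_dich hq hcop with h | h
          · exact Or.inl ⟨ha, by rw [h]; rfl⟩
          · exact Or.inr ⟨ha, by rw [h]; rfl⟩
      · rintro (rfl | ⟨h, _⟩ | ⟨h, _⟩)
        · exact hp.pos
        · exact h
        · exact h
    have hdis : Disjoint (RS q 1) (RS q (-1)) := by
      rw [disjoint_left]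
      intro a ha hb
      have h1 := (mem_filter.mp ha).2
      have h2 := (mem_filter.mp hb).2
      rw [h1] at h2
      norm_num at h2
    have h0 : (0 : ℕ) ∉ RS q 1 ∪ RS q (-1) := by
      rw [mem_union]
      unfold RS
      rw [mem_filter, mem_filter, sgn_zero hq]
      rintro (⟨_, h⟩ | ⟨_, h⟩)
      · norm_num at h
      · norm_num at h
    rw [hr, sum_insert h0, sum_union hdis] at h4
    have e0 : b + ((0 : ℕ) : ZMod m) * ((m / q : ℕ) : ZMod m) = b := by simp
    rw [e0] at h4
    linarith

lemma two_signs' {q : ℕ} (hq : Lv q) (hqm : q ∣ m) (s : ℤˣ) (b : ZMod m) :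
    ((PE m q s).map fun a => saw (a + b)).sum + ((PE m q (-s)).map fun a => saw (a + b)).sum =
      saw ((q : ZMod m) * b) - (if q = 4 then saw (2 * b) else saw b) := by
  rcases Int.units_eq_one_or s with rfl | rfl
  · exact two_signs hq hqm b
  · rw [neg_neg, add_comm]
    exact two_signs hq hqm b

lemma WW_flip {q : ℕ} {f : Finset ℕ} (hqf : q ∉ f) (hq : Lv q) (hqm : q ∣ m)
    (hf : ∀ p ∈ f, Lv p ∧ p ∣ m) (ζ : ℕ → ℤˣ) :
    WW m (insert q f) ζ + WW m (insert q f) (Function.update ζ q (- ζ q)) =
      WW m f (fun p => sgu p q * ζ p) - WW m f (fun p => be q p * ζ p) := by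
  have e1 : ME m (Function.update ζ q (- ζ q)) f = ME m ζ f := by
    refine ME_congr fun p hp => ?_
    rw [Function.update_of_ne]
    rintro rfl
    exact hqf hp
  have hcop : ∀ p ∈ f, q.Coprime p := fun p hp => hq.coprime (hf p hp).1 (by rintro rfl; exact hqf hp)
  unfold WW
  rw [ME_insert hqf, ME_insert hqf, Function.update_self, e1, mprod_sum', mprod_sum', ←
    Multiset.sum_map_add]
  have e2 : (fun b => ((PE m q (ζ q)).map fun a => saw (a + b)).sum +
      ((PE m q (-ζ q)).map fun a => saw (a + b)).sum) =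
      fun b => saw ((q : ZMod m) * b) - (if q = 4 then saw (2 * b) else saw b) := by
    funext b
    exact two_signs' hq hqm _ b
  rw [e2, Multiset.sum_map_sub]
  have e3 : ((ME m ζ f).map fun b => saw ((q : ZMod m) * b)) =
      (ME m (fun p => sgu p q * ζ p) f).map saw := by
    rw [← ME_mul fun p hp => ⟨(hf p hp).1, (hf p hp).2, hcop p hp⟩, Multiset.map_map]
    rfl
  have e4 : ((ME m ζ f).map fun b => if q = 4 then saw (2 * b) else saw b) =
      (ME m (fun p => be q p * ζ p) f).map saw := by
    by_cases h4 : q = 4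
    · have h5 : ∀ p ∈ f, Lv p ∧ p ∣ m ∧ Nat.Coprime 2 p := by
        intro p hp
        refine ⟨(hf p hp).1, (hf p hp).2, ?_⟩
        have h6 := hcop p hp
        rw [h4] at h6
        exact Nat.Coprime.coprime_dvd_left (by norm_num) h6
      have h6 : (fun p => be q p * ζ p) = fun p => sgu p 2 * ζ p := by
        funext p
        unfold be
        rw [if_pos h4]
      rw [h6, ← ME_mul h5, Multiset.map_map]
      refine Multiset.map_congr rfl fun b _ => ?_
      rw [if_pos h4]
      simp
    · have h6 : (fun p => be q p * ζ p) = ζ := by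
        funext p
        unfold be
        rw [if_neg h4, one_mul]
      rw [h6]
      refine Multiset.map_congr rfl fun b _ => ?_
      rw [if_neg h4]
  rw [e3, e4]

/-- **Integer combinations.** -/
theorem WW_comb {P : Finset ℕ} (hP : ∀ p ∈ P, Lv p ∧ p ∣ m) {S : Finset ℕ} (hS : S ⊆ P)
    (heven : Even S.card) :
    WW m S ∈ AddSubgroup.closure {h : (ℕ → ℤˣ) → ℤ | ∃ f ⊆ S, Odd f.card ∧ h = WW m f} := by
  refine Pool.Agent.Q53.MC.comb P (WW m) (fun q p => sgu p q) be ?_ ?_ ?_ S hS heven
  · intro S _ ζ ζ' h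
    exact WW_congr h
  · intro S hS ζ
    exact WW_neg fun p hp => hP p (hS hp)
  · intro S hS q hq ζ
    have h1 := WW_flip (m := m) (f := S.erase q) (notMem_erase q S) (hP q (hS hq)).1
      (hP q (hS hq)).2 (fun p hp => hP p (hS (mem_of_mem_erase hp))) ζ
    rwa [insert_erase hq] at h1

end Flip

end Pool.Agent.Q59.MC
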